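import Pool.Agent.Lib.MP_1a91b9_ntX.DG.SumV
import Pool.Agent.Lib.MP_1a91b9_ntX.DG.DetL

/-!
# The determinant `dL` is not zero

JOB DNE. PROOF (complete; helper30): simplified version of MP_1a91b9_ntT/DG/DUnit.lean. `hM := Md.of_nu hN`. `Fintype (U H)`: finite (`𝓞 K/(μ)` is finite, see `nd_fin` in Nd.lean). `φ : L' →ₐ[K] ℂ` (`exists_emb L'`), `res` from `hAB.exists_res`. `Nat.card Gal(F/K) = finrank K F` (`hAB.galF`, `IsGalois.card_aut_eq_finrank`).
`exists_Zp` (Zp.lean) for `c = μ`, `x = rp u` (`μ ∤ rp u`: `rp_cop`, `hM.not_unit`) gives `A u` with `A u 1 = (embK μ)⁻¹ E1 (rp u / μ)`. `hAB.trace_val hN hres h6 φ` gives `κ`, `u0`: `Om φ(algebraMap (g t)) = κ Σ_{u : res u = g res u0} A u 1`. The matrix `(g h) t`, `t = Algebra.trace F L' (lamQ J')`, of `dL`: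
`Om^n φ (algebraMap F L' (dL F L' J')) = det (Om φ(algebraMap ((g h) t))) = det (κ y (g h (res u0))) = κ^n det (y (g (h res u0)))`, `y g = Σ_{res u = g} A u 1` (`RingHom.map_det`, `Matrix.det_smul`), and permuting the columns `h ↦ h res u0` (`Matrix.det_permute'` or `Matrix.det_submatrix..`; see DUnit.lean) it is `± κ^n det (y (g h))`,
which is `± ε (L 1 * Π_{v ∈ B} ..)` by `hAB.det_val hM` with `L` from `hL` (`AN.LGood`, AN/Alg.lean), `B` the finite set of the places of `F` which contain `μ`. The factors are not zero: `AN.euler_ne` (AN/ESum.lean). So `dL ≠ 0`.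
-/

set_option autoImplicit false

namespace Pool.Agent.Lib.MP_1a91b9_ntX.DG

open NumberField IsDedekindDomain WeierstrassCurve Pool.Agent.Lib.MP_1a91b9_ntT
open Pool.Agent.Lib.MP_1a91b9_ntX.DB

noncomputable section

private theorem DNE_finU {μ : 𝓞 K} (h : μ ≠ 0) (H : Subgroup (CU μ)) : Finite (U H) := by
  have h1 : Finite (𝓞 K ⧸ Ideal.span {μ}) := by
    refine Ideal.finiteQuotientOfFreeOfNeBot _ ?_
    rw [Ne, Ideal.span_singleton_eq_bot]
    exact h
  infer_instance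

private theorem DNE_det {G : Type*} [Group G] [Fintype G] [DecidableEq G] (y : G → ℂ) (κ : ℂ)
    (h0 : G) : ∃ s : ℂ, (s = 1 ∨ s = -1) ∧
      Matrix.det (Matrix.of fun g h : G => κ * y (g * h * h0)) =
        κ ^ Fintype.card G * (s * Matrix.det (Matrix.of fun g h : G => y (g * h))) := by
  refine ⟨(((Equiv.Perm.sign (Equiv.mulRight h0) : ℤˣ) : ℤ) : ℂ), ?_, ?_⟩
  · rcases Int.units_eq_one_or (Equiv.Perm.sign (Equiv.mulRight h0)) with h | h
    · left
      rw [h]
      simp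
    · right
      rw [h]
      simp
  · have h1 : (Matrix.of fun g h : G => κ * y (g * h * h0)) =
        κ • ((Matrix.of fun g h : G => y (g * h)).submatrix id (Equiv.mulRight h0)) := by
      ext g h
      simp [mul_assoc]
    rw [h1, Matrix.det_smul, Matrix.det_permute']

private theorem DNE_pm {s : ℂ} (hs : s = 1 ∨ s = -1) : s ≠ 0 := by
  rcases hs with rfl | rfl
  · exact one_ne_zero
  · exact neg_ne_zero.2 one_ne_zero

variable [DD] [HC]

section
variable {μ : 𝓞 K} {H : Subgroup (CU μ)} {F L' : Type} [Field F] [NumberField F] [Algebra K F]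
  [Field L'] [NumberField L'] [Algebra K L'] [Algebra F L'] [IsScalarTower K F L']
  [DecidableEq L'] {J' : Pt L'} (hAB : AB H F L' J')
include hAB

theorem AB.dL_ne {μ' : 𝓞 K} (hN : Nu μ μ') (h6 : Nat.Coprime (Module.finrank K F) 6)
    (hL : AN.LGood F) : dL F L' J' ≠ 0 := by
  have hM : Md μ := Md.of_nu hN
  have hg : IsGalois K F := hAB.galF
  have hfU : Finite (U H) := DNE_finU hAB.ne H
  have hftU : Fintype (U H) := Fintype.ofFinite (U H)
  let hdec : DecidableEq Gal(F/K) := Classical.decEq _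
  obtain ⟨res, -, hres⟩ := hAB.exists_res
  have h6' : Nat.Coprime (Nat.card Gal(F/K)) 6 := by
    rw [IsGalois.card_aut_eq_finrank]
    exact h6
  obtain ⟨φ⟩ := exists_emb L'
  have hnot : ∀ u : U H, ¬ μ ∣ rp u := fun u h =>
    hM.not_unit ((rp_cop u).isUnit_of_dvd' h dvd_rfl)
  choose A hA hA1 hA2 using fun u : U H => exists_Zp hAB.ne (hnot u)
  obtain ⟨κ, u0, hκ, hkey⟩ := hAB.trace_val hN hres h6' φ
  obtain ⟨L, hLd, hL1, hLne⟩ := hL
  have hBfin : {v : HeightOneSpectrum (𝓞 F) |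
      Ideal.span {algebraMap (𝓞 K) (𝓞 F) μ} ≤ v.asIdeal}.Finite := by
    refine (Ideal.finite_factors (I := Ideal.span {algebraMap (𝓞 K) (𝓞 F) μ}) ?_).subset
      fun v hv => ?_
    · rw [Ne, Ideal.zero_eq_bot, Ideal.span_singleton_eq_bot,
        map_eq_zero_iff _ (FaithfulSMul.algebraMap_injective (𝓞 K) (𝓞 F))]
      exact hAB.ne
    · exact Ideal.dvd_iff_le.mpr hv
  obtain ⟨B, hBdef⟩ : ∃ B, B = hBfin.toFinset := ⟨_, rfl⟩
  have hB : ∀ v, v ∈ B ↔ algebraMap (𝓞 K) (𝓞 F) μ ∈ v.asIdeal := fun v => by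
    rw [hBdef, Set.Finite.mem_toFinset]
    exact Ideal.span_singleton_le_iff_mem _
  obtain ⟨ε', hε', hdet⟩ := hAB.det_val hM hres hA hA1 hLd hL1 B hB
  have hkey2 : ∀ g : Gal(F/K), Om * φ (algebraMap F L' (g (Algebra.trace F L' (lamQ J')))) =
      κ * ∑ u : U H, if res u = g * res u0 then A u 1 else 0 := by
    intro g
    rw [hkey g]
    refine congrArg (fun z => κ * z) (Finset.sum_congr rfl fun u _ => ?_)
    by_cases hc : res u = g * res u0
    · rw [if_pos hc, if_pos hc, hA2]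
    · rw [if_neg hc, if_neg hc]
  obtain ⟨s, hs, hdet2⟩ := DNE_det (G := Gal(F/K))
    (fun g => ∑ u : U H, if res u = g then A u 1 else 0) κ (res u0)
  have hmain : Om ^ Fintype.card Gal(F/K) * φ (algebraMap F L' (dL F L' J')) =
      κ ^ Fintype.card Gal(F/K) * (s * (ε' * (L 1 * ∏ v ∈ B,
        (1 - psbC F v.asIdeal * (Ideal.absNorm v.asIdeal : ℂ) ^ (-1 : ℂ))))) := by
    rw [← hdet, ← hdet2]
    have e1 : φ (algebraMap F L' (dL F L' J')) =
        Matrix.det (((φ : L' →+* ℂ).comp (algebraMap F L')).mapMatrix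
          (Matrix.of fun g h : Gal(F/K) => (g * h) (Algebra.trace F L' (lamQ J')))) := by
      rw [← RingHom.map_det]
      rfl
    rw [e1, ← Matrix.det_smul]
    refine congrArg Matrix.det ?_
    ext g h
    exact hkey2 (g * h)
  intro h0
  rw [h0, map_zero, map_zero, mul_zero] at hmain
  have hB1 : ∏ v ∈ B, (1 - psbC F v.asIdeal * (Ideal.absNorm v.asIdeal : ℂ) ^ (-1 : ℂ)) ≠ 0 :=
    Finset.prod_ne_zero_iff.2 fun v _ => AN.euler_ne v
  exact mul_ne_zero (pow_ne_zero _ hκ) (mul_ne_zero (DNE_pm hs)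
    (mul_ne_zero (DNE_pm hε') (mul_ne_zero hLne hB1))) hmain.symm

end

end

end Pool.Agent.Lib.MP_1a91b9_ntX.DG
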