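import Pool.Agent.Lib.MP_1a91b9_ntX.DG.DtC

/-!
# The decomposition groups at the bad places are not trivial

JOB DTD. PROOF (complete; helper30). `B`: the set `S` of places `v0` of `F` with `v0 (6 D) < 1` is finite (`od_finite` for `bD F ≠ 0`; `bD_ne`). Let
`B = Σ_{v0 ∈ S} (2 * (absNorm v0)^(od v0 3 + 1) + 1)` (`Set.Finite.toFinset`). Suppose `B < ℓ` and that `DT ϖ F` fails: `N/F` Galois, `P`, `Full F ϖ P`, `v` a place of `N` with `v (6 D) < 1` and
`gpl σ v = v → σ = 1`. `N` is in the same universe as `F` (`Type`). By the private lemma `dt_ef` of MP_1a91b9_ntT/TG/Dt.lean (copy it) `v` has ramification index `1` and inertia degree `1` over `F`. So with `v0 = v.under (𝓞 F)`: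
`absNorm v = absNorm v0` (`Ideal.absNorm_pow_inertiaDeg` as in `f2a_nrm` of MP_1a91b9_ntT/DG/F2.lean), `od v 3 = od v0 3` (`od_map`, `map_ofNat`), `v0 (6 D) < 1` (`val_map_lt`). `v ϖ = 1`: if `v ϖ < 1` then
`v (6 D) = 1` (`PD.bad_pi`), contradiction. By `card_le_place`: `ℓ ≤ q ≤ 2 (absNorm v0)^(..) + 1 ≤ B`, contradiction (`q = ℓ` or `ℓ^2`: `PD.alt`).
-/

set_option autoImplicit false

namespace Pool.Agent.Lib.MP_1a91b9_ntX.DG

open NumberField IsDedekindDomain WeierstrassCurve Pool.Agent.Lib.MP_1a91b9_ntT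
open Pool.Agent.Lib.MP_1a91b9_ntX.DB

noncomputable section

variable [DD]

omit [DD] in
open scoped Pointwise in
/-- trivial decomposition group: unramified of degree one -/
private theorem dtd_ef {k N : Type} [Field k] [NumberField k] [Field N] [NumberField N]
    [Algebra k N] [IsGalois k N] (v : HeightOneSpectrum (𝓞 N))
    (hst : ∀ σ : Gal(N/k), gpl σ v = v → σ = 1) :
    v.asIdeal.ramificationIdx (𝓞 k) = 1 ∧ v.asIdeal.inertiaDeg (𝓞 k) = 1 := by
  have i1 : v.asIdeal.IsPrime := v.isPrime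
  have i2 : (v.under (𝓞 k)).asIdeal.IsPrime := (v.under (𝓞 k)).isPrime
  have i3 : (v.under (𝓞 k)).asIdeal.IsMaximal := (v.under (𝓞 k)).isMaximal
  have i4 : v.asIdeal.LiesOver (v.under (𝓞 k)).asIdeal := ⟨rfl⟩
  have i5 : Finite (v.under (𝓞 k)).asIdeal.ResidueField := by
    have j1 : Finite (𝓞 k ⧸ (v.under (𝓞 k)).asIdeal) :=
      Ideal.finiteQuotientOfFreeOfNeBot _ (v.under (𝓞 k)).ne_bot
    exact Finite.of_surjective _
      (Ideal.bijective_algebraMap_quotient_residueField (v.under (𝓞 k)).asIdeal).2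
  have h1 := Ideal.card_stabilizer_eq (G := Gal(N/k)) (v.under (𝓞 k)).asIdeal v.asIdeal
  have h2 : Nat.card (MulAction.stabilizer Gal(N/k) v.asIdeal) = 1 := by
    rw [Nat.card_eq_one_iff_unique]
    refine ⟨⟨?_⟩, ⟨1⟩⟩
    have hone : ∀ g : MulAction.stabilizer Gal(N/k) v.asIdeal, g.1 = 1 := by
      rintro ⟨g, hg⟩
      change g = 1
      apply hst
      apply HeightOneSpectrum.ext
      rw [MulAction.mem_stabilizer_iff] at hg
      conv_rhs => rw [← hg]
      rw [Ideal.pointwise_smul_eq_comap]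
      rfl
    intro a b
    exact Subtype.ext ((hone a).trans (hone b).symm)
  rw [h2, Ideal.ramificationIdxIn_eq_ramificationIdx _ v.asIdeal Gal(N/k),
    Ideal.inertiaDegIn_eq_inertiaDeg _ v.asIdeal Gal(N/k)] at h1
  exact ⟨Nat.eq_one_of_mul_eq_one_right h1.symm, Nat.eq_one_of_mul_eq_one_left h1.symm⟩

/-- for large `ℓ` the decomposition groups at the bad places are not trivial -/
theorem dt_large (F : Type) [Field F] [NumberField F] [Algebra K F] : ∃ B : ℕ,
    ∀ (ϖ : 𝓞 K) (ℓ q : ℕ), PD ϖ ℓ q → B < ℓ → DT ϖ F := by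
  classical
  have hb0 : bD F ≠ 0 := bD_ne (F := F)
  have hfin : {w : HeightOneSpectrum (𝓞 F) | od w (bD F) ≠ 0}.Finite := od_finite hb0
  refine ⟨∑ w ∈ hfin.toFinset, (2 * (Ideal.absNorm w.asIdeal) ^ ((od w (3 : F)).toNat + 1) + 1), ?_⟩
  intro ϖ ℓ q h hB N _ _ _ _ _ _ _ P hF v hv
  by_contra hcon
  push Not at hcon
  obtain ⟨he, hf⟩ := dtd_ef (k := F) v (fun σ hσ => by
    by_contra h1
    exact hcon σ h1 hσ)
  have hvk : (v.under (𝓞 F)).valuation F (bD F) < 1 := by
    rw [← val_map_lt, map_intCast]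
    exact hv
  have hmem : v.under (𝓞 F) ∈ hfin.toFinset := by
    rw [Set.Finite.mem_toFinset]
    have h1 := (val_lt_one_iff _ hb0).1 hvk
    exact h1.ne'
  have hpi : v.valuation N (algebraMap K N (ϖ : K)) = 1 := by
    have h1 : v.valuation N (algebraMap K N (ϖ : K)) ≤ 1 := by
      have e : algebraMap K N (ϖ : K) = algebraMap (𝓞 N) N (algebraMap (𝓞 K) (𝓞 N) ϖ) := rfl
      rw [e]
      exact v.valuation_le_one _
    refine le_antisymm h1 ?_
    by_contra h2
    push Not at h2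
    have h3 := h.bad_pi (w := v) h2
    rw [h3] at hv
    exact lt_irrefl _ hv
  have hcard := card_le_place h hF.ord v hpi
  have i1 : v.asIdeal.LiesOver (v.under (𝓞 F)).asIdeal := ⟨rfl⟩
  have h1 : Ideal.absNorm v.asIdeal = Ideal.absNorm (v.under (𝓞 F)).asIdeal := by
    have h2 := Ideal.absNorm_pow_inertiaDeg (v.under (𝓞 F)).asIdeal v.asIdeal
    rw [hf, pow_one] at h2
    exact h2.symm
  have h2 : od v (3 : N) = od (v.under (𝓞 F)) (3 : F) := by
    have h3 := od_map (k := F) v (3 : F)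
    rw [he, map_ofNat, Nat.cast_one, one_mul] at h3
    exact h3
  rw [h1, h2] at hcard
  have h3 := Finset.single_le_sum
    (f := fun w : HeightOneSpectrum (𝓞 F) => 2 * (Ideal.absNorm w.asIdeal) ^ ((od w (3 : F)).toNat + 1) + 1)
    (fun w _ => Nat.zero_le _) hmem
  have h4 : ℓ ≤ q := by
    rcases h.alt with h5 | h5
    · exact h5.ge
    · rw [h5]
      exact Nat.le_self_pow two_ne_zero ℓ
  exact absurd (h4.trans (hcard.trans h3)) (not_le.2 hB)

end

end Pool.Agent.Lib.MP_1a91b9_ntX.DG
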