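import Pool.Agent.Lib.MP_1a91b9_ntX.DG.LamR

/-!
# The annihilator `μ`

JOB NUM. PROOF (complete; helper30). Let `c = m * bO * HC.f ≠ 0`, `c = pi3^k * M` with `pi3 ∤ M` (`WfDvdMonoid.max_power_factor`, `prime_pi3`, or `multiplicity`). Let `R j` be the statement: for all `a` with `IsCoprime a HC.f`, `IsCoprime a M` and
`pi3^j * M ∣ a - 1`: `ps (span {a}) = a`. `R k` holds: `f ∣ c ∣ a - 1`, `HC.hd.ray`. Let `j` be minimal with `R j` (`Nat.find`, classical). `j ≠ 0`: `lam_ram M` gives `α` contradicting `R 0` (`M ∣ α - 1` gives `IsCoprime α M`). So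
`j = i + 1` and `R i` fails: there is `κ`, `IsCoprime κ f`, `pi3^i * M ∣ κ - 1`, `ps((κ)) ≠ κ`. Let `μ' = pi3^i * M`, `μ = pi3 * μ'`. `κ` is coprime to `μ`: to `M` because `M ∣ κ - 1`, to `pi3` because `pi3 ∣ 3 ∣ f` (`HC.hd.three`, `pi3_dvd_three`).
`ray`: `μ ∣ a - 1` implies `IsCoprime a M`, `IsCoprime a pi3`, so `IsCoprime a c`, `IsCoprime a f`, and `R j` applies. `bad`: `bO ∈ P` implies `c ∈ P`, so `pi3 ∈ P` or `M ∈ P` (prime; `k` may be `0`), so `μ ∈ P`.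
`dvd`: `m ∣ c = pi3^k * M ∣ μ * pi3^k`. `ne`: `c ≠ 0` (`bO ≠ 0` because `D ≠ 0`, `HC.hd.ne`).
`Nu.nlam`: `2 ∈ P` for some prime `P` (2 is not a unit of `𝓞 K`: `Ideal.exists_le_maximal`), `bO ∈ P`, so `μ ∈ P` and if `μ ∣ pi3` then `pi3 ∈ P`, `3 ∈ P`, `1 = 3 - 2 ∈ P`, contradiction.
-/

set_option autoImplicit false

namespace Pool.Agent.Lib.MP_1a91b9_ntX.DG

open NumberField IsDedekindDomain WeierstrassCurve Pool.Agent.Lib.MP_1a91b9_ntT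
open Pool.Agent.Lib.MP_1a91b9_ntX.DB

noncomputable section

variable [DD] [HC]

/-- `μ` is a multiple of the conductor of the Hecke character which is minimal at the prime above `3` -/
structure Nu (μ μ' : 𝓞 K) : Prop where
  eq : μ = pi3 * μ'
  ne : μ ≠ 0
  bad : ∀ P : HeightOneSpectrum (𝓞 K), (bO : 𝓞 K) ∈ P.asIdeal → μ ∈ P.asIdeal
  ray : ∀ a : 𝓞 K, μ ∣ a - 1 → ps (Ideal.span {a}) = a
  ex : ∃ κ : 𝓞 K, IsCoprime κ μ ∧ μ' ∣ κ - 1 ∧ ps (Ideal.span {κ}) ≠ κ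

omit [DD] [HC] in
private theorem nuM_cop {a m : 𝓞 K} (h : m ∣ a - 1) : IsCoprime a m := by
  obtain ⟨c, hc⟩ := h
  exact ⟨1, -c, by linear_combination hc⟩

theorem exists_nu {m : 𝓞 K} (hm : m ≠ 0) : ∃ (μ μ' : 𝓞 K) (k : ℕ), Nu μ μ' ∧
    m ∣ μ * pi3 ^ k := by
  classical
  have hb0 : (bO : 𝓞 K) ≠ 0 := by
    show ((6 * DD.D : ℤ) : 𝓞 K) ≠ 0
    rw [Ne, Int.cast_eq_zero]
    exact mul_ne_zero (by norm_num) DD.ne
  have hc0 : m * bO * HC.f ≠ 0 := mul_ne_zero (mul_ne_zero hm hb0) HC.hd.ne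
  obtain ⟨k, M, hM, hc⟩ := WfDvdMonoid.max_power_factor hc0 prime_pi3.irreducible
  have hM0 : M ≠ 0 := by
    intro h
    exact hM (by rw [h]; exact dvd_zero _)
  have hfc : (HC.f : 𝓞 K) ∣ pi3 ^ k * M := by
    rw [← hc]
    exact dvd_mul_left _ _
  have hex : ∃ j : ℕ, ∀ a : 𝓞 K, IsCoprime a HC.f → IsCoprime a M → pi3 ^ j * M ∣ a - 1 →
      ps (Ideal.span {a}) = a :=
    ⟨k, fun a _ _ h => HC.hd.ray a (hfc.trans h)⟩
  obtain ⟨j, hj, hjmin⟩ : ∃ j : ℕ, (∀ a : 𝓞 K, IsCoprime a HC.f → IsCoprime a M →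
      pi3 ^ j * M ∣ a - 1 → ps (Ideal.span {a}) = a) ∧ ∀ i < j, ¬ ∀ a : 𝓞 K,
        IsCoprime a HC.f → IsCoprime a M → pi3 ^ i * M ∣ a - 1 → ps (Ideal.span {a}) = a :=
    ⟨Nat.find hex, Nat.find_spec hex, fun i hi => Nat.find_min hex hi⟩
  have hj0 : j ≠ 0 := by
    intro h
    rw [h] at hj
    obtain ⟨α, h1, -, h3, -, h5⟩ := lam_ram M hM
    exact h5 (hj α h3 (nuM_cop h1) (by rw [pow_zero, one_mul]; exact h1))
  obtain ⟨i, rfl⟩ : ∃ i, j = i + 1 := ⟨j - 1, by omega⟩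
  have hi := hjmin i (Nat.lt_succ_self i)
  push Not at hi
  obtain ⟨κ, hκf, hκM, hκ, hκps⟩ := hi
  have hpf : pi3 ∣ (HC.f : 𝓞 K) := pi3_dvd_three.trans HC.hd.three
  have hκpi : IsCoprime κ pi3 := hκf.of_isCoprime_of_dvd_right hpf
  refine ⟨pi3 * (pi3 ^ i * M), pi3 ^ i * M, k, ⟨rfl, ?_, ?_, ?_, ⟨κ, ?_, hκ, hκps⟩⟩, ?_⟩
  · exact mul_ne_zero prime_pi3.ne_zero (mul_ne_zero (pow_ne_zero _ prime_pi3.ne_zero) hM0)
  · intro P hP
    have h1 : pi3 ^ k * M ∈ P.asIdeal := by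
      rw [← hc]
      exact P.asIdeal.mul_mem_right _ (P.asIdeal.mul_mem_left _ hP)
    rcases P.isPrime.mem_or_mem h1 with h2 | h2
    · exact P.asIdeal.mul_mem_right _ (P.isPrime.mem_of_pow_mem _ h2)
    · exact P.asIdeal.mul_mem_left _ (P.asIdeal.mul_mem_left _ h2)
  · intro a ha
    have h1 : IsCoprime a (pi3 * (pi3 ^ i * M)) := nuM_cop ha
    have h2 : IsCoprime a pi3 := h1.of_isCoprime_of_dvd_right (dvd_mul_right _ _)
    have h3 : IsCoprime a M := h1.of_isCoprime_of_dvd_right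
      ((dvd_mul_left M (pi3 ^ i)).trans (dvd_mul_left _ _))
    have h4 : IsCoprime a (pi3 ^ k * M) := h2.pow_right.mul_right h3
    refine hj a (h4.of_isCoprime_of_dvd_right hfc) h3 ?_
    rw [pow_succ', mul_assoc]
    exact ha
  · exact hκpi.mul_right (hκpi.pow_right.mul_right hκM)
  · have h1 : m ∣ pi3 ^ k * M := by
      rw [← hc, mul_assoc]
      exact dvd_mul_right _ _
    refine h1.trans ⟨pi3 ^ (i + 1), ?_⟩
    ring

theorem Nu.nlam {μ μ' : 𝓞 K} (h : Nu μ μ') : ¬ μ ∣ pi3 := by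
  intro hd
  have h2 : (Ideal.span {(2 : 𝓞 K)}) ≠ ⊤ := by
    intro h1
    have e3 := S4.u4_absNorm_p (K := K) 2
    rw [Nat.cast_ofNat, h1, Ideal.absNorm_top] at e3
    omega
  obtain ⟨P, hP, hle⟩ := Ideal.exists_le_maximal _ h2
  have h2P : (2 : 𝓞 K) ∈ P := hle (Ideal.mem_span_singleton_self _)
  have hPb : P ≠ ⊥ := by
    intro h1
    rw [h1] at h2P
    exact two_ne_zero ((Submodule.mem_bot _).1 h2P)
  have hbP : (bO : 𝓞 K) ∈ P := by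
    show ((6 * DD.D : ℤ) : 𝓞 K) ∈ P
    have e1 : ((6 * DD.D : ℤ) : 𝓞 K) = 2 * ((3 * DD.D : ℤ) : 𝓞 K) := by push_cast; ring
    rw [e1]
    exact P.mul_mem_right _ h2P
  have hμ : μ ∈ P := h.bad ⟨P, hP.isPrime, hPb⟩ hbP
  have h3 : (3 : 𝓞 K) ∈ P := P.mem_of_dvd (hd.trans pi3_dvd_three) hμ
  apply hP.ne_top
  rw [Ideal.eq_top_iff_one]
  have e1 : (1 : 𝓞 K) = 3 - 2 := by norm_num
  rw [e1]
  exact P.sub_mem h3 h2P

/-- the value of the character at an ideal prime to `μ` generates the ideal -/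
theorem Nu.span {μ μ' : 𝓞 K} (h : Nu μ μ') {I : Ideal (𝓞 K)}
    (hI : IsCoprime I (Ideal.span {μ})) : Ideal.span {ps I} = I := by
  refine HC.hd.span I ?_
  rw [Ideal.isCoprime_iff_sup_eq] at hI ⊢
  by_contra hne
  obtain ⟨P, hP, hle⟩ := Ideal.exists_le_maximal _ hne
  have hfP : HC.f ∈ P := hle (Ideal.mem_sup_right (Ideal.mem_span_singleton_self _))
  have hPb : P ≠ ⊥ := by
    intro h1
    rw [h1] at hfP
    exact HC.hd.ne ((Submodule.mem_bot _).1 hfP)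
  have h6 : ((6 * DD.D : ℤ) : 𝓞 K) ∈ P := HC.hd.good ⟨P, hP.isPrime, hPb⟩ hfP
  have hμ : μ ∈ P := h.bad ⟨P, hP.isPrime, hPb⟩ h6
  apply hP.ne_top
  rw [eq_top_iff, ← hI]
  exact sup_le (le_sup_left.trans hle) ((Ideal.span_singleton_le_iff_mem _).2 hμ)

end

end Pool.Agent.Lib.MP_1a91b9_ntX.DG
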