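import Pool.Agent.Lib.MP_1a91b9_ntX.DG.TF
import Pool.Agent.Lib.MP_1a91b9_ntX.DG.NuM
import Pool.Agent.Lib.MP_1a91b9_ntX.DG.Up
import Pool.Agent.Lib.MP_1a91b9_ntX.DX.Top
import Pool.Agent.Lib.MP_1a91b9_ntT.TG.Std2

/-!
# Reduction to the modulus `μ`

JOB STDF. PROOF (complete; helper30): adaptation of `std_form`, `ord_three`, `pow_dvd`, `exists_ann` of MP_1a91b9_ntT/TG/{Std1,Std2}.lean (start from these files).
`std_down`: `R` has annihilator `μ pi3^k`, `pi3 ∣ μ`. `J1 = sm (pi3^k) R` has annihilator `μ`. Let `σ ∈ Gal(L1/K)` with `ga σ J1 = J1`, `ga σ R = sm c R` (`gal_sm`, `k := K`): `pi3^k c = pi3^k` modulo `μ pi3^k`, so `μ ∣ c - 1`, in particular `pi3 ∣ c - 1`. Then `μ pi3^j ∣ c^(3^j) - 1` (induction as in `pow_dvd`: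
`x^3 - 1 = (x - 1)(x^2 + x + 1)`, `pi3 ∣ x^2 + x + 1` if `pi3 ∣ x - 1`), so `σ^(3^k) = 1` (`hgen`). As in `std_form`: `Gal(L1/K)` is commutative, `F₀/K` is Galois, the restriction of `σ` to `F₀` has order dividing `3^k` and `[F₀ : K]`, so it is `1`. `L'` = the fixed field of `{σ | ga σ J1 = J1}` (a normal subgroup), contains `F₀` and the coordinates of `J1`; `J1` descends to
`J : Pt L'` (`exists_pt_down`). `H` = the set of the `u : CU μ` such that `∃ σ : Gal(L'/K), ga σ J = sm L' (MP_1a91b9_ntT.DG.rp u) J`, a subgroup (`MP_1a91b9_ntT.DG.rp_mul`, `rp_one`, finite group or `ga σ⁻¹`). Fields of `AB`: `gal` (quotient by a normal subgroup), `ne`, `ord` (`Ord.map`), `nlam := hl`, `gen` (as in `std_form`),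
`mem`: `gal_sm` and `MP_1a91b9_ntT.DG.rp_ex` (in MP_1a91b9_ntT/DG; a residue class with given coprime representative), `surj`: the definition of `H`.
`exists_ab`: the annihilator of `T₀` is `(m)`, `m ≠ 0` (as `exists_ann`, Std1.lean: the ideal of the `c` with `sm c T₀ = 0` is principal (`IsCyclotomicExtension.Rat.three_pid K`) and contains `n ≠ 0`). `exists_nu` (NuM.lean): `Nu μ μ'`, `m ∣ μ pi3^k`. `exists_tf` (TF.lean) for `ν = μ pi3^k`: `L1`, `R`. `emb_tf`: `L →ₐ[K] L1`; `F₀ → L → L1` makes `L1` an `F₀`-algebra.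
`std_down` with `pi3 ∣ μ` (`Nu.eq`), `hl := Nu.nlam`.
-/

set_option autoImplicit false

namespace Pool.Agent.Lib.MP_1a91b9_ntX.DG

open NumberField IsDedekindDomain WeierstrassCurve Pool.Agent.Lib.MP_1a91b9_ntT
open Pool.Agent.Lib.MP_1a91b9_ntX.DB

noncomputable section

variable [DD] [HC]

section
variable {L : Type} [Field L] [NumberField L] [Algebra K L] [DecidableEq L]

omit [HC] [NumberField L] in
/-- the annihilator of a torsion point -/
private theorem STDF_ann {T : Pt L} {n : ℕ} (hn : n ≠ 0) (h : n • T = 0) :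
    ∃ ν : 𝓞 K, ν ≠ 0 ∧ Ord ν T := by
  have hpid : IsPrincipalIdealRing (𝓞 K) := IsCyclotomicExtension.Rat.three_pid K
  let I : Ideal (𝓞 K) :=
    { carrier := {a | sm L a T = 0}
      add_mem' := fun {a b} ha hb => by
        change sm L (a + b) T = 0
        have ha' : sm L a T = 0 := ha
        have hb' : sm L b T = 0 := hb
        rw [map_add]
        change sm L a T + sm L b T = 0
        rw [ha', hb', add_zero]
      zero_mem' := by
        change sm L 0 T = 0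
        rw [map_zero]
        rfl
      smul_mem' := fun c a ha => by
        change sm L (c * a) T = 0
        have ha' : sm L a T = 0 := ha
        rw [← sm_sm, ha', map_zero] }
  have hI : ∀ a, a ∈ I ↔ sm L a T = 0 := fun a => Iff.rfl
  obtain ⟨ν, hν⟩ := (IsPrincipalIdealRing.principal I).principal
  have hν' : ∀ a, a ∈ I ↔ ν ∣ a := by
    intro a
    rw [hν, Ideal.submodule_span_eq, Ideal.mem_span_singleton]
  refine ⟨ν, ?_, fun c => by rw [← hI, hν']⟩
  rintro rfl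
  have h1 : ((n : ℕ) : 𝓞 K) ∈ I := by
    rw [hI, sm_nat, h]
  rw [hν', zero_dvd_iff] at h1
  exact hn (by exact_mod_cast h1)

omit [DD] [HC] in
private theorem STDF_pow {c μ : 𝓞 K} (h1 : μ ∣ c - 1) (h2 : pi3 ∣ c - 1) (j : ℕ) :
    μ * pi3 ^ j ∣ c ^ 3 ^ j - 1 ∧ pi3 ∣ c ^ 3 ^ j - 1 := by
  induction j with
  | zero => simpa using ⟨h1, h2⟩
  | succ j ih =>
    obtain ⟨i1, i2⟩ := ih
    obtain ⟨x, hx⟩ : ∃ x : 𝓞 K, x = c ^ 3 ^ j := ⟨_, rfl⟩
    rw [← hx] at i1 i2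
    have e : c ^ 3 ^ (j + 1) - 1 = (x - 1) * (x ^ 2 + x + 1) := by
      rw [hx, pow_succ 3 j, pow_mul]
      ring
    have h3 : pi3 ∣ x ^ 2 + x + 1 := by
      have h4 : x ^ 2 + x + 1 = (x - 1) * (x + 2) + 3 := by ring
      rw [h4]
      exact dvd_add (i2.mul_right _) pi3_dvd_three
    rw [e]
    refine ⟨?_, i2.mul_right _⟩
    rw [pow_succ pi3 j, ← mul_assoc]
    exact mul_dvd_mul i1 h3

omit [HC] in
private theorem STDF_ga_pow {T : Pt L} (σ : Gal(L/K)) {c : 𝓞 K} (h : ga σ T = sm L c T) (m : ℕ) :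
    ga (σ ^ m) T = sm L (c ^ m) T := by
  induction m with
  | zero =>
    rw [pow_zero, pow_zero, ga_one, map_one]
    rfl
  | succ m ih => rw [pow_succ, ga_mul, h, ga_sm, ih, sm_sm, pow_succ, mul_comm]

omit [HC] in
/-- descent of a point -/
private theorem STDF_down (E' : IntermediateField K L) [DecidableEq E'] (P : Pt L)
    (hx : xc P ∈ E') (hy : yc P ∈ E') : ∃ P' : Pt E', pm E'.val P' = P := by
  rcases cases_pt P with rfl | ⟨x, y, h, rfl⟩
  · exact ⟨0, map_zero _⟩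
  · have h' : (⟨y, hy⟩ : E') ^ 2 = (⟨x, hx⟩ : E') ^ 3 + dD E' := by
      apply Subtype.ext
      have e : ((dD E' : E') : L) = dD L := map_intCast (algebraMap E' L) _
      rw [← e] at h
      exact h
    exact ⟨mkPt ⟨x, hx⟩ ⟨y, hy⟩ h', rfl⟩

end

section
variable (F₀ : Type) [Field F₀] [NumberField F₀] [Algebra K F₀]

omit [HC] in
theorem std_down {L1 : Type} [Field L1] [NumberField L1] [Algebra K L1] [Algebra F₀ L1]
    [IsScalarTower K F₀ L1] [DecidableEq L1] [IsGalois K L1] {μ : 𝓞 K} {k : ℕ} (hμ : μ ≠ 0)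
    (hp : pi3 ∣ μ) (hl : ¬ μ ∣ pi3) {R : Pt L1} (hR : Ord (μ * pi3 ^ k) R)
    (hgen : ∀ σ : Gal(L1/K), ga σ R = R → σ = 1) (h3 : ¬ 3 ∣ Module.finrank K F₀) :
    ∃ (H : Subgroup (CU μ)) (L' : Type) (_ : Field L') (_ : NumberField L') (_ : Algebra K L')
      (_ : Algebra F₀ L') (_ : IsScalarTower K F₀ L') (_ : DecidableEq L') (J : Pt L'),
      AB H F₀ L' J := by
  classical
  have hpi0 : pi3 ≠ 0 := prime_pi3.ne_zero
  have hν0 : μ * pi3 ^ k ≠ 0 := mul_ne_zero hμ (pow_ne_zero _ hpi0)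
  obtain ⟨T, hTdef⟩ : ∃ T, T = sm L1 (pi3 ^ k) R := ⟨_, rfl⟩
  have hTord : Ord μ T := by
    intro c
    rw [hTdef, sm_sm, hR]
    exact mul_dvd_mul_iff_right (pow_ne_zero _ hpi0)
  -- the Galois group is commutative
  have hcomm : ∀ σ τ : Gal(L1/K), σ * τ = τ * σ := by
    intro σ τ
    obtain ⟨c, -, hc⟩ := gal_sm (k := K) hν0 hR σ
    obtain ⟨d, -, hd⟩ := gal_sm (k := K) hν0 hR τ
    have h1 : ga (σ * τ) R = ga (τ * σ) R := by
      rw [ga_mul, ga_mul, hc, hd, ga_sm, ga_sm, hc, hd, sm_sm, sm_sm, mul_comm]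
    have h2 : ga ((τ * σ)⁻¹ * (σ * τ)) R = R := by
      rw [ga_mul, h1, ← ga_mul, inv_mul_cancel, ga_one]
    have h3 := hgen _ h2
    rw [inv_mul_eq_one] at h3
    exact h3.symm
  let H : Subgroup Gal(L1/K) :=
    { carrier := {σ | ga σ T = T}
      mul_mem' := fun {σ τ} hσ hτ => by
        change ga (σ * τ) T = T
        have hσ' : ga σ T = T := hσ
        have hτ' : ga τ T = T := hτ
        rw [ga_mul, hτ', hσ']
      one_mem' := ga_one T
      inv_mem' := fun {σ} hσ => by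
        change ga σ⁻¹ T = T
        have hσ' : ga σ T = T := hσ
        have h1 : ga σ⁻¹ (ga σ T) = T := by rw [← ga_mul, inv_mul_cancel, ga_one]
        rwa [hσ'] at h1 }
  have hH : ∀ σ, σ ∈ H ↔ ga σ T = T := fun σ => Iff.rfl
  have hnorm : H.Normal := ⟨fun σ hσ τ => by
    rw [hcomm τ σ, mul_inv_cancel_right]
    exact hσ⟩
  have hord3 : ∀ σ ∈ H, σ ^ 3 ^ k = 1 := by
    intro σ hσ
    rw [hH, hTdef, ga_sm] at hσ
    obtain ⟨c, -, hc⟩ := gal_sm (k := K) hν0 hR σ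
    rw [hc, sm_sm, hR.sm_eq_iff] at hσ
    have h1 : μ ∣ c - 1 := by
      have h2 : pi3 ^ k * μ ∣ pi3 ^ k * (c - 1) := by
        rw [mul_comm (pi3 ^ k) μ]
        refine hσ.trans (dvd_of_eq ?_)
        ring
      exact (mul_dvd_mul_iff_left (pow_ne_zero _ hpi0)).1 h2
    apply hgen
    rw [STDF_ga_pow σ hc]
    have h4 := (STDF_pow h1 (hp.trans h1) k).1
    have h6 := (hR.sm_eq_iff _ _).2 h4
    rw [h6, map_one]
    rfl
  -- `F₀` is fixed
  have hfd : FiniteDimensional K L1 := Module.Finite.of_restrictScalars_finite ℚ K L1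
  have hfd' : FiniteDimensional K F₀ := Module.Finite.of_restrictScalars_finite ℚ K F₀
  have hG0 : IsGalois K F₀ := by
    let f : F₀ →ₐ[K] L1 := IsScalarTower.toAlgHom K F₀ L1
    let e : F₀ ≃ₐ[K] f.fieldRange := AlgEquiv.ofInjectiveField f
    have hn : f.fieldRange.fixingSubgroup.Normal := ⟨fun σ hσ τ => by
      rw [hcomm τ σ, mul_inv_cancel_right]
      exact hσ⟩
    have h1 : IsGalois K (IntermediateField.fixedField f.fieldRange.fixingSubgroup) :=
      IsGalois.of_fixedField_normal_subgroup _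
    rw [IsGalois.fixedField_fixingSubgroup] at h1
    exact IsGalois.of_algEquiv e.symm
  have hfix : ∀ σ ∈ H, ∀ x : F₀, σ (algebraMap F₀ L1 x) = algebraMap F₀ L1 x := by
    intro σ hσ x
    have hj := hord3 σ hσ
    obtain ⟨τ, hτ⟩ : ∃ τ : Gal(F₀/K), τ = AlgEquiv.restrictNormalHom F₀ σ := ⟨_, rfl⟩
    have h1 : τ ^ 3 ^ k = 1 := by rw [hτ, ← map_pow, hj, map_one]
    have h2 : orderOf τ ∣ 3 ^ k := orderOf_dvd_of_pow_eq_one h1
    have h4 : orderOf τ ∣ Module.finrank K F₀ := by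
      rw [← IsGalois.card_aut_eq_finrank]
      exact orderOf_dvd_natCard τ
    obtain ⟨i, -, hi⟩ := (Nat.dvd_prime_pow Nat.prime_three).1 h2
    have hi0 : i = 0 := by
      by_contra hne
      apply h3
      refine Dvd.dvd.trans ?_ h4
      rw [hi]
      exact dvd_pow_self 3 hne
    rw [hi0, pow_zero, orderOf_eq_one_iff] at hi
    have h5 := AlgEquiv.restrictNormal_commutes σ F₀ x
    have h6 : σ.restrictNormal F₀ = 1 := by
      have h7 : AlgEquiv.restrictNormalHom F₀ σ = σ.restrictNormal F₀ := rfl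
      rw [← h7, ← hτ, hi]
    rw [h6, AlgEquiv.one_apply] at h5
    exact h5.symm
  let L' : IntermediateField K L1 := IntermediateField.fixedField H
  have hmem : ∀ x : F₀, algebraMap F₀ L1 x ∈ L' := fun x => by
    rw [IntermediateField.mem_fixedField_iff]
    exact fun σ hσ => hfix σ hσ x
  let aF : Algebra F₀ L' :=
    ((algebraMap F₀ L1).codRestrict L'.toSubalgebra.toSubring hmem).toAlgebra
  have t1 : IsScalarTower K F₀ L' := IsScalarTower.of_algebraMap_eq fun x => Subtype.ext (by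
    change algebraMap K L1 x = algebraMap F₀ L1 (algebraMap K F₀ x)
    exact IsScalarTower.algebraMap_apply K F₀ L1 x)
  have hgal : IsGalois K L' := IsGalois.of_fixedField_normal_subgroup H
  have hxy : ∀ σ ∈ H, σ (xc T) = xc T ∧ σ (yc T) = yc T := by
    intro σ hσ
    have hσ' := (hH σ).1 hσ
    have hx := congrArg xc hσ'
    have hy := congrArg yc hσ'
    rw [xc_ga] at hx
    rw [yc_ga] at hy
    exact ⟨hx, hy⟩
  let dL : DecidableEq L' := Classical.decEq _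
  obtain ⟨J, hJ⟩ := STDF_down L' T
    (by rw [IntermediateField.mem_fixedField_iff]; exact fun σ hσ => (hxy σ hσ).1)
    (by rw [IntermediateField.mem_fixedField_iff]; exact fun σ hσ => (hxy σ hσ).2)
  have hup : DX.up L1 J = T := hJ
  have hJord : Ord μ J := by
    rw [← Ord.map L'.val, hJ]
    exact hTord
  have hJgen : ∀ σ : Gal(L'/K), ga σ J = J → σ = 1 := by
    intro σ hσ
    obtain ⟨τ, hτ⟩ := AlgEquiv.restrictNormalHom_surjective (K₁ := L') L1 σ
    have h1 : DX.rs L' τ = σ := hτ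
    have h2 : ga τ (DX.up L1 J) = DX.up L1 (ga (DX.rs L' τ) J) := DX.ga_up τ J
    rw [h1, hσ, hup] at h2
    have h4 := (hH τ).2 h2
    apply AlgEquiv.ext
    intro z
    have h5 := DX.rs_apply (N := L') τ z
    rw [h1] at h5
    have h6 : τ (algebraMap L' L1 z) = algebraMap L' L1 z :=
      (IntermediateField.mem_fixedField_iff H _).1 z.2 τ h4
    rw [h6] at h5
    exact (algebraMap L' L1).injective h5
  have hone : ∀ Q : Pt L', Ord μ Q → sm L' (MP_1a91b9_ntT.DG.rp (1 : CU μ)) Q = Q := by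
    intro Q hQ
    have h1 := (hQ.sm_eq_iff _ _).2 (MP_1a91b9_ntT.DG.rp_one (μ := μ))
    rw [h1, map_one]
    rfl
  have hmul : ∀ (Q : Pt L') (u v : CU μ), Ord μ Q →
      sm L' (MP_1a91b9_ntT.DG.rp (u * v)) Q =
        sm L' (MP_1a91b9_ntT.DG.rp u) (sm L' (MP_1a91b9_ntT.DG.rp v) Q) := by
    intro Q u v hQ
    rw [sm_sm]
    exact (hQ.sm_eq_iff _ _).2 (MP_1a91b9_ntT.DG.rp_mul u v)
  let H' : Subgroup (CU μ) :=
    { carrier := {u | ∃ σ : Gal(L'/K), ga σ J = sm L' (MP_1a91b9_ntT.DG.rp u) J}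
      mul_mem' := fun {u v} hu hv => by
        obtain ⟨σ, hσ⟩ := hu
        obtain ⟨τ, hτ⟩ := hv
        refine ⟨τ * σ, ?_⟩
        rw [ga_mul, hσ, ga_sm, hτ, hmul J u v hJord]
      one_mem' := ⟨1, by rw [ga_one, hone J hJord]⟩
      inv_mem' := fun {u} hu => by
        obtain ⟨σ, hσ⟩ := hu
        refine ⟨σ⁻¹, ?_⟩
        have h1 : ga σ⁻¹ (ga σ J) = J := by rw [← ga_mul, inv_mul_cancel, ga_one]
        rw [hσ, ga_sm] at h1
        have h2 : Ord μ (ga σ⁻¹ J) := hJord.ga σ⁻¹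
        have h5 := hmul (ga σ⁻¹ J) u⁻¹ u h2
        rw [h1, inv_mul_cancel, hone _ h2] at h5
        exact h5 }
  refine ⟨H', L', inferInstance, inferInstance, inferInstance, aF, t1, dL, J, ?_⟩
  refine ⟨hgal, hμ, hJord, hl, hJgen, fun σ => ?_, fun u => u.2⟩
  obtain ⟨c, hc, hcJ⟩ := gal_sm (k := K) hμ hJord σ
  obtain ⟨u, hu⟩ := MP_1a91b9_ntT.DG.rp_ex hc
  have h1 : ga σ J = sm L' (MP_1a91b9_ntT.DG.rp u) J := by
    rw [hcJ]
    exact (hJord.sm_eq_iff _ _).2 hu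
  exact ⟨⟨u, σ, h1⟩, h1⟩

theorem exists_ab {L : Type} [Field L] [NumberField L] [Algebra K L] [Algebra F₀ L]
    [IsScalarTower K F₀ L] [DecidableEq L] {T₀ : Pt L} {n : ℕ} (hn : n ≠ 0) (hT : n • T₀ = 0)
    (hgen : IntermediateField.adjoin K {xc T₀, yc T₀} = ⊤) (h3 : ¬ 3 ∣ Module.finrank K F₀) :
    ∃ (μ μ' : 𝓞 K) (_ : Nu μ μ') (H : Subgroup (CU μ)) (L' : Type) (_ : Field L')
      (_ : NumberField L') (_ : Algebra K L') (_ : Algebra F₀ L') (_ : IsScalarTower K F₀ L')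
      (_ : DecidableEq L') (J : Pt L'), AB H F₀ L' J := by
  obtain ⟨m, hm0, hm⟩ := STDF_ann hn hT
  obtain ⟨μ, μ', k, hNu, hmk⟩ := exists_nu hm0
  have hν0 : μ * pi3 ^ k ≠ 0 := mul_ne_zero hNu.ne (pow_ne_zero _ prime_pi3.ne_zero)
  obtain ⟨L1, i1, i2, i3, i4, R, hG, hR, -, hg⟩ := exists_tf hν0
  obtain ⟨f⟩ := emb_tf hν0 hmk ((hm m).2 dvd_rfl) hgen hR
  let f0 : F₀ →+* L1 := (f : L →+* L1).comp (algebraMap F₀ L)
  letI a1 : Algebra F₀ L1 := f0.toAlgebra
  have t1 : IsScalarTower K F₀ L1 := IsScalarTower.of_algebraMap_eq fun x => by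
    change algebraMap K L1 x = f (algebraMap F₀ L (algebraMap K F₀ x))
    rw [← IsScalarTower.algebraMap_apply K F₀ L, f.commutes]
  obtain ⟨H, L', j1, j2, j3, j4, j5, j6, J, hJ⟩ :=
    std_down F₀ (L1 := L1) hNu.ne ⟨μ', hNu.eq⟩ hNu.nlam hR hg h3
  exact ⟨μ, μ', hNu, H, L', j1, j2, j3, j4, j5, j6, J, hJ⟩

end

end

end Pool.Agent.Lib.MP_1a91b9_ntX.DG
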