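import Pool.Agent.Lib.MP_1a91b9_ntX.DG.Vt
import Pool.Agent.Lib.MP_1a91b9_ntX.DG.DtD
import Pool.Agent.Lib.MP_1a91b9_ntX.DG.DNe
import Pool.Agent.Lib.MP_1a91b9_ntX.DG.StdF

/-!
# The base field of THEOREM G2

JOB BASE. PROOF (complete; helper30).
`AB.large`: bounds: `B1` from `dt_large F` (DtD.lean); `B2 = Ideal.absNorm (span {μ})` (`≠ 0`); `B3 = Nat.card (U H)` (`≠ 0`: `U H` is finite); `B4`: `d = dL F L' J' ≠ 0` (`AB.dL_ne`): the set of the places `v` of `F` with `v.valuation F d ≠ 1` is finite (`od_finite` / `val_eq_one_iff`), and for each such `v` there is one prime number in it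
(`B4` = the maximum or sum over the finite set of `Ideal.absNorm v.asIdeal`: if `ℓ ∈ v` then `ℓ ∣ absNorm v`, so `ℓ ≤ absNorm v`; `Ideal.absNorm v.asIdeal ≠ 0`). Let `ℓ > B1 + B2 + B3 + B4`, `PD ϖ ℓ q`. `IsCoprime (ℓ : 𝓞 K) μ`: `ℓ` is prime and does not divide `B2`, and `μ ∣ B2` in `𝓞 K` (`Ideal.absNorm_mem`), see `cop_of_nAb` in MP_1a91b9_ntT/DG/Base.lean.
`¬ ϖ ∣ μ`: see `vt_all` (ibid.; `ϖ ∣ ℓ`). `¬ ℓ ∣ Nat.card (U H)`: `ℓ > B3 > 0`. `unrF hAB h.hl h.five h.good` (Unr.lean). `DT ϖ F` by `dt_large`. `vtG hAB h ..` (Vt.lean): a place `v` of `F` with `v ϖ < 1` has `v ℓ < 1` (as in `vt_all`), so `ℓ ∈ v`, and `v d = 1` because `ℓ > B4`.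
`base_all`: `exists_ab` (StdF.lean; `3 ∤ finrank` from `h6`) and `AB.large`.
-/

set_option autoImplicit false

namespace Pool.Agent.Lib.MP_1a91b9_ntX.DG

open NumberField IsDedekindDomain WeierstrassCurve Pool.Agent.Lib.MP_1a91b9_ntT
open Pool.Agent.Lib.MP_1a91b9_ntX.DB

noncomputable section

private theorem base_fin {μ : 𝓞 K} {H : Subgroup (CU μ)} (hμ : μ ≠ 0) : Finite (U H) := by
  have h1 : Finite (𝓞 K ⧸ Ideal.span {μ}) := by
    refine Ideal.finiteQuotientOfFreeOfNeBot _ ?_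
    rw [Ne, Ideal.span_singleton_eq_bot]
    exact hμ
  infer_instance

private theorem base_cop {μ : 𝓞 K} {ℓ : ℕ} (hℓ : ℓ.Prime) (hμ : ¬ ℓ ∣ TG.nAb μ) :
    IsCoprime (ℓ : 𝓞 K) μ := by
  have h1 : IsCoprime (ℓ : ℤ) (TG.nAb μ : ℤ) := by
    rw [Nat.isCoprime_iff_coprime]
    exact (Nat.Prime.coprime_iff_not_dvd hℓ).2 hμ
  have h2 := h1.map (Int.castRingHom (𝓞 K))
  rw [map_natCast, map_natCast] at h2
  exact IsCoprime.of_isCoprime_of_dvd_right h2 (TG.dvd_nAb μ)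

private theorem base_dvd {F : Type} [Field F] [NumberField F] (v : HeightOneSpectrum (𝓞 F))
    {ℓ : ℕ} (hℓ : ℓ.Prime) (hv : (ℓ : 𝓞 F) ∈ v.asIdeal) : ℓ ∣ Ideal.absNorm v.asIdeal := by
  by_contra hnd
  have h1 : IsCoprime (ℓ : ℤ) (Ideal.absNorm v.asIdeal : ℤ) := by
    rw [Nat.isCoprime_iff_coprime]
    exact (Nat.Prime.coprime_iff_not_dvd hℓ).2 hnd
  obtain ⟨a, b, hab⟩ := h1.map (Int.castRingHom (𝓞 F))
  rw [map_natCast, map_natCast] at hab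
  apply v.isPrime.ne_top
  rw [Ideal.eq_top_iff_one, ← hab]
  exact v.asIdeal.add_mem (v.asIdeal.mul_mem_left _ hv)
    (v.asIdeal.mul_mem_left _ (Ideal.absNorm_mem v.asIdeal))

variable [DD] [HC]

section
variable {μ : 𝓞 K} {H : Subgroup (CU μ)} {F L' : Type} [Field F] [NumberField F] [Algebra K F]
  [Field L'] [NumberField L'] [Algebra K L'] [Algebra F L'] [IsScalarTower K F L']
  [DecidableEq L'] {J' : Pt L'} (hAB : AB H F L' J')
include hAB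

theorem AB.large {μ' : 𝓞 K} (hN : Nu μ μ') (h6 : Nat.Coprime (Module.finrank K F) 6)
    (hL : AN.LGood F) : ∃ B : ℕ, ∀ (ϖ : 𝓞 K) (ℓ q : ℕ), PD ϖ ℓ q → B < ℓ →
      VT ϖ ℓ F ∧ DT ϖ F := by
  classical
  obtain ⟨B1, hB1⟩ := dt_large F
  have hd := hAB.dL_ne hN h6 hL
  have hfin : {w : HeightOneSpectrum (𝓞 F) | od w (dL F L' J') ≠ 0}.Finite := od_finite hd
  have hfU : Finite (U H) := base_fin hAB.ne
  refine ⟨B1 + TG.nAb μ + Nat.card (U H) +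
    ∑ w ∈ hfin.toFinset, Ideal.absNorm w.asIdeal, ?_⟩
  intro ϖ ℓ q h hB
  have hℓ := h.hl
  have hcpos : 0 < Nat.card (U H) := Nat.card_pos
  have hcu : ¬ ℓ ∣ Nat.card (U H) := fun hdv =>
    absurd (Nat.le_of_dvd hcpos hdv) (by omega)
  have hnA : ¬ ℓ ∣ TG.nAb μ := fun hdv =>
    absurd (Nat.le_of_dvd (Nat.pos_of_ne_zero (TG.nAb_ne hAB.ne)) hdv) (by omega)
  have hco := base_cop hℓ hnA
  have hunr := unrF hAB hℓ h.five h.good hco
  have hn : ¬ ϖ ∣ μ := by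
    intro hdv
    obtain ⟨a, b, hab⟩ := hco
    refine h.prime.not_isUnit (isUnit_of_dvd_one ?_)
    rw [← hab]
    exact dvd_add (Dvd.dvd.mul_left h.dvd a) (Dvd.dvd.mul_left hdv b)
  have hdt : DT ϖ F := hB1 ϖ ℓ q h (by omega)
  refine ⟨vtG hAB h hn hcu hunr hdt fun v hv => ?_, hdt⟩
  by_contra hne
  have hmem : v ∈ hfin.toFinset := by
    rw [Set.Finite.mem_toFinset]
    intro h0
    exact hne ((val_eq_one_iff v hd).2 h0)
  have hvl : v.valuation F (algebraMap (𝓞 F) F ((ℓ : ℕ) : 𝓞 F)) < 1 := by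
    obtain ⟨c, hc⟩ := h.dvd
    have e : algebraMap (𝓞 F) F ((ℓ : ℕ) : 𝓞 F) =
        algebraMap K F (ϖ : K) * algebraMap K F (c : K) := by
      rw [← map_mul]
      have e1 : ((ϖ * c : 𝓞 K) : K) = (ϖ : K) * (c : K) := map_mul _ _ _
      rw [← e1, ← hc]
      have e2 : (((ℓ : ℕ) : 𝓞 K) : K) = (ℓ : K) := map_natCast _ _
      rw [e2, map_natCast, map_natCast]
    rw [e, map_mul]
    exact mul_lt_one_of_lt_of_le hv (v_alg_le (v.valuation F) c)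
  have hlv : ((ℓ : ℕ) : 𝓞 F) ∈ v.asIdeal := (v.valuation_lt_one_iff_mem _).1 hvl
  have hdv := base_dvd v hℓ hlv
  have hpos : 0 < Ideal.absNorm v.asIdeal := by
    rw [Nat.pos_iff_ne_zero, Ne, Ideal.absNorm_eq_zero_iff]
    exact v.ne_bot
  have h1 := Nat.le_of_dvd hpos hdv
  have h2 := Finset.single_le_sum
    (f := fun w : HeightOneSpectrum (𝓞 F) => Ideal.absNorm w.asIdeal)
    (fun w _ => Nat.zero_le _) hmem
  have h3 : Ideal.absNorm v.asIdeal ≤ ∑ w ∈ hfin.toFinset, Ideal.absNorm w.asIdeal := h2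
  omega

end

/-- **The base field of THEOREM G2.** -/
theorem base_all {F₀ L : Type} [Field F₀] [NumberField F₀] [Algebra K F₀] [Field L]
    [NumberField L] [Algebra K L] [Algebra F₀ L] [IsScalarTower K F₀ L] [DecidableEq L]
    {T₀ : Pt L} {n : ℕ} (hn : n ≠ 0) (hT : n • T₀ = 0)
    (hgen : IntermediateField.adjoin K {xc T₀, yc T₀} = ⊤)
    (h6 : Nat.Coprime (Module.finrank K F₀) 6) (hL : AN.LGood F₀) :
    ∃ B : ℕ, ∀ (ϖ : 𝓞 K) (ℓ q : ℕ), PD ϖ ℓ q → B < ℓ → VT ϖ ℓ F₀ ∧ DT ϖ F₀ := by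
  have h3 : ¬ 3 ∣ Module.finrank K F₀ := by
    intro h3
    have h4 := Nat.dvd_gcd h3 (show 3 ∣ 6 by norm_num)
    rw [show Nat.gcd (Module.finrank K F₀) 6 = 1 from h6] at h4
    exact absurd (Nat.dvd_one.1 h4) (by norm_num)
  obtain ⟨μ, μ', hN, H, L', i1, i2, i3, i4, i5, i6, J, hAB⟩ := exists_ab F₀ hn hT hgen h3
  exact hAB.large hN h6 hL

end

end Pool.Agent.Lib.MP_1a91b9_ntX.DG
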