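import Pool.Agent.Lib.MP_1a91b9_ntX.DG.Defs
import Pool.Agent.Lib.MP_1a91b9_ntX.DB.DistX

/-!
# The distribution relation for the abscissa

JOB DST. PROOF (complete; helper30). Let `T0 = mkPt 0 s _ : Pt ℂ` with `s^2 = D` (`IsAlgClosed.exists_pow_nat_eq`), `s ≠ 0`: `omH T0 = T0`, so
`sm c T0 = (m + n) • T0` for `c = m + n om`; `3 • T0 = 0` and `T0 ≠ 0`, `2 • T0 ≠ 0` (`-T0 = (0, -s) ≠ T0`). Compute `sm pi3 T0 = T0 - omH T0 = 0` (`sm_om`). Since `β` is
coprime to `pi3` and `pi3` has norm `3`: `β = 1` or `-1` modulo `pi3` (from `S3.exists_coords`: `β = m + n om = m + n` modulo `pi3`, `m + n` is not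
divisible by `3` because `pi3 ∣ 3`, so `m + n = ±1` modulo `3`, `pi3 ∣ β ∓ 1`), so `sm β T0 = T0` or `-T0`; in both cases `xc (sm β T0) = 0` and `2 • sm β T0 ≠ 0`.
Apply `distx` (DB/DistX.lean) over `ℂ` (with `AlgHom.id`) to the points `Rb = pm f R` (`Ord.map`), `P = pm f P`, `R = T0`: `hP`, `hne` from `hP`, `hx` (`xc_pm`, `pm_sm`,
injectivity of `f`). All the factors `xc T0`, `xc (sm β T0)` are `0`. Pull back to `F` by the injectivity of `f` (`xc_pm`, `pm_sm`, `map_add`, `map_prod`;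
`f (algebraMap K F β) = embK β`: `f.commutes`).
-/

set_option autoImplicit false

namespace Pool.Agent.Lib.MP_1a91b9_ntX.DG

open NumberField IsDedekindDomain WeierstrassCurve Pool.Agent.Lib.MP_1a91b9_ntT
open Pool.Agent.Lib.MP_1a91b9_ntX.DB

noncomputable section

variable [DD]

theorem dist0 {F : Type*} [Field F] [Algebra K F] [DecidableEq F] (f : F →ₐ[K] ℂ) {β : 𝓞 K}
    (hβ0 : β ≠ 0) (hβ3 : IsCoprime β pi3) {T : Finset (𝓞 K)} (hT : IsRes β T) {R : Pt F}
    (hR : Ord β R) {P : Pt F} (hP : sm F β P ≠ 0) (hx : xc (sm F β P) ≠ 0) :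
    xc P * ∏ a ∈ T, xc (P + sm F a R) =
      algebraMap K F (β : K) ^ 2 * (∏ a ∈ T, xc (sm F a R)) * xc (sm F β P) := by
  classical
  obtain ⟨s, hs⟩ := IsAlgClosed.exists_pow_nat_eq (dD ℂ) (n := 2) (by norm_num)
  have hs0 : s ≠ 0 := by
    intro h
    rw [h] at hs
    exact dD_ne (F := ℂ) (by rw [← hs]; norm_num)
  have hT0e : s ^ 2 = 0 ^ 3 + dD ℂ := by
    rw [hs]
    ring
  let T0 : Pt ℂ := mkPt 0 s hT0e
  have hx0 : xc T0 = 0 := rfl
  have h00 : T0 ≠ 0 := mk_ne_zero _ _ _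
  have hom : omH ℂ T0 = T0 := by
    have h1 : omH ℂ T0 ≠ 0 := by
      intro h2
      have h3 := congrArg yc h2
      rw [yc_omH, yc_zero] at h3
      exact hs0 h3
    refine pt_ext h1 h00 ?_ ?_
    · rw [xc_omH, hx0, mul_zero]
    · rw [yc_omH]
  have hpi : sm ℂ pi3 T0 = 0 := by
    have h1 : (pi3 : 𝓞 K) = 1 - S3.omO := rfl
    rw [h1, map_sub, map_one]
    change T0 - sm ℂ S3.omO T0 = 0
    rw [sm_om, hom, sub_self]
  have h3 : (3 : ℕ) • T0 = 0 := by
    rw [← sm_nat]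
    obtain ⟨c, hc⟩ := pi3_dvd_three
    have h1 : ((3 : ℕ) : 𝓞 K) = c * pi3 := by
      rw [mul_comm, ← hc]
      norm_num
    rw [h1, ← sm_sm, hpi, map_zero]
  have h3' : (3 : ℤ) • T0 = 0 := by
    have h1 : (3 : ℤ) • T0 = (3 : ℕ) • T0 := natCast_zsmul T0 3
    rw [h1, h3]
  have h2 : T0 + T0 ≠ 0 := by
    intro h1
    have h4 : T0 = -T0 := eq_neg_of_add_eq_zero_left h1
    have h5 := congrArg yc h4
    change s = yc (-mkPt 0 s hT0e) at h5
    rw [neg_mk, yc_mk] at h5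
    apply hs0
    have h6 : (2 : ℂ) * s = 0 := by linear_combination h5
    exact (mul_eq_zero.1 h6).resolve_left two_ne
  have hne0 : sm ℂ β T0 ≠ 0 := by
    intro h1
    obtain ⟨a, b, hab⟩ := hβ3
    have h4 : sm ℂ (a * β + b * pi3) T0 = T0 := by
      rw [hab, map_one]
      rfl
    rw [map_add] at h4
    have h5 : sm ℂ (a * β) T0 + sm ℂ (b * pi3) T0 = T0 := h4
    rw [← sm_sm, ← sm_sm, h1, hpi, map_zero, map_zero, add_zero] at h5
    exact h00 h5.symm
  have hpm : sm ℂ β T0 = T0 ∨ sm ℂ β T0 = -T0 := by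
    obtain ⟨m, n, hmn⟩ := S3.exists_coords β
    have h1 : sm ℂ β T0 = (m + n) • T0 := by
      rw [omb_apply β m n hmn, hom, add_zsmul]
    have h4 : (m + n) • T0 = ((m + n) % 3) • T0 := by
      have h5 := Int.mul_ediv_add_emod (m + n) 3
      have h6 : (m + n) • T0 = (3 * ((m + n) / 3) + (m + n) % 3) • T0 := by rw [h5]
      rw [h6, add_zsmul, mul_comm, mul_zsmul, h3', zsmul_zero, zero_add]
    have h5 : (m + n) % 3 = 0 ∨ (m + n) % 3 = 1 ∨ (m + n) % 3 = 2 := by omega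
    rw [h1]
    rcases h5 with h5 | h5 | h5
    · exfalso
      rw [h5, zero_zsmul] at h4
      exact hne0 (h1.trans h4)
    · left
      rw [h4, h5, one_zsmul]
    · right
      rw [h4, h5]
      have h6 : (2 : ℤ) • T0 + T0 = 0 := by
        have h7 : (3 : ℤ) • T0 = (2 : ℤ) • T0 + (1 : ℤ) • T0 := by
          rw [← add_zsmul]
          norm_num
        rw [h3', one_zsmul] at h7
        exact h7.symm
      exact eq_neg_of_add_eq_zero_left h6
  have hxβ : xc (sm ℂ β T0) = 0 := by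
    rcases hpm with h | h
    · rw [h]
      exact hx0
    · rw [h]
      change xc (-mkPt 0 s hT0e) = 0
      rw [neg_mk, xc_mk]
  have h2β : 2 • sm ℂ β T0 ≠ 0 := by
    rw [two_nsmul]
    rcases hpm with h | h
    · rw [h]
      exact h2
    · rw [h, ← neg_add, Ne, neg_eq_zero]
      exact h2
  have hP' : sm ℂ β (pm f P) ≠ 0 := by
    rw [← pm_sm]
    intro h0
    rw [← map_zero (pm f)] at h0
    exact hP (pm_inj f h0)
  have hne : xc (sm ℂ β (pm f P)) ≠ xc (sm ℂ β T0) := by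
    rw [hxβ, ← pm_sm, xc_pm]
    intro h
    exact hx ((map_eq_zero_iff f f.toRingHom.injective).1 h)
  have key := distx (AlgHom.id K ℂ) hβ0 hT ((Ord.map f).2 hR) hP' h2β hne
  rw [hxβ, hx0] at key
  simp only [sub_zero] at key
  apply f.toRingHom.injective
  change f _ = f _
  rw [map_mul, map_mul, map_mul, map_pow, AlgHom.commutes, map_prod, map_prod, ← xc_pm, ← xc_pm,
    pm_sm]
  have e1 : ∀ a : 𝓞 K, f (xc (sm F a R)) = xc (sm ℂ a (pm f R)) := by
    intro a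
    rw [← xc_pm, pm_sm]
  have e2 : ∀ a : 𝓞 K, f (xc (P + sm F a R)) = xc (pm f P + sm ℂ a (pm f R)) := by
    intro a
    rw [← xc_pm, map_add, pm_sm]
  rw [Finset.prod_congr rfl fun a _ => e1 a, Finset.prod_congr rfl fun a _ => e2 a]
  exact key

end

end Pool.Agent.Lib.MP_1a91b9_ntX.DG
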