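import Pool.Agent.Lib.MP_1a91b9_ntX.DG.XE

/-!
# Separation of the abscissae of torsion points (the curve `y² + y = x³`)

JOB DTA. PROOF (complete; helper30). `E : y^2 + y = x^3` is the OLD curve (MP_1a91b9_ntT/DB). `b` is prime to `2` and to `pi3`, `v b = 1`. If `X` is in the kernel and killed by `b`
then `X = 0` (`ker_sm_tors`, DB/FrobG.lean). (N) `A` killed by `b`, `A ≠ 0` is not in the kernel; `v x ≤ 1`, `v y ≤ 1` (`not_ker`).
(1) `sep_one`: `v (xc A) = 1`. Suppose `v x < 1`. Let `T0 = (0, 0)`, `sm pi3 T0 = 0` (see XE.lean).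
 Case `v 3 = 1`: then `v pi3 = 1` (`pi3 ∣ 3`, values `≤ 1`). `v y < 1` or `v (y + 1) < 1`, `red_inj` gives `Ker v (A - T0)` or `Ker v (A + T0)`; these points are killed by `pi3 * b` of value
 `1`, so `A = ± T0`, `sm pi3 A = 0`, with `sm b A = 0`: `A = 0`, contradiction.
 Case `v 3 < 1`: as in XE.lean (`x ≠ 0`: else `A = ± T0`), `A - omH A = sm pi3 A` is in the kernel, killed by `b`: it is `0`, so `A = 0`, contradiction.
(2) `sep_y`: `v 3 ≤ v (2 y + 1)`: `Y = 2 y + 1`. `Y ≠ 0` (if `Y = 0` then `2 • A = 0` (`-A = (x, -1 - y) = A`), with `b` coprime to `2`: `A = 0`). By `mk_dbl`-type formula (DB/Defs.lean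
 or `mk_add`): `x(2 A) = (3 x^2 / Y)^2 - 2 x`. If `v Y < v 3` then `v (3 x^2 / Y) > 1` (`v x = 1`), so `v (x(2A)) > 1` and `2 • A` is in the kernel, killed by `b`: `2 • A = 0`, `A = 0`.
(3) `sep_x`: `x1 ≠ x2` (else `B = ± A`). `x(A + B) = m^2 - x1 - x2`, `m = (y1 - y2)/(x1 - x2)`, `x(A - B) = m'^2 - x1 - x2`, `m' = (y1 + y2 + 1)/(x1 - x2)` (`mk_add`, `neg_mk`), so
 `(x1 - x2)^2 (x(A - B) - x(A + B)) = (2 y1 + 1)(2 y2 + 1)`. `A + B`, `A - B` are not zero and killed by `b`, so their abscissae have values `≤ 1`, hence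
 `v (x1 - x2)^2 ≥ v (2 y1 + 1) v (2 y2 + 1) ≥ v 3 ^2`, and `v (x1 - x2) ≥ v 3` (`pow_le_pow_left_iff`/`lt_of_pow_lt_pow_left`).
-/

set_option autoImplicit false

namespace Pool.Agent.Lib.MP_1a91b9_ntT.DB

open NumberField IsDedekindDomain WeierstrassCurve

section
variable {F : Type*} [Field F] [Algebra K F] [DecidableEq F]

private theorem dta_cop {a b : 𝓞 K} (h : IsCoprime a b) {P : Pt F} (h1 : sm F a P = 0)
    (h2 : sm F b P = 0) : P = 0 := by
  obtain ⟨x, y, hxy⟩ := h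
  have h3 : sm F (x * a + y * b) P = P := by
    rw [hxy, map_one]
    rfl
  rw [map_add, map_mul, map_mul] at h3
  change sm F x (sm F a P) + sm F y (sm F b P) = P at h3
  rw [← h3, h1, h2, map_zero, map_zero, add_zero]

private theorem dta_comm (a b : 𝓞 K) (X : Pt F) : sm F a (sm F b X) = sm F b (sm F a X) := by
  have h1 : sm F (a * b) X = sm F (b * a) X := by rw [mul_comm]
  rw [map_mul, map_mul] at h1
  exact h1

private theorem dta_coe (a b : 𝓞 K) : ((a * b : 𝓞 K) : K) = (a : K) * (b : K) :=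
  map_mul (algebraMap (𝓞 K) K) a b

private theorem dta_pi3 (P : Pt F) : sm F TG.pi3 P = P - omH F P := by
  rw [TG.pi3, map_sub, map_one]
  change P - sm F S3.omO P = _
  rw [sm_om]

private theorem dta_Z : sm F TG.pi3 (ptZ F) = 0 := by
  have h1 : omH F (ptZ F) = ptZ F := by
    refine pt_ext ?_ (mk_ne_zero _ _ _) ?_ ?_
    · exact mk_ne_zero (omF F * 0) 0 (by ring)
    · rw [xc_omH]
      show omF F * 0 = 0
      rw [mul_zero]
    · rw [yc_omH]
  rw [dta_pi3, h1, sub_self]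

private theorem dta_sub {P : Pt F} (hP : P ≠ 0) (hx : xc P ≠ 0) :
    P - omH F P ≠ 0 ∧ xc (P - omH F P) * (3 * xc P ^ 2) = -(omF F ^ 2 * (xc P ^ 3 + 1)) := by
  obtain ⟨x, y, h, rfl⟩ := (cases_pt P).resolve_left hP
  rw [xc_mk] at hx
  have hh : y ^ 2 + y = (omF F * x) ^ 3 := by linear_combination h - x ^ 3 * omF_cube F
  have e1 : omH F (mkPt x y h) = mkPt (omF F * x) y hh := rfl
  have hne : x ≠ omF F * x := by
    intro e
    have h0 : (1 - omF F) * x = 0 := by linear_combination e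
    rcases mul_eq_zero.mp h0 with h1 | h1
    · exact omF_ne_one F (by linear_combination -h1)
    · exact hx h1
  rw [e1, sub_eq_add_neg, neg_mk]
  obtain ⟨h', e2⟩ := mk_add x y (omF F * x) (-y - 1) h (by linear_combination hh) hne
  rw [e2, xc_mk, xc_mk]
  refine ⟨mk_ne_zero _ _ _, ?_⟩
  have hD : x - omF F * x ≠ 0 := sub_ne_zero.mpr hne
  obtain ⟨A, hA⟩ : ∃ A : F, A = ((y - (-y - 1)) / (x - omF F * x)) ^ 2 - x - omF F * x := ⟨_, rfl⟩
  rw [← hA]
  have hAD : A * (x - omF F * x) ^ 2 =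
      (2 * y + 1) ^ 2 - (x + omF F * x) * (x - omF F * x) ^ 2 := by
    rw [hA]
    generalize x - omF F * x = D at hD
    field_simp
    ring
  have hD2 : (x - omF F * x) ^ 2 = -3 * omF F * x ^ 2 := by
    linear_combination x ^ 2 * omF_quad F
  rw [hD2] at hAD
  have hy : (2 * y + 1) ^ 2 = 4 * x ^ 3 + 1 := by linear_combination 4 * h
  linear_combination (-omF F ^ 2) * hAD - omF F ^ 2 * hy - 3 * A * x ^ 2 * omF_cube F -
    3 * x ^ 3 * omF F ^ 2 * omF_quad F

variable {Γ : Type*} [LinearOrderedCommGroupWithZero Γ] (v : Valuation F Γ)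

private theorem dta_nk {b : 𝓞 K} (hb : v (algebraMap K F (b : K)) = 1) {X : Pt F}
    (hX : sm F b X = 0) (hX0 : X ≠ 0) : ¬ Ker v X := fun hk => hX0 (ker_sm_tors v hk hb hX)

private theorem dta_T {b : 𝓞 K} (hb : v (algebraMap K F (b : K)) = 1) (h3 : IsCoprime b TG.pi3)
    (h31 : v (3 : F) = 1) {A T : Pt F} (hA : sm F b A = 0) (hA0 : A ≠ 0)
    (hT : sm F TG.pi3 T = 0) (hTk : ¬ Ker v T) (hx : v (xc A - xc T) < 1)
    (hy : v (yc A - yc T) < 1) : False := by
  have hk := red_inj v h31 (dta_nk v hb hA hA0) hTk hx hy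
  have hpi : v (algebraMap K F (TG.pi3 : K)) = 1 := by
    refine le_antisymm (v_alg_le v _) ?_
    by_contra hc
    rw [not_le] at hc
    obtain ⟨c, hc3⟩ := TG.pi3_dvd_three
    have h5 : (3 : F) = algebraMap K F (TG.pi3 : K) * algebraMap K F (c : K) := by
      have e1 : ((3 : 𝓞 K) : K) = 3 := map_ofNat (algebraMap (𝓞 K) K) 3
      rw [← map_mul, ← dta_coe, ← hc3, e1, map_ofNat]
    rw [h5, map_mul] at h31
    have h6 : v (algebraMap K F (TG.pi3 : K)) * v (algebraMap K F (c : K)) < 1 :=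
      lt_of_le_of_lt (mul_le_of_le_one_right zero_le (v_alg_le v c)) hc
    rw [h31] at h6
    exact lt_irrefl _ h6
  have hpb : v (algebraMap K F ((TG.pi3 * b : 𝓞 K) : K)) = 1 := by
    rw [dta_coe, map_mul, map_mul, hpi, hb, one_mul]
  have h7 : sm F (TG.pi3 * b) (A - T) = 0 := by
    rw [map_mul]
    change sm F TG.pi3 (sm F b (A - T)) = 0
    rw [map_sub, hA, map_sub, map_zero, dta_comm, hT, map_zero, sub_zero]
  have h8 := ker_sm_tors v hk hpb h7
  have h9 : A = T := sub_eq_zero.1 h8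
  apply hA0
  refine dta_cop h3 hA ?_
  rw [h9]
  exact hT

private theorem dta_x0 {b : 𝓞 K} (h3 : IsCoprime b TG.pi3) {A : Pt F} (hA : sm F b A = 0)
    (hA0 : A ≠ 0) : xc A ≠ 0 := by
  intro hx
  obtain ⟨h, -⟩ := exists_mk hA0
  have h1 : yc A * (yc A + 1) = 0 := by
    rw [hx] at h
    linear_combination h
  apply hA0
  refine dta_cop h3 hA ?_
  rcases mul_eq_zero.1 h1 with h2 | h2
  · have h4 : A = ptZ F := pt_ext hA0 (mk_ne_zero _ _ _) hx h2
    rw [h4]
    exact dta_Z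
  · have h4 : A = -ptZ F := by
      rw [ptZ, neg_mk]
      refine pt_ext hA0 (mk_ne_zero _ _ _) hx ?_
      rw [yc_mk]
      linear_combination h2
    rw [h4, map_neg, dta_Z, neg_zero]

private theorem dta_one {b : 𝓞 K} (hb : v (algebraMap K F (b : K)) = 1)
    (h3 : IsCoprime b TG.pi3) {A : Pt F} (hA : sm F b A = 0) (hA0 : A ≠ 0) : v (xc A) = 1 := by
  have hnk := dta_nk v hb hA hA0
  obtain ⟨-, hvx, hvy⟩ := not_ker v hnk
  by_contra hne
  have hlt : v (xc A) < 1 := lt_of_le_of_ne hvx hne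
  have hx3 : v (xc A ^ 3) < 1 := by
    rw [map_pow]
    exact pow_lt_one₀ zero_le hlt (by norm_num)
  have h3le : v (3 : F) ≤ 1 := by
    have := v_int_le v 3
    push_cast at this
    exact this
  rcases h3le.lt_or_eq with h31 | h31
  · obtain ⟨hs0, hs⟩ := dta_sub hA0 (dta_x0 h3 hA hA0)
    have h4 := congrArg v hs
    have h5 : v (xc A ^ 3 + 1) = 1 := by
      rw [Valuation.map_add_eq_of_lt_right v (by rw [map_one]; exact hx3), map_one]
    rw [Valuation.map_neg, map_mul v (omF F ^ 2), map_pow v (omF F), v_om, one_pow, one_mul, h5,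
      map_mul v (xc _)] at h4
    have h6 : v (3 * xc A ^ 2) < 1 := by
      rw [map_mul, map_pow]
      exact lt_of_le_of_lt (mul_le_of_le_one_right zero_le (pow_le_one₀ zero_le hvx)) h31
    have h7 : 1 < v (xc (A - omH F A)) := by
      by_contra hc
      rw [not_lt] at hc
      have h8 := lt_of_le_of_lt (mul_le_of_le_one_left zero_le hc) h6
      rw [h4] at h8
      exact lt_irrefl _ h8
    have hk : Ker v (A - omH F A) := Or.inr h7
    apply hs0
    refine ker_sm_tors v hk hb ?_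
    rw [← dta_pi3, dta_comm, hA, map_zero]
  · obtain ⟨h, -⟩ := exists_mk hA0
    have h1 : v (yc A) * v (yc A + 1) < 1 := by
      rw [← map_mul]
      have : yc A * (yc A + 1) = xc A ^ 3 := by linear_combination h
      rw [this]
      exact hx3
    have hZk : ¬ Ker v (ptZ F) := by
      rintro (h0 | h0)
      · exact mk_ne_zero _ _ _ h0
      · rw [ptZ, xc_mk, map_zero] at h0
        exact absurd h0 (not_lt.2 zero_le_one)
    by_cases hy : v (yc A) < 1
    · refine dta_T v hb h3 h31 hA hA0 dta_Z hZk ?_ ?_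
      · rw [ptZ, xc_mk, sub_zero]
        exact hlt
      · rw [ptZ, yc_mk, sub_zero]
        exact hy
    · have hy1 : v (yc A + 1) < 1 := by
        by_contra hc
        rw [not_lt] at hc hy
        exact absurd h1 (not_lt.2 (one_le_mul hy hc))
      refine dta_T v hb h3 h31 (T := -ptZ F) hA hA0 ?_ ?_ ?_ ?_
      · rw [map_neg, dta_Z, neg_zero]
      · intro hk
        have := ker_neg v hk
        rw [neg_neg] at this
        exact hZk this
      · rw [ptZ, neg_mk, xc_mk, sub_zero]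
        exact hlt
      · rw [ptZ, neg_mk, yc_mk]
        have : yc A - (-0 - 1) = yc A + 1 := by ring
        rw [this]
        exact hy1

private theorem dta_y {b : 𝓞 K} (hb : v (algebraMap K F (b : K)) = 1) (h2 : IsCoprime b 2)
    (h3 : IsCoprime b TG.pi3) {A : Pt F} (hA : sm F b A = 0) (hA0 : A ≠ 0) :
    v (3 : F) ≤ v (2 * yc A + 1) := by
  have hx1 := dta_one v hb h3 hA hA0
  obtain ⟨x, y, h, rfl⟩ := (cases_pt A).resolve_left hA0
  rw [xc_mk] at hx1
  rw [yc_mk]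
  have hY : 2 * y + 1 ≠ 0 := by
    intro hY
    apply hA0
    refine dta_cop h2 hA ?_
    have e1 : sm F (2 : 𝓞 K) (mkPt x y h) = 2 • mkPt x y h := by
      have := sm_nat (F := F) 2 (mkPt x y h)
      push_cast at this
      exact this
    rw [e1, two_nsmul]
    exact mk_add_neg h h (by linear_combination hY)
  by_contra hc
  rw [not_le] at hc
  obtain ⟨h', e⟩ := mk_dbl x y h hY
  have hv0 : v (2 * y + 1) ≠ 0 := (Valuation.ne_zero_iff v).2 hY
  have hm : 1 < v (3 * x ^ 2 / (2 * y + 1)) := by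
    rw [map_div₀, map_mul, map_pow, hx1, one_pow, mul_one]
    exact (one_lt_div₀ (zero_lt_iff.2 hv0)).2 hc
  have hk : Ker v (mkPt x y h + mkPt x y h) := by
    rw [e]
    refine Or.inr ?_
    rw [xc_mk]
    by_contra hc'
    rw [not_lt] at hc'
    have h5 : (3 * x ^ 2 / (2 * y + 1)) ^ 2 =
        ((3 * x ^ 2 / (2 * y + 1)) ^ 2 - x - x) + (x + x) := by ring
    have h6 : v ((3 * x ^ 2 / (2 * y + 1)) ^ 2) ≤ 1 := by
      rw [h5]
      exact v.map_add_le hc' (v.map_add_le hx1.le hx1.le)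
    rw [map_pow] at h6
    exact absurd (one_lt_pow₀ hm two_ne_zero) (not_lt.2 h6)
  have h7 : sm F b (mkPt x y h + mkPt x y h) = 0 := by
    rw [map_add, hA, add_zero]
  have h8 := ker_sm_tors v hk hb h7
  rw [e] at h8
  exact mk_ne_zero _ _ _ h8

private theorem dta_x {b : 𝓞 K} (hb : v (algebraMap K F (b : K)) = 1) (h2 : IsCoprime b 2)
    (h3 : IsCoprime b TG.pi3) {A B : Pt F} (hA : sm F b A = 0) (hA0 : A ≠ 0)
    (hB : sm F b B = 0) (hB0 : B ≠ 0) (h1 : B ≠ A) (h4 : B ≠ -A) :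
    v (3 : F) ≤ v (xc A - xc B) := by
  have hyA := dta_y v hb h2 h3 hA hA0
  have hyB := dta_y v hb h2 h3 hB hB0
  obtain ⟨x, y, h, rfl⟩ := (cases_pt A).resolve_left hA0
  obtain ⟨x', y', h', rfl⟩ := (cases_pt B).resolve_left hB0
  rw [yc_mk] at hyA hyB
  rw [xc_mk, xc_mk]
  have hne : x ≠ x' := by
    rintro rfl
    have h5 : (y - y') * (y + y' + 1) = 0 := by linear_combination h - h'
    rcases mul_eq_zero.1 h5 with h6 | h6
    · apply h1
      rw [mk_inj]
      exact ⟨rfl, by linear_combination -h6⟩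
    · apply h4
      rw [neg_mk, mk_inj]
      exact ⟨rfl, by linear_combination h6⟩
  have hD : x - x' ≠ 0 := sub_ne_zero.2 hne
  obtain ⟨q1, e1⟩ := mk_add x y x' y' h h' hne
  obtain ⟨q2, e2⟩ := mk_add x y x' (-y' - 1) h (by linear_combination h') hne
  have hs1 : v (((y - y') / (x - x')) ^ 2 - x - x') ≤ 1 := by
    have hk := dta_nk v hb (X := mkPt x y h + mkPt x' y' h') (by rw [map_add, hA, hB, add_zero])
      (by rw [e1]; exact mk_ne_zero _ _ _)
    have := (not_ker v hk).2.1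
    rw [e1, xc_mk] at this
    exact this
  have hs2 : v (((y - (-y' - 1)) / (x - x')) ^ 2 - x - x') ≤ 1 := by
    have hB' : sm F b (mkPt x' (-y' - 1) (by linear_combination h')) = 0 := by
      have : mkPt x' (-y' - 1) (by linear_combination h') = -mkPt x' y' h' := (neg_mk _ _ _).symm
      rw [this, map_neg, hB, neg_zero]
    have hk := dta_nk v hb (X := mkPt x y h + mkPt x' (-y' - 1) (by linear_combination h'))
      (by rw [map_add, hA, hB', add_zero]) (by rw [e2]; exact mk_ne_zero _ _ _)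
    have := (not_ker v hk).2.1
    rw [e2, xc_mk] at this
    exact this
  obtain ⟨a1, ha1⟩ : ∃ a1, a1 = ((y - y') / (x - x')) ^ 2 - x - x' := ⟨_, rfl⟩
  obtain ⟨a2, ha2⟩ : ∃ a2, a2 = ((y - (-y' - 1)) / (x - x')) ^ 2 - x - x' := ⟨_, rfl⟩
  rw [← ha1] at hs1
  rw [← ha2] at hs2
  have key : (x - x') ^ 2 * (a2 - a1) = (2 * y + 1) * (2 * y' + 1) := by
    rw [ha1, ha2]
    field_simp
    ring
  have h7 : v (3 : F) ^ 2 ≤ v (x - x') ^ 2 := by
    calc v (3 : F) ^ 2 = v (3 : F) * v (3 : F) := sq _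
      _ ≤ v (2 * y + 1) * v (2 * y' + 1) := mul_le_mul' hyA hyB
      _ = v (x - x') ^ 2 * v (a2 - a1) := by rw [← map_mul, ← key, map_mul, map_pow]
      _ ≤ v (x - x') ^ 2 := mul_le_of_le_one_right zero_le (v.map_sub_le hs2 hs1)
  by_contra hc
  rw [not_le] at hc
  exact absurd (pow_lt_pow_left₀ hc zero_le two_ne_zero) (not_lt.2 h7)

end

end Pool.Agent.Lib.MP_1a91b9_ntT.DB

namespace Pool.Agent.Lib.MP_1a91b9_ntX.DG

open NumberField IsDedekindDomain WeierstrassCurve Pool.Agent.Lib.MP_1a91b9_ntT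
open Pool.Agent.Lib.MP_1a91b9_ntX.DB

noncomputable section

section
variable {F : Type*} [Field F] [Algebra K F] [DecidableEq F] {Γ : Type*}
  [LinearOrderedCommGroupWithZero Γ] (v : Valuation F Γ) {b : 𝓞 K}
  (hb : v (algebraMap K F (b : K)) = 1) (h2 : IsCoprime b 2) (h3 : IsCoprime b pi3)
  {A B : MP_1a91b9_ntT.DB.Pt F} (hA : MP_1a91b9_ntT.DB.sm F b A = 0) (hA0 : A ≠ 0)
include hb h3 hA hA0

theorem sep_one : v (MP_1a91b9_ntT.DB.xc A) = 1 :=
  MP_1a91b9_ntT.DB.dta_one v hb h3 hA hA0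

include h2

theorem sep_y : v (3 : F) ≤ v (2 * MP_1a91b9_ntT.DB.yc A + 1) :=
  MP_1a91b9_ntT.DB.dta_y v hb h2 h3 hA hA0

theorem sep_x (hB : MP_1a91b9_ntT.DB.sm F b B = 0) (hB0 : B ≠ 0) (h1 : B ≠ A) (h4 : B ≠ -A) :
    v (3 : F) ≤ v (MP_1a91b9_ntT.DB.xc A - MP_1a91b9_ntT.DB.xc B) :=
  MP_1a91b9_ntT.DB.dta_x v hb h2 h3 hA hA0 hB hB0 h1 h4

end

end

end Pool.Agent.Lib.MP_1a91b9_ntX.DG
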