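import Pool.Agent.Lib.MP_1a91b9_ntX.DG.DtA
import Pool.Agent.Lib.MP_1a91b9_ntX.DB.Phi

/-!
# Separation of the abscissae of torsion points

JOB DTB. PROOF (complete; helper30). Transport of DtA.lean by `phi`, as in XD.lean: `F' = AlgebraicClosure F`, `δ` with `16 δ^6 = D`, `V` the extension of `v` to `F'`
(`exists_val_ext`), `A'`, `B'`, `C'` the preimages of the points under `phi F' δ hδ`. `V b = 1` (`val_ext_eq`). `xc A = 4 δ^2 xc A'` (in `F'`).
`sepD_ne`: `xc A = 0` would give `xc A' = 0`, contradiction with `sep_one` (for the extension of `v`).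
`sepD_val`: `xc A / xc C = xc A' / xc C'` has value `1` by `sep_one` (`val_ext_eq`).
`sepD_x`: `xc A / xc C - xc B / xc C = (xc A' - xc B') / xc C'` has value `≥ V 3` by `sep_x` and `sep_one`. `v 3 ≤ v z` follows from `V 3 ≤ V z`: `z ≠ 0` (`V 3 ≠ 0`), and
`V (3 / z) ≤ 1` iff `v (3 / z) ≤ 1` by the property of `B` in `exists_val_ext`.
-/

set_option autoImplicit false

namespace Pool.Agent.Lib.MP_1a91b9_ntX.DG

open NumberField IsDedekindDomain WeierstrassCurve Pool.Agent.Lib.MP_1a91b9_ntT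
open Pool.Agent.Lib.MP_1a91b9_ntX.DB

noncomputable section

variable [DD]

section
variable {F : Type*} [Field F] [Algebra K F] [DecidableEq F] {F' : Type*} [Field F'] [Algebra K F']
  [Algebra F F'] [IsScalarTower K F F'] [DecidableEq F'] {δ : F'} (hδ : 16 * δ ^ 6 = dD F')

/-- the preimage of a point in an extension under the isomorphism -/
private def DTB_pre (P : Pt F) : MP_1a91b9_ntT.DB.Pt F' :=
  (phi F' δ hδ).symm (pm (IsScalarTower.toAlgHom K F F') P)

private theorem DTB_phi (P : Pt F) :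
    phi F' δ hδ (DTB_pre hδ P) = pm (IsScalarTower.toAlgHom K F F') P :=
  (phi F' δ hδ).apply_symm_apply _

private theorem DTB_inj {P Q : Pt F} (h : DTB_pre hδ P = DTB_pre hδ Q) : P = Q := by
  have h1 := congrArg (phi F' δ hδ) h
  rw [DTB_phi, DTB_phi] at h1
  exact pm_inj _ h1

private theorem DTB_zero : DTB_pre hδ (0 : Pt F) = 0 := by
  unfold DTB_pre
  rw [map_zero, map_zero]

private theorem DTB_neg (P : Pt F) : DTB_pre hδ (-P) = -DTB_pre hδ P := by
  unfold DTB_pre
  rw [map_neg, map_neg]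

private theorem DTB_ne {P : Pt F} (h : P ≠ 0) : DTB_pre hδ P ≠ 0 := by
  intro h1
  exact h (DTB_inj hδ (h1.trans (DTB_zero hδ).symm))

private theorem DTB_sm {b : 𝓞 K} {P : Pt F} (h : sm F b P = 0) :
    MP_1a91b9_ntT.DB.sm F' b (DTB_pre hδ P) = 0 := by
  apply (phi F' δ hδ).injective
  rw [phi_sm, DTB_phi, ← pm_sm, h, map_zero, map_zero]

private theorem DTB_xc (P : Pt F) :
    algebraMap F F' (xc P) = 4 * δ ^ 2 * MP_1a91b9_ntT.DB.xc (DTB_pre hδ P) := by
  rw [← xc_phi hδ, DTB_phi, xc_pm]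
  rfl

include hδ in
omit [DecidableEq F'] in
private theorem DTB_c : (4 * δ ^ 2 : F') ≠ 0 := by
  have h1 : (4 : F') = 2 * 2 := by norm_num
  rw [h1]
  exact mul_ne_zero (mul_ne_zero two_ne two_ne) (pow_ne_zero 2 (delta_ne F' hδ))

end

omit [DD] in
private theorem DTB_four {F : Type*} [Field F] [Algebra K F] : (16 : F) ≠ 0 := by
  have : CharZero F := charZero_of_injective_algebraMap (algebraMap K F).injective
  norm_num

private theorem DTB_delta (F : Type*) [Field F] [Algebra K F] :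
    ∃ δ : AlgebraicClosure F, 16 * δ ^ 6 = dD (AlgebraicClosure F) := by
  obtain ⟨δ, h⟩ := IsAlgClosed.exists_pow_nat_eq (dD (AlgebraicClosure F) / 16) (n := 6)
    (by norm_num)
  refine ⟨δ, ?_⟩
  rw [h, mul_div_cancel₀ _ DTB_four]

section
variable {F : Type*} [Field F] [Algebra K F] [DecidableEq F] {Γ : Type*}
  [LinearOrderedCommGroupWithZero Γ] (v : Valuation F Γ) {b : 𝓞 K}
  (hb : v (algebraMap K F (b : K)) = 1) (h2 : IsCoprime b 2) (h3 : IsCoprime b pi3)
  {A B C : Pt F} (hA : sm F b A = 0) (hA0 : A ≠ 0) (hC : sm F b C = 0) (hC0 : C ≠ 0)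
include hb h3 hA hA0

theorem sepD_ne : xc A ≠ 0 := by
  classical
  obtain ⟨δ, hδ⟩ := DTB_delta F
  obtain ⟨B, hB⟩ := exists_val_ext (F' := AlgebraicClosure F) v
  have hb' : B.valuation (algebraMap K (AlgebraicClosure F) (b : K)) = 1 := by
    rw [IsScalarTower.algebraMap_apply K F (AlgebraicClosure F), val_ext_eq v B.valuation hB]
    exact hb
  have h1 := sep_one B.valuation hb' h3 (DTB_sm hδ hA) (DTB_ne hδ hA0)
  intro h0
  have h2 := DTB_xc hδ A
  rw [h0, map_zero] at h2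
  have h4 : MP_1a91b9_ntT.DB.xc (DTB_pre hδ A) = 0 :=
    (mul_eq_zero.1 h2.symm).resolve_left (DTB_c hδ)
  rw [h4, map_zero] at h1
  exact zero_ne_one h1

include hC hC0

theorem sepD_val : v (xc A / xc C) = 1 := by
  classical
  obtain ⟨δ, hδ⟩ := DTB_delta F
  obtain ⟨B, hB⟩ := exists_val_ext (F' := AlgebraicClosure F) v
  have hb' : B.valuation (algebraMap K (AlgebraicClosure F) (b : K)) = 1 := by
    rw [IsScalarTower.algebraMap_apply K F (AlgebraicClosure F), val_ext_eq v B.valuation hB]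
    exact hb
  have h1 := sep_one B.valuation hb' h3 (DTB_sm hδ hA) (DTB_ne hδ hA0)
  have h2 := sep_one B.valuation hb' h3 (DTB_sm hδ hC) (DTB_ne hδ hC0)
  rw [← val_ext_eq v B.valuation hB, map_div₀, DTB_xc hδ, DTB_xc hδ,
    mul_div_mul_left _ _ (DTB_c hδ), map_div₀, h1, h2, div_one]

include h2

theorem sepD_x (hB : sm F b B = 0) (hB0 : B ≠ 0) (h1 : B ≠ A) (h4 : B ≠ -A) :
    v (3 : F) ≤ v (xc A / xc C - xc B / xc C) := by
  classical
  obtain ⟨δ, hδ⟩ := DTB_delta F
  obtain ⟨W, hW⟩ := exists_val_ext (F' := AlgebraicClosure F) v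
  have hb' : W.valuation (algebraMap K (AlgebraicClosure F) (b : K)) = 1 := by
    rw [IsScalarTower.algebraMap_apply K F (AlgebraicClosure F), val_ext_eq v W.valuation hW]
    exact hb
  have g1 := sep_one W.valuation hb' h3 (DTB_sm hδ hC) (DTB_ne hδ hC0)
  have g2 := sep_x W.valuation hb' h2 h3 (DTB_sm hδ hA) (DTB_ne hδ hA0) (DTB_sm hδ hB)
    (DTB_ne hδ hB0) (fun h => h1 (DTB_inj hδ h)) (fun h => h4 (DTB_inj hδ (by rw [DTB_neg]; exact h)))
  have g3 : algebraMap F (AlgebraicClosure F) (xc A / xc C - xc B / xc C) =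
      (MP_1a91b9_ntT.DB.xc (DTB_pre hδ A) - MP_1a91b9_ntT.DB.xc (DTB_pre hδ B)) /
        MP_1a91b9_ntT.DB.xc (DTB_pre hδ C) := by
    rw [map_sub, map_div₀, map_div₀, DTB_xc hδ, DTB_xc hδ, DTB_xc hδ,
      mul_div_mul_left _ _ (DTB_c hδ), mul_div_mul_left _ _ (DTB_c hδ), sub_div]
  have g4 : W.valuation (3 : AlgebraicClosure F) ≤
      W.valuation (algebraMap F (AlgebraicClosure F) (xc A / xc C - xc B / xc C)) := by
    rw [g3, map_div₀, g1, div_one]
    exact g2
  have g5 : (3 : AlgebraicClosure F) ≠ 0 := three_ne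
  have g6 : 0 < W.valuation (3 : AlgebraicClosure F) :=
    zero_lt_iff.2 ((Valuation.ne_zero_iff _).2 g5)
  have g7 : 0 < W.valuation (algebraMap F (AlgebraicClosure F) (xc A / xc C - xc B / xc C)) :=
    g6.trans_le g4
  have g8 : W.valuation (algebraMap F (AlgebraicClosure F)
      (3 / (xc A / xc C - xc B / xc C))) ≤ 1 := by
    rw [map_div₀, map_ofNat, map_div₀, div_le_one₀ g7]
    exact g4
  have g9 : xc A / xc C - xc B / xc C ≠ 0 := by
    intro h
    rw [h, map_zero, map_zero] at g7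
    exact lt_irrefl _ g7
  rw [hW, map_div₀, div_le_one₀ (zero_lt_iff.2 ((Valuation.ne_zero_iff v).2 g9))] at g8
  exact g8

end

end

end Pool.Agent.Lib.MP_1a91b9_ntX.DG
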