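import Pool.Agent.Lib.MP_1a91b9_ntX.DG.DtB

/-!
# Counting torsion points at a place

JOB DTC. PROOF (complete; helper30). `v` is a place of `N` with `v ϖ = 1`, `m = od v 3 + 1` (`od v 3 ≥ 0`, as a natural number). Let `T` be a residue system (`exists_isRes`, DB/Tor2.lean or MP_1a91b9_ntT:
`IsRes ϖ T`, `T.card + 1 = q`). For `a ∈ T` let `r a = xc (sm a P) / xc P`; `sm a P ≠ 0` is killed by `ϖ` (`hP`, `IsRes.nz`). By DtB.lean (`b = ϖ`, prime to `2` and `3`: `hp.prime`, `PD` gives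
`3 ∣ ϖ - 1`, and `ϖ ∤ 2` because `ℓ ≥ 5`: `PD.dvd_int_iff`, `prime.coprime_iff_not_dvd`): `v (r a) = 1`, and `v 3 ≤ v (r a - r a')` if `sm a P ≠ ± sm a' P`, that is `ϖ ∤ a - a'`, `ϖ ∤ a + a'`.
Choose `x a : 𝓞 N` with `v (r a - x a) ≤ exp (-m)` (an element of value `≤ 1` is approximated by integers: write `r = α / β` with `α`, `β ∈ 𝓞 N` and `v β = 1` (`HeightOneSpectrum.valuation`, `exists ...`),
and `β` is invertible modulo `v^m`: `Ideal.IsCoprime`; or use the density of `𝓞 N` in the completion, or `valuation_surjective`-type lemmas; in MP_1a91b9_ntT/DB/Thaine.lean there is a private lemma which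
approximates modulo `v`; iterate it `m` times: `r - x = π s` with `v s ≤ 1`, `π` a uniformizer in `𝓞 N`). Then `a ↦ class of x a` in `𝓞 N ⧸ v.asIdeal ^ m` has fibres of cardinality `≤ 2`: if `x a = x a'` modulo `v^m` then
`v (r a - r a') ≤ exp (-m) < v 3 = exp (- od v 3)`, so `ϖ ∣ a - a'` or `ϖ ∣ a + a'`; for a given `a` there is at most one `a' ∈ T` with `ϖ ∣ a - a'` and at most one with `ϖ ∣ a + a'` (`IsRes.uniq`). So
`T.card ≤ 2 * card (𝓞 N ⧸ v^m) = 2 * (absNorm v)^m` (`Finset.card_le_mul_card_image`, `Ideal.absNorm`, `map_pow`).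
-/

set_option autoImplicit false

namespace Pool.Agent.Lib.MP_1a91b9_ntX.DG

open NumberField IsDedekindDomain WeierstrassCurve Pool.Agent.Lib.MP_1a91b9_ntT
open Pool.Agent.Lib.MP_1a91b9_ntX.DB

noncomputable section

variable [DD]

private theorem DTC_two {ϖ : 𝓞 K} {ℓ q : ℕ} (hp : PD ϖ ℓ q) : IsCoprime ϖ 2 := by
  have : IsPrincipalIdealRing (𝓞 K) := IsCyclotomicExtension.Rat.three_pid K
  refine hp.prime.irreducible.coprime_iff_not_dvd.2 fun h => ?_
  have h1 : ϖ ∣ ((2 : ℤ) : 𝓞 K) := by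
    have h2 : ((2 : ℤ) : 𝓞 K) = 2 := by norm_num
    rw [h2]
    exact h
  have h2 := (hp.dvd_int_iff 2).1 h1
  have h3 := Int.le_of_dvd (by norm_num) h2
  have h4 := hp.five
  omega

private theorem DTC_pi3 {ϖ : 𝓞 K} {ℓ q : ℕ} (hp : PD ϖ ℓ q) : IsCoprime ϖ pi3 := by
  obtain ⟨c, hc⟩ := pi3_dvd_three.trans hp.one
  exact ⟨1, -c, by linear_combination hc⟩

theorem card_le_place {N : Type} [Field N] [NumberField N] [Algebra K N] [DecidableEq N]
    {ϖ : 𝓞 K} {ℓ q : ℕ} (hp : PD ϖ ℓ q) {P : Pt N} (hP : Ord ϖ P) (v : HeightOneSpectrum (𝓞 N))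
    (hv : v.valuation N (algebraMap K N (ϖ : K)) = 1) :
    q ≤ 2 * (Ideal.absNorm v.asIdeal) ^ ((od v (3 : N)).toNat + 1) + 1 := by
  classical
  obtain ⟨T, hT, hcard⟩ := MP_1a91b9_ntT.DB.exists_isRes hp.prime.ne_zero
  rw [hp.norm] at hcard
  have h2 := DTC_two hp
  have h3 := DTC_pi3 hp
  have hP0 : P ≠ 0 := by
    intro h0
    have h1 : ϖ ∣ 1 := (hP 1).1 (by rw [h0, map_zero])
    exact hp.prime.not_isUnit (isUnit_of_dvd_one h1)
  have hPk : sm N ϖ P = 0 := (hP ϖ).2 dvd_rfl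
  have hk : ∀ a : 𝓞 K, sm N ϖ (sm N a P) = 0 := by
    intro a
    rw [sm_sm]
    exact (hP _).2 (dvd_mul_right _ _)
  have hn0 : ∀ a ∈ T, sm N a P ≠ 0 := fun a ha h0 => hT.nz a ha ((hP a).1 h0)
  set r : 𝓞 K → N := fun a => xc (sm N a P) / xc P with hr
  have hval : ∀ a ∈ T, v.valuation N (r a) = 1 := fun a ha =>
    sepD_val (v.valuation N) hv h3 (hk a) (hn0 a ha) hPk hP0
  have hsep : ∀ a ∈ T, ∀ a' ∈ T, ¬ ϖ ∣ a' - a → ¬ ϖ ∣ a' + a →
      v.valuation N (3 : N) ≤ v.valuation N (r a - r a') := by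
    intro a ha a' ha' h4 h5
    refine sepD_x (v.valuation N) hv h2 h3 (hk a) (hn0 a ha) hPk hP0 (hk a') (hn0 a' ha') ?_ ?_
    · intro h6
      exact h4 ((hP.sm_eq_iff _ _).1 h6)
    · intro h6
      apply h5
      have h7 : sm N a' P = sm N (-a) P := by
        rw [h6, map_neg]
        rfl
      have h8 := (hP.sm_eq_iff _ _).1 h7
      rwa [sub_neg_eq_add] at h8
  obtain ⟨m, hm⟩ : ∃ m : ℕ, m = (od v (3 : N)).toNat + 1 := ⟨_, rfl⟩
  rw [← hm]
  have h30 : (3 : N) ≠ 0 := by norm_num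
  have hv3 : WithZero.exp (-(m : ℤ)) < v.valuation N (3 : N) := by
    have h6 := MP_1a91b9_ntT.DB.val_eq v h30
    rw [h6, WithZero.exp_lt_exp, hm]
    have h7 := Int.self_le_toNat (MP_1a91b9_ntT.DB.od v (3 : N))
    have h8 : od v (3 : N) = MP_1a91b9_ntT.DB.od v (3 : N) := rfl
    rw [h8]
    push_cast
    omega
  have hex : ∀ a : 𝓞 K, ∃ x : 𝓞 N, a ∈ T →
      v.valuation N (r a - (x : N)) ≤ WithZero.exp (-(m : ℤ)) := by
    intro a
    by_cases ha : a ∈ T
    · obtain ⟨x, hx⟩ := MP_1a91b9_ntT.DB.exists_val_lt_of_int v (hval a ha).le m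
      exact ⟨x, fun _ => hx⟩
    · exact ⟨0, fun h => absurd h ha⟩
  choose x hx using hex
  have hI : v.asIdeal ^ m ≠ ⊥ := by
    intro h0
    exact v.ne_bot (pow_eq_zero_iff (by omega) |>.1 h0)
  have : Finite (𝓞 N ⧸ v.asIdeal ^ m) := Ideal.finiteQuotientOfFreeOfNeBot _ hI
  have : Fintype (𝓞 N ⧸ v.asIdeal ^ m) := Fintype.ofFinite _
  let f : 𝓞 K → 𝓞 N ⧸ v.asIdeal ^ m := fun a => Ideal.Quotient.mk _ (x a)
  have hff : ∀ a ∈ T, ∀ a' ∈ T, f a' = f a → ϖ ∣ a' - a ∨ ϖ ∣ a' + a := by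
    intro a ha a' ha' hf
    by_contra hcon
    rw [not_or] at hcon
    have h6 := hsep a ha a' ha' hcon.1 hcon.2
    have h7 : x a' - x a ∈ v.asIdeal ^ m := (Ideal.Quotient.mk_eq_mk_iff_sub_mem _ _).1 hf
    have h8 : v.valuation N ((x a' - x a : 𝓞 N) : N) ≤ WithZero.exp (-(m : ℤ)) := by
      have h9 : v.valuation N ((x a' - x a : 𝓞 N) : N) = v.intValuation (x a' - x a) :=
        v.valuation_of_algebraMap _
      rw [h9]
      exact (v.intValuation_le_pow_iff_mem _ _).2 h7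
    have h9 : r a - r a' = (r a - (x a : N)) - (r a' - (x a' : N)) - ((x a' - x a : 𝓞 N) : N) := by
      have h10 : ((x a' - x a : 𝓞 N) : N) = (x a' : N) - (x a : N) := map_sub (algebraMap (𝓞 N) N) _ _
      rw [h10]
      ring
    have h10 : v.valuation N (r a - r a') ≤ WithZero.exp (-(m : ℤ)) := by
      rw [h9]
      refine (Valuation.map_sub _ _ _).trans (max_le ((Valuation.map_sub _ _ _).trans
        (max_le (hx a ha) (hx a' ha'))) h8)
    exact absurd (h6.trans h10) (not_le.2 hv3)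
  have hfib : ∀ b ∈ T.image f, (T.filter fun a => f a = b).card ≤ 2 := by
    intro b hb
    obtain ⟨a, ha, rfl⟩ := Finset.mem_image.1 hb
    have hsub : (T.filter fun a' => f a' = f a) ⊆ {a} ∪ T.filter (fun a' => ϖ ∣ a' + a) := by
      intro a' ha'
      obtain ⟨h6, h7⟩ := Finset.mem_filter.1 ha'
      rw [Finset.mem_union, Finset.mem_singleton, Finset.mem_filter]
      rcases hff a ha a' h6 h7 with h8 | h8
      · exact Or.inl (hT.uniq a' h6 a ha h8)
      · exact Or.inr ⟨h6, h8⟩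
    have hone : (T.filter (fun a' => ϖ ∣ a' + a)).card ≤ 1 := by
      rw [Finset.card_le_one]
      intro c hc d hd
      obtain ⟨h6, h7⟩ := Finset.mem_filter.1 hc
      obtain ⟨h8, h9⟩ := Finset.mem_filter.1 hd
      refine hT.uniq c h6 d h8 ?_
      have h10 := dvd_sub h7 h9
      rwa [add_sub_add_right_eq_sub] at h10
    calc (T.filter fun a' => f a' = f a).card ≤ ({a} ∪ T.filter (fun a' => ϖ ∣ a' + a)).card :=
          Finset.card_le_card hsub
      _ ≤ ({a} : Finset (𝓞 K)).card + (T.filter (fun a' => ϖ ∣ a' + a)).card :=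
          Finset.card_union_le _ _
      _ ≤ 1 + 1 := Nat.add_le_add (Finset.card_singleton _).le hone
  have h6 := Finset.card_le_mul_card_image (f := f) T 2 hfib
  have h7 : (T.image f).card ≤ (Ideal.absNorm v.asIdeal) ^ m := by
    have h8 : Fintype.card (𝓞 N ⧸ v.asIdeal ^ m) = (Ideal.absNorm v.asIdeal) ^ m := by
      rw [← map_pow, Ideal.absNorm_apply, Submodule.cardQuot_apply, Nat.card_eq_fintype_card]
    rw [← h8]
    exact Finset.card_le_univ _
  have h8 : T.card ≤ 2 * (Ideal.absNorm v.asIdeal) ^ m := h6.trans (Nat.mul_le_mul_left 2 h7)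
  omega

end

end Pool.Agent.Lib.MP_1a91b9_ntX.DG
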