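import Pool.Agent.Lib.MP_1a91b9_ntX.DG.F2
import Pool.Agent.Lib.MP_1a91b9_ntX.DG.Dual

/-!
# the dual elements `η` of the function `f2`

Port of MP_1a91b9_ntT/DG/Eta.lean to the curves `y² = x³ + D`.
-/

set_option autoImplicit false

namespace Pool.Agent.Lib.MP_1a91b9_ntX.DG

open NumberField IsDedekindDomain WeierstrassCurve Pool.Agent.Lib.MP_1a91b9_ntT
open Pool.Agent.Lib.MP_1a91b9_ntX.DB

noncomputable section

variable [DD]

section
variable {μ : 𝓞 K} {H : Subgroup (CU μ)} {ϖ : 𝓞 K} {ℓ q : ℕ} {F N L : Type} [Field F] [NumberField F] [Algebra K F]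
  [Field N] [NumberField N] [Algebra K N] [Algebra F N] [IsScalarTower K F N] [IsGalois F N]
  [DecidableEq N] [Field L] [NumberField L] [Algebra K L] [Algebra F L] [Algebra N L]
  [IsScalarTower K F L] [IsScalarTower K N L] [IsScalarTower F N L] [DecidableEq L]
  {P : Pt N} {J : Pt L} (hG : TopG H ϖ ℓ q F N L P J)
include hG

private theorem DG_ETA_key {T : Finset (𝓞 K)} {iv : 𝓞 K → 𝓞 K} {n : 𝓞 K → ℤ}
    (hT : TrD ϖ ℓ T iv n) {f : HeightOneSpectrum (𝓞 N) → ZMod ℓ} (hiso : IsoPl F ℓ P f)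
    (W : HeightOneSpectrum (𝓞 L)) (g : U H) : ∃ e : 𝓞 K, ∀ (σ : Gal(L/K)) (d : 𝓞 K),
      ga σ J = smU J g → ga σ (up L P) = sm L d (up L P) →
        f2 f (gpl σ W) = ((n (e * d) : ℤ) : ZMod ℓ) := by
  have h1w : ¬ ϖ ∣ 1 := fun h => hG.pd.prime.not_isUnit (isUnit_of_dvd_one h)
  obtain ⟨s, h1, h2⟩ := hG.surj2 g h1w
  obtain ⟨H, hH⟩ := hiso ((gpl s W).under (𝓞 N))
  have hHz : ∀ x : 𝓞 K, ϖ ∣ x → H x = 0 := fun x hx => IsoPl.map_dvd hG.pd hG.full hH hx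
  obtain ⟨a, ha⟩ := hT.dual ((AddMonoidHom.mulLeft
      (((gpl s W).asIdeal.inertiaDeg (𝓞 N) : ℕ) : ZMod ℓ)).comp H) (by
    intro x hx
    rw [AddMonoidHom.comp_apply, hHz x hx, map_zero])
  refine ⟨a, fun σ d hJ hP => ?_⟩
  have hσ : (σ * s⁻¹) * s = σ := by rw [inv_mul_cancel_right]
  obtain ⟨u, d', -, hu, -⟩ := hG.act (σ * s⁻¹)
  have h3 : smU J (g * u) = smU J g := by
    rw [← hJ, ← hσ, ga_mul, h1, ← smU_mul hG.ord g u, ← hu]
    unfold smU
    rw [ga_sm]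
  have hu1 : u = 1 := mul_eq_left.1 (smU_inj hG.ord h3)
  have hρJ : ga (σ * s⁻¹) J = J := by
    rw [hu, hu1, smU_one hG.ord]
  have hone : sm L (1 : 𝓞 K) (up L P) = up L P := by
    rw [map_one]
    rfl
  have hρP : ga (σ * s⁻¹) (up L P) = sm L d (up L P) := by
    rw [← hP]
    conv_rhs => rw [← hσ, ga_mul, h2, hone]
  obtain ⟨τ, hτ, hτP⟩ := hG.restr (hG.fixF _ hρJ)
  have hτP' : ga τ P = sm N d P := by
    apply pm_inj (IsScalarTower.toAlgHom K N L)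
    rw [pm_sm]
    exact hτP.trans hρP
  have h4 : gpl σ W = gpl (σ * s⁻¹) (gpl s W) := by
    rw [← gpl_mul, hσ]
  rw [h4, f2_gal hτ (gpl s W), hH τ d hτP', ← ha d]
  rfl

theorem TopG.etaG {T : Finset (𝓞 K)} {iv : 𝓞 K → 𝓞 K} {n : 𝓞 K → ℤ} (hT : TrD ϖ ℓ T iv n)
    {f : HeightOneSpectrum (𝓞 N) → ZMod ℓ} (hiso : IsoPl F ℓ P f)
    (W : HeightOneSpectrum (𝓞 L)) : ∃ η : U H → 𝓞 K, BI N ϖ J η ∧
      ∀ (σ : Gal(L/K)) (g : U H) (d : 𝓞 K), ga σ J = smU J g →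
        ga σ (up L P) = sm L d (up L P) → f2 f (gpl σ W) = ((n (η g * d) : ℤ) : ZMod ℓ) := by
  choose η hη using DG_ETA_key hG hT hiso W
  refine ⟨η, ?_, fun σ g d h1 h2 => hη g σ d h1 h2⟩
  intro b u hb
  obtain ⟨β, hβ⟩ := hb
  -- `β` as an automorphism over `K`
  have hβJ : ga (AlgEquiv.restrictScalars K β : Gal(L/K)) J = smU J b := by
    rw [resK_ga, hβ]
  have hβP : ga (AlgEquiv.restrictScalars K β : Gal(L/K)) (up L P) = up L P := by
    rw [resK_ga]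
    exact yyb_fix P β
  have hinv : ∀ W' : HeightOneSpectrum (𝓞 L),
      f2 f (gpl (AlgEquiv.restrictScalars K β : Gal(L/K)) W') = f2 f W' := by
    intro W'
    have h1 : ∀ x : N, algebraMap N L ((1 : Gal(N/K)) x) =
        (AlgEquiv.restrictScalars K β : Gal(L/K)) (algebraMap N L x) := by
      intro x
      exact (β.commutes x).symm
    rw [f2_gal h1 W', gpl_one]
    rfl
  apply n_nondeg hG.pd hT
  intro d
  by_cases hd : ϖ ∣ d
  · have h1 : ((n ((η (u * b) - η u) * d) : ℤ) : ZMod ℓ) = ((n 0 : ℤ) : ZMod ℓ) := by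
      apply n_dvd hG.pd hT
      rw [sub_zero]
      exact hd.mul_left _
    have h0 : n 0 = 0 := by
      have h2 := hT.odd 0
      rw [neg_zero] at h2
      omega
    rw [h1, h0, Int.cast_zero]
  · obtain ⟨σ, hσ1, hσ2⟩ := hG.surj2 u hd
    have h1 := hη u σ d hσ1 hσ2
    have h2 : ga ((AlgEquiv.restrictScalars K β : Gal(L/K)) * σ) J = smU J (u * b) := by
      rw [ga_mul, hσ1, ← smU_mul hG.ord u b, ← hβJ]
      unfold smU
      rw [ga_sm]
    have h3 : ga ((AlgEquiv.restrictScalars K β : Gal(L/K)) * σ) (up L P) =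
        sm L d (up L P) := by
      rw [ga_mul, hσ2, ga_sm, hβP]
    have h4 := hη (u * b) _ d h2 h3
    rw [gpl_mul, hinv, h1] at h4
    have h5 := n_add hG.pd hT ((η (u * b) - η u) * d) (η u * d)
    have h6 : (η (u * b) - η u) * d + η u * d = η (u * b) * d := by ring
    rw [h6, ← h4] at h5
    exact left_eq_add.1 (h5.trans (add_comm _ _))

end

end

end Pool.Agent.Lib.MP_1a91b9_ntX.DG
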