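import Pool.Agent.Lib.MP_1a91b9_ntX.DG.Res
import Pool.Agent.Lib.MP_1a91b9_ntT.DG.F2

/-!
# The function `f2` on the places of `L`
-/

set_option autoImplicit false

namespace Pool.Agent.Lib.MP_1a91b9_ntX.DG

open NumberField IsDedekindDomain WeierstrassCurve Pool.Agent.Lib.MP_1a91b9_ntT
open Pool.Agent.Lib.MP_1a91b9_ntX.DB

export Pool.Agent.Lib.MP_1a91b9_ntT.DG (f2_princ f2_ne f2_gal)

theorem f2_bad [DD] {N L : Type} [Field N] [NumberField N] [Field L] [NumberField L] [Algebra N L]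
    {ℓ : ℕ} {f : HeightOneSpectrum (𝓞 N) → ZMod ℓ}
    (hf : ∀ v : HeightOneSpectrum (𝓞 N), v.valuation N (bD N) < 1 → f v = 0)
    {W : HeightOneSpectrum (𝓞 L)} (hW : W.valuation L (bD L) < 1) : f2 f W = 0 := by
  unfold MP_1a91b9_ntT.DG.f2
  have h1 : W.valuation L (algebraMap N L (bD N)) < 1 := by
    rw [map_intCast]
    exact hW
  rw [hf _ ((val_map_lt W (bD N)).1 h1), mul_zero]

end Pool.Agent.Lib.MP_1a91b9_ntX.DG
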