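import Pool.Agent.Lib.MP_1a91b9_ntX.DG.Defs
import Pool.Agent.Lib.MP_1a91b9_ntT.CF.ExtSum
import Pool.Agent.Lib.MP_1a91b9_ntT.CF.Frob
import Pool.Agent.Lib.MP_1a91b9_ntT.CF.PrimeSum

/-!
# Frobenius elements generate the Galois group

JOB FRG. PROOF (complete; helper30). See MP_1a91b9_ntT/CF: `PZ Z s`, `Spl`, `PZ_up`, `PZ_union`, `PZ_finite`, `prime_sum`, `ram_finite`, `exists_fr`.
`triv_of_split`: `PZ univ_k s ≤ PZ {Spl} s + PZ S s` (`PZ_mono`, `PZ_union`), `PZ S s ≤ B1`; `[M:k] PZ {Spl} s ≤ PZ univ_M s` (`PZ_up`); `prime_sum` gives `log (1/(s-1)) - B2 ≤ PZ univ_k s` and `PZ univ_M s ≤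
log (1/(s-1)) + B3` for `1 < s ≤ 2`. So `[M:k] (log (1/(s-1)) - B1 - B2) ≤ log (1/(s-1)) + B3`; let `s → 1+`: `[M:k] ≤ 1`, and `finrank ≥ 1`.
`gal_gen`: let `M = IntermediateField.fixedField G`, a number field; `G` is normal (`hc`), so `M/k` is Galois (`IsGalois.of_fixedField_normal_subgroup` or `IsGalois.normal..`). Let `S' = S ∪ {places ramified in M/k}`
(`ram_finite`). For `v ∉ S'` choose `W` over `v` (`exists_over`) and a Frobenius element `φ` (`exists_fr`, `nrm = absNorm`: `nrm_eq`): `φ ∈ G` by `hG`, so `φ` fixes `M`. For `x ∈ 𝓞 M`: `x - x^{nrm v} ∈ W ∩ M = w`. So every element of the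
residue field of `w` is a root of `X^{nrm v} - X`, so it has at most `nrm v` elements and `inertiaDeg w = 1` (`nrm w = nrm v ^ inertiaDeg`, see `f2a_nrm` in MP_1a91b9_ntT/DG/F2.lean). `v` is not ramified. So `Spl M v`
(`Ideal.ramificationIdxIn_eq_ramificationIdx`, `Ideal.inertiaDegIn_eq_inertiaDeg` for `M/k` Galois). By `triv_of_split`: `finrank k M = 1`, so `M = ⊥` and `G = ⊤` (`IntermediateField.fixingSubgroup_fixedField`,
`IntermediateField.finrank_eq_one_iff`, `IntermediateField.fixingSubgroup_bot`).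
-/

set_option autoImplicit false

namespace Pool.Agent.Lib.MP_1a91b9_ntX.DG

open NumberField IsDedekindDomain WeierstrassCurve Pool.Agent.Lib.MP_1a91b9_ntT
open Pool.Agent.Lib.MP_1a91b9_ntX.DB

noncomputable section

section
universe u
variable {k : Type u} [Field k] [NumberField k]

theorem triv_of_split (M : Type u) [Field M] [NumberField M] [Algebra k M] [IsGalois k M]
    {S : Set (HeightOneSpectrum (𝓞 k))} (hS : S.Finite)
    (h : ∀ v : HeightOneSpectrum (𝓞 k), v ∉ S → CF.Spl M v) : Module.finrank k M = 1 := by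
  classical
  have hpos : 0 < Module.finrank k M := Module.finrank_pos
  obtain ⟨B1, h1⟩ := CF.PZ_finite S hS
  obtain ⟨B2, h2⟩ := CF.prime_sum k
  obtain ⟨B3, h3⟩ := CF.prime_sum M
  by_contra hne
  have hn : (2 : ℝ) ≤ (Module.finrank k M : ℝ) := by
    have h0 : 2 ≤ Module.finrank k M := by omega
    exact_mod_cast h0
  have key : ∀ s : ℝ, 1 < s → s ≤ 2 → 0 ≤ Real.log (1 / (s - 1)) →
      Real.log (1 / (s - 1)) ≤ (Module.finrank k M : ℝ) * (B1 + B2) + B3 := by
    intro s hs hs2 hT
    have e1 := (abs_le.mp (h2 s hs hs2)).1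
    have e2 := (abs_le.mp (h3 s hs hs2)).2
    have e3 := h1 s hs
    have e4 : CF.PZ (Set.univ : Set (HeightOneSpectrum (𝓞 k))) s ≤ CF.PZ (Sᶜ ∪ S) s := by
      rw [Set.compl_union_self]
    have e5 := CF.PZ_union Sᶜ S s hs
    have e6 := CF.PZ_up k M Sᶜ (fun v hv => h v hv) s hs
    have e7 : Real.log (1 / (s - 1)) - B1 - B2 ≤ CF.PZ Sᶜ s := by linarith
    have e8 : (Module.finrank k M : ℝ) * (Real.log (1 / (s - 1)) - B1 - B2) ≤
        (Module.finrank k M : ℝ) * CF.PZ Sᶜ s :=
      mul_le_mul_of_nonneg_left e7 (by linarith)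
    have e9 : 0 ≤ ((Module.finrank k M : ℝ) - 2) * Real.log (1 / (s - 1)) :=
      mul_nonneg (by linarith) hT
    nlinarith
  set C : ℝ := max ((Module.finrank k M : ℝ) * (B1 + B2) + B3) 0 with hC
  have hC0 : 0 ≤ C := le_max_right _ _
  have hC1 : (Module.finrank k M : ℝ) * (B1 + B2) + B3 ≤ C := le_max_left _ _
  have hlog : Real.log (1 / (1 + Real.exp (-(C + 1)) - 1)) = C + 1 := by
    rw [add_sub_cancel_left, one_div, Real.log_inv, Real.log_exp, neg_neg]
  have h4 := key (1 + Real.exp (-(C + 1))) (by linarith [Real.exp_pos (-(C + 1))])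
    (by
      have h5 : Real.exp (-(C + 1)) ≤ 1 := Real.exp_le_one_iff.mpr (by linarith)
      linarith)
    (by rw [hlog]; linarith)
  rw [hlog] at h4
  linarith

theorem gal_gen {L : Type u} [Field L] [NumberField L] [Algebra k L] [IsGalois k L]
    (hc : ∀ σ τ : Gal(L/k), σ * τ = τ * σ) (G : Subgroup Gal(L/k))
    {S : Set (HeightOneSpectrum (𝓞 k))} (hS : S.Finite)
    (hG : ∀ W : HeightOneSpectrum (𝓞 L), W.under (𝓞 k) ∉ S → ∀ σ : Gal(L/k),
      (∀ x : 𝓞 L, σ • x - x ^ Ideal.absNorm (W.under (𝓞 k)).asIdeal ∈ W.asIdeal) → σ ∈ G) :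
    G = ⊤ := by
  classical
  have hnorm : G.Normal := ⟨fun n hn g => by rwa [hc g n, mul_inv_cancel_right]⟩
  have hM : NumberField (IntermediateField.fixedField G) := inferInstance
  have hgal : IsGalois k (IntermediateField.fixedField G) := inferInstance
  have hfin : (S ∪ {v : HeightOneSpectrum (𝓞 k) |
      CF.Ram (IntermediateField.fixedField G) v}).Finite :=
    hS.union (CF.ram_finite k (IntermediateField.fixedField G))
  have hone : Module.finrank k (IntermediateField.fixedField G) = 1 := by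
    refine triv_of_split (IntermediateField.fixedField G) hfin fun v hv => ?_
    have hvS : v ∉ S := fun h => hv (Or.inl h)
    have hvR : ¬ CF.Ram (IntermediateField.fixedField G) v := fun h => hv (Or.inr h)
    obtain ⟨W, hW⟩ := CF.exists_over (N := L) v
    obtain ⟨φ, hφ⟩ := CF.exists_fr (k := k) W
    rw [hW] at hφ
    have hφG : φ ∈ G := by
      refine hG W (by rw [hW]; exact hvS) φ fun x => ?_
      have h1 := hφ x
      rw [Pool.Agent.Lib.MP_1a91b9_nt.nrm_eq] at h1
      rw [hW]
      exact h1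
    have hfix : ∀ x : IntermediateField.fixedField G,
        φ (algebraMap (IntermediateField.fixedField G) L x) =
          algebraMap (IntermediateField.fixedField G) L x := fun x => x.2 ⟨φ, hφG⟩
    have hd := CF.fr_fix (k := k) (L := IntermediateField.fixedField G) (N := L) W φ _ 1 v hW
      (by rw [pow_one]) one_pos hφ hfix
    have hd1 := Nat.dvd_one.mp hd
    refine ⟨not_not.mp hvR, ?_⟩
    have i0 : v.asIdeal.IsMaximal := v.isMaximal
    have i1 : (W.under (𝓞 (IntermediateField.fixedField G))).asIdeal.IsPrime :=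
      (W.under (𝓞 (IntermediateField.fixedField G))).isPrime
    have i2 : (W.under (𝓞 (IntermediateField.fixedField G))).asIdeal.LiesOver v.asIdeal := by
      refine ⟨?_⟩
      rw [← hW]
      change Ideal.under (𝓞 k) W.asIdeal =
        Ideal.under (𝓞 k) (Ideal.under (𝓞 (IntermediateField.fixedField G)) W.asIdeal)
      exact Ideal.under_under _ |>.symm
    rw [Ideal.inertiaDegIn_eq_inertiaDeg v.asIdeal
      (W.under (𝓞 (IntermediateField.fixedField G))).asIdeal
      Gal((IntermediateField.fixedField G)/k)]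
    exact hd1
  have hbot := IntermediateField.finrank_eq_one_iff.mp hone
  rw [← IntermediateField.fixingSubgroup_fixedField G, hbot, IntermediateField.fixingSubgroup_bot]

end

end

end Pool.Agent.Lib.MP_1a91b9_ntX.DG
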