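import Pool.Agent.Lib.MP_1a91b9_ntX.DG.Hps
import Pool.Agent.Lib.MP_1a91b9_ntX.DG.TF
import Pool.Agent.Lib.MP_1a91b9_ntX.DG.Up

/-!
# The action of Galois on the torsion points and the Hecke character: the general case
-/

set_option autoImplicit false

namespace Pool.Agent.Lib.MP_1a91b9_ntX.DG

open NumberField IsDedekindDomain WeierstrassCurve Pool.Agent.Lib.MP_1a91b9_ntT
open Pool.Agent.Lib.MP_1a91b9_ntX.DB

noncomputable section

variable [DD] [HC]

/-- the Galois group acts on a torsion point by elements fixed by `ps` -/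
theorem gal_ps_gen {L : Type} [Field L] [NumberField L] [Algebra K L] [DecidableEq L]
    [IsGalois K L] {ν : 𝓞 K} (hν : ν ≠ 0) {T : Pt L} (hT : Ord ν T) (σ : Gal(L/K)) :
    ∃ c : 𝓞 K, IsCoprime c ν ∧ ga σ T = sm L c T ∧ Fx c := by
  classical
  obtain ⟨L1, iF, iN, iK, iD, R, hG, hR, htop, hgen⟩ := exists_tf hν
  obtain ⟨f⟩ := emb_tf (L := L1) (L1 := L) hν dvd_rfl ((hR ν).2 dvd_rfl) htop hT
  letI : Algebra L1 L := f.toRingHom.toAlgebra
  haveI : IsScalarTower K L1 L := IsScalarTower.of_algebraMap_eq fun x => (f.commutes x).symm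
  obtain ⟨c, hc, hσ, hF⟩ := gal_ps hν hR hgen (σ.restrictNormal L1)
  refine ⟨c, hc, ?_, hF⟩
  have e : (IsScalarTower.toAlgHom K L1 L).comp
      (((σ.restrictNormal L1 : L1 ≃ₐ[K] L1) : L1 →ₐ[K] L1).restrictScalars K) =
      ((σ : L →ₐ[K] L).restrictScalars K).comp (IsScalarTower.toAlgHom K L1 L) := by
    ext x
    exact σ.restrictNormal_commutes L1 x
  have h1 : up L (ga (σ.restrictNormal L1) R) = ga σ (up L R) := by
    unfold up
    rw [Affine.Point.map_map, Affine.Point.map_map, e]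
  obtain ⟨g⟩ := exists_emb L
  have hR' : Ord ν (up L R) := by
    unfold up
    exact (Ord.map _).2 hR
  obtain ⟨d, hd⟩ := ord_cases g hν hR' ((hT ν).2 dvd_rfl)
  have h2 : up L (sm L1 c R) = sm L c (up L R) := pm_sm (IsScalarTower.toAlgHom K L1 L) c R
  rw [hd, ga_sm, ← h1, hσ, h2, sm_sm, sm_sm, mul_comm]

end

end Pool.Agent.Lib.MP_1a91b9_ntX.DG
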