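import Pool.Agent.Lib.MP_1a91b9_ntX.DG.XIso
import Pool.Agent.Lib.MP_1a91b9_ntX.DG.Root
import Pool.Agent.Lib.MP_1a91b9_ntX.DG.Grc
import Pool.Agent.Lib.MP_1a91b9_ntT.DG.Mink
import Pool.Agent.Lib.MP_1a91b9_ntT.DG.Cnt
import Pool.Agent.Lib.MP_1a91b9_ntT.DG.Pg

/-!
# isotypic units of `N` are the units `XX c`

JOB ISOU. PROOF (complete; helper30): port of MP_1a91b9_ntT/DG/IsoU.lean (the file with mechanical replacements is `IsoU.lean` in the archive `bsd_gx_ports.tgz` of the team store). The results about fields and groups of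
MP_1a91b9_ntT/DG/{Mink,Cnt,Cna,Pg}.lean do not depend on the curve and are used as they are (with their namespace `MP_1a91b9_ntT.DG`); the others are in MP_1a91b9_ntX/DG/{XIso,Root,Grc,Res}.lean. Use `h.toPD` where a lemma of MP_1a91b9_ntT about `PD` is used.
`IsCoprime μ 3` is replaced by `¬ μ ∣ pi3` (`hG.nlam`).
-/

set_option autoImplicit false
set_option linter.unusedSectionVars false

namespace Pool.Agent.Lib.MP_1a91b9_ntX.DG

open NumberField IsDedekindDomain WeierstrassCurve Pool.Agent.Lib.MP_1a91b9_ntT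
open Pool.Agent.Lib.MP_1a91b9_ntX.DB

noncomputable section

variable [DD]

section
variable {k N : Type} [Field k] [NumberField k] [Field N] [NumberField N] [Algebra k N]

/-- the quadratic equation of an element of `𝓞 K` -/
private theorem isou_alg (g : 𝓞 K) : g ^ 2 - ((Algebra.trace ℤ (𝓞 K) g : ℤ) : 𝓞 K) * g +
    ((Algebra.norm ℤ g : ℤ) : 𝓞 K) = 0 := by
  have hfr : Module.finrank ℤ (𝓞 K) = 2 := by
    rw [RingOfIntegers.rank, S3.finrank_K]
  let b : Module.Basis (Fin 2) ℤ (𝓞 K) := Module.finBasisOfFinrankEq ℤ (𝓞 K) hfr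
  have h1 := Matrix.aeval_self_charpoly (Algebra.leftMulMatrix b g)
  rw [Polynomial.aeval_algHom_apply] at h1
  have h2 : Polynomial.aeval g (Algebra.leftMulMatrix b g).charpoly = 0 :=
    Algebra.leftMulMatrix_injective b (by rw [h1, map_zero])
  rw [Matrix.charpoly_fin_two] at h2
  rw [Algebra.trace_eq_matrix_trace b, Algebra.norm_eq_matrix_det b]
  simpa using h2

private def isou_val (x : CF.SU (∅ : Set (HeightOneSpectrum (𝓞 N)))) : Nˣ :=
  Additive.toMul (x : Additive Nˣ)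

private theorem isou_val_inj {x y : CF.SU (∅ : Set (HeightOneSpectrum (𝓞 N)))}
    (h : isou_val x = isou_val y) : x = y :=
  Subtype.ext (Additive.toMul.injective h)

private theorem isou_val_add (x y : CF.SU (∅ : Set (HeightOneSpectrum (𝓞 N)))) :
    isou_val (x + y) = isou_val x * isou_val y := rfl

private theorem isou_val_sub (x y : CF.SU (∅ : Set (HeightOneSpectrum (𝓞 N)))) :
    isou_val (x - y) = isou_val x / isou_val y := rfl

private theorem isou_val_zsmul (m : ℤ) (x : CF.SU (∅ : Set (HeightOneSpectrum (𝓞 N)))) :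
    isou_val (m • x) = isou_val x ^ m := rfl

private theorem isou_val_zero : isou_val (0 : CF.SU (∅ : Set (HeightOneSpectrum (𝓞 N)))) = 1 := rfl

private theorem isou_val_sum {ι : Type*} (s : Finset ι)
    (f : ι → CF.SU (∅ : Set (HeightOneSpectrum (𝓞 N)))) :
    isou_val (∑ i ∈ s, f i) = ∏ i ∈ s, isou_val (f i) := by
  classical
  induction s using Finset.induction_on with
  | empty => rfl
  | insert a s ha ih =>
    rw [Finset.sum_insert ha, Finset.prod_insert ha, ← ih]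
    rfl

private theorem isou_od (x : CF.SU (∅ : Set (HeightOneSpectrum (𝓞 N))))
    (w : HeightOneSpectrum (𝓞 N)) : od w (isou_val x : N) = 0 := by
  rw [od_eq_ord]
  exact x.2 w (Set.notMem_empty w)

private def isou_mk (y : Nˣ) (hy : ∀ w : HeightOneSpectrum (𝓞 N), od w (y : N) = 0) :
    CF.SU (∅ : Set (HeightOneSpectrum (𝓞 N))) :=
  ⟨Additive.ofMul y, fun w _ => by rw [← od_eq_ord]; exact hy w⟩

private theorem isou_val_mk (y : Nˣ) (hy : ∀ w : HeightOneSpectrum (𝓞 N), od w (y : N) = 0) :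
    isou_val (isou_mk y hy) = y := rfl

private theorem isou_od_sg (σ : Gal(N/k)) (y : Nˣ)
    (hy : ∀ w : HeightOneSpectrum (𝓞 N), od w (y : N) = 0) (w : HeightOneSpectrum (𝓞 N)) :
    od w ((sg σ y : Nˣ) : N) = 0 := by
  have h1 : gpl σ (gpl σ⁻¹ w) = w := by rw [← gpl_mul, mul_inv_cancel, gpl_one]
  rw [← h1, sg_coe, gpl_od]
  exact hy _

/-- the action of the Galois group on the group of the units -/
private def isou_rho : Gal(N/k) →* AddMonoid.End (CF.SU (∅ : Set (HeightOneSpectrum (𝓞 N)))) where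
  toFun τ := AddMonoidHom.mk'
    (fun x => isou_mk (sg τ (isou_val x)) (isou_od_sg τ _ (isou_od x))) (by
      intro x y
      apply isou_val_inj
      exact sg_mul τ (isou_val x) (isou_val y))
  map_one' := by
    apply AddMonoidHom.ext
    intro x
    apply isou_val_inj
    exact Units.ext rfl
  map_mul' σ τ := by
    apply AddMonoidHom.ext
    intro x
    apply isou_val_inj
    exact sg_sg σ τ (isou_val x)

private theorem isou_val_rho (τ : Gal(N/k)) (x : CF.SU (∅ : Set (HeightOneSpectrum (𝓞 N)))) :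
    isou_val (isou_rho τ x) = sg τ (isou_val x) := rfl

private theorem isou_nat {t : Nˣ} {m : ℤ} (hm : m ≠ 0) (ht : t ^ m = 1) :
    ∃ m' : ℕ, m' ≠ 0 ∧ t ^ m' = 1 := by
  refine ⟨m.natAbs, Int.natAbs_ne_zero.2 hm, ?_⟩
  rcases Int.natAbs_eq m with h | h
  · rw [h, zpow_natCast] at ht
    exact ht
  · rw [h, zpow_neg, zpow_natCast, inv_eq_one] at ht
    exact ht

omit [NumberField N] in
private theorem isou_over (v : HeightOneSpectrum (𝓞 k)) :
    ∃ W : HeightOneSpectrum (𝓞 N), W.under (𝓞 k) = v := by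
  obtain ⟨P, hPm, hP⟩ := Ideal.exists_maximal_ideal_liesOver_of_isIntegral (S := 𝓞 N) v.asIdeal
  refine ⟨⟨P, hPm.isPrime, ?_⟩, ?_⟩
  · intro hb
    apply v.ne_bot
    rw [hP.over, hb]
    exact Ideal.comap_bot_of_injective _ (FaithfulSMul.algebraMap_injective (𝓞 k) (𝓞 N))
  · apply HeightOneSpectrum.ext
    exact hP.over.symm

end

section
variable {k N : Type} [Field k] [NumberField k] [Algebra K k] [Field N] [NumberField N]
  [Algebra K N] [Algebra k N] [IsScalarTower K k N] [DecidableEq N] [IsGalois k N]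
  {ϖ : 𝓞 K} {ℓ q : ℕ} (h : PD ϖ ℓ q) {P : Pt N} (hF : Full k ϖ P)
include h

private theorem isou_pow2 {a y : Nˣ} (ha : a ^ 2 = y ^ ℓ) : ∃ z : Nˣ, a = z ^ ℓ := by
  refine pow_coprime (n := 2) ?_ ⟨y, ha⟩
  have h5 := h.five
  rw [Nat.coprime_comm, Nat.Prime.coprime_iff_not_dvd h.hl]
  intro h2
  have := Nat.le_of_dvd (by norm_num) h2
  omega

include hF

private theorem isou_neg : ∃ σ : Gal(N/k), ga σ P = sm N (-1) P :=
  hF.all (-1) (by rw [dvd_neg]; exact h.prime.not_dvd_one)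

private theorem isou_root (hU : MP_1a91b9_ntT.DS.UnrL ℓ k) {t : Nˣ} {m : ℕ} (hm : m ≠ 0) (ht : t ^ m = 1)
    (hiso : Iso k ℓ P t) : ∃ z : Nˣ, t = z ^ ℓ := by
  obtain ⟨σ, hσ⟩ := isou_neg h hF
  obtain ⟨z1, h1⟩ := Iso.neg_one h hF hiso hσ
  obtain ⟨z2, h2⟩ := root_evenG h hF hU hm ht hσ
  refine isou_pow2 h (y := z1 / z2) ?_
  rw [h2] at h1
  rw [div_pow, ← h1, eq_div_iff_mul_eq', sq]
  ac_rfl

private theorem isou_quad {g : 𝓞 K} {τ : Gal(N/k)} (hτ : ga τ P = sm N g P) {y : Nˣ}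
    (hy : Iso k ℓ P y) : ∃ z : Nˣ, sg (τ ^ 2) y * (sg τ y) ^ (-Algebra.trace ℤ (𝓞 K) g) *
      y ^ (Algebra.norm ℤ g) = z ^ ℓ := by
  obtain ⟨A, hA⟩ := hy
  have e2 : el ℓ (sg (τ ^ 2) y) = A (g ^ 2) := hA (τ ^ 2) (g ^ 2) (by
    rw [pow_two, ga_mul, hτ, ga_sm, hτ, pow_two, map_mul]
    rfl)
  have e1 : el ℓ (sg τ y) = A g := hA τ g hτ
  have e0 : el ℓ y = A 1 := by
    have h1 := hA 1 1 (by
      rw [ga_one, map_one]
      rfl)
    rw [← h1]
    congr 1
  have hm : ∀ (t : ℤ) (x : 𝓞 K), t • A x = A (t • x) := fun t x => (map_zsmul A t x).symm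
  rw [← el_eq_zero, el_mul, el_mul, el_zpow, el_zpow, e2, e1, e0, hm, hm, ← map_add, ← map_add]
  have h3 : g ^ 2 + (-Algebra.trace ℤ (𝓞 K) g) • g + (Algebra.norm ℤ g) • (1 : 𝓞 K) = 0 := by
    rw [zsmul_eq_mul, zsmul_eq_mul]
    push_cast
    linear_combination isou_alg g
  rw [h3, map_zero]

private theorem isou_gen {g : 𝓞 K} (hg : ∀ c : 𝓞 K, ¬ ϖ ∣ c → ∃ i : ℕ, ϖ ∣ c - g ^ i)
    {τ : Gal(N/k)} (hτ : ga τ P = sm N g P) (σ : Gal(N/k)) : σ ∈ Subgroup.zpowers τ := by
  obtain ⟨c, _, hσ⟩ := gal_sm h.prime.ne_zero hF.ord σ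
  obtain ⟨i, hi⟩ := hg c (Full.c_ne h hF hσ)
  have h1 : ∀ i : ℕ, ga (τ ^ i) P = sm N (g ^ i) P := by
    intro i
    induction i with
    | zero =>
      rw [pow_zero, pow_zero, ga_one, map_one]
      rfl
    | succ i ih =>
      rw [pow_succ, ga_mul, hτ, ga_sm, ih, pow_succ', map_mul]
      rfl
  have h2 : ga σ P = ga (τ ^ i) P := by
    rw [hσ, h1]
    exact (hF.ord.sm_eq_iff c (g ^ i)).2 hi
  have h3 : ga ((τ ^ i)⁻¹ * σ) P = P := by
    rw [ga_mul, h2, ← ga_mul, inv_mul_cancel, ga_one]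
  have h4 := hF.gen _ h3
  refine ⟨i, ?_⟩
  show τ ^ (i : ℤ) = σ
  rw [zpow_natCast]
  exact inv_mul_eq_one.1 h4

end

/-- the restriction of scalars on automorphisms -/
private def isou_res {k N : Type} [Field k] [Algebra K k] [Field N] [Algebra K N] [Algebra k N]
    [IsScalarTower K k N] : Gal(N/k) →* Gal(N/K) where
  toFun σ := AlgEquiv.restrictScalars K σ
  map_one' := rfl
  map_mul' _ _ := rfl

private theorem isou_res_inj {k N : Type} [Field k] [Algebra K k] [Field N] [Algebra K N]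
    [Algebra k N] [IsScalarTower K k N] : Function.Injective (isou_res (k := k) (N := N)) := by
  intro σ τ h
  apply AlgEquiv.ext
  intro x
  exact congrArg (fun ρ : Gal(N/K) => ρ x) h

private theorem isou_sg_res {k N : Type} [Field k] [Algebra K k] [Field N] [Algebra K N]
    [Algebra k N] [IsScalarTower K k N] (σ : Gal(N/k)) (y : Nˣ) :
    sg (isou_res σ) y = sg σ y := Units.ext rfl

section
variable {μ : 𝓞 K} {H : Subgroup (CU μ)} {ϖ : 𝓞 K} {ℓ q : ℕ} {F N L : Type} [Field F] [NumberField F] [Algebra K F]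
  [Field N] [NumberField N] [Algebra K N] [Algebra F N] [IsScalarTower K F N] [IsGalois F N]
  [DecidableEq N] [Field L] [NumberField L] [Algebra K L] [Algebra F L] [Algebra N L]
  [IsScalarTower K F L] [IsScalarTower K N L] [IsScalarTower F N L] [DecidableEq L]
  {P : Pt N} {J : Pt L} (hG : TopG H ϖ ℓ q F N L P J)
include hG

variable [Fintype (U H)] {T : Finset (𝓞 K)} {iv : 𝓞 K → 𝓞 K} {n : 𝓞 K → ℤ}
  (hT : TrD ϖ ℓ T iv n)
include hT

private theorem isou_unit {c : U H → 𝓞 K} (hc : BI N ϖ J c) : ∃ x : Nˣ,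
    (∀ w : HeightOneSpectrum (𝓞 N), od w (x : N) = 0) ∧
      algebraMap N L (x : N) = XX T iv n (up L P) J c := by
  obtain ⟨x, hx⟩ := hG.XX_desc hT hc
  have hx0 : x ≠ 0 := by
    rintro rfl
    rw [map_zero] at hx
    exact XX_ne_zero hG.pd hT hG.ordP hG.copw hG.nlam hG.ord c hx.symm
  refine ⟨Units.mk0 x hx0, fun w => ?_, hx⟩
  obtain ⟨W, hW⟩ := isou_over (k := N) (N := L) w
  have h1 : W.valuation L (algebraMap N L x) = 1 := by
    rw [hx]
    exact XX_val hG.pd hT hG.ordP hG.copw hG.nlam hG.ord _ c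
  rw [val_map_eq, hW] at h1
  exact (val_eq_one_iff w hx0).1 h1

end

section
variable {μ : 𝓞 K} {H : Subgroup (CU μ)} {ϖ : 𝓞 K} {ℓ q : ℕ} {F N L : Type} [Field F] [NumberField F] [Algebra K F]
  [Field N] [NumberField N] [Algebra K N] [Algebra F N] [IsScalarTower K F N] [IsGalois F N]
  [DecidableEq N] [Field L] [NumberField L] [Algebra K L] [Algebra F L] [Algebra N L]
  [IsScalarTower K F L] [IsScalarTower K N L] [IsScalarTower F N L] [DecidableEq L]
  {P : Pt N} {J : Pt L} (hG : TopG H ϖ ℓ q F N L P J)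
include hG

variable [Fintype (U H)] {T : Finset (𝓞 K)} {iv : 𝓞 K → 𝓞 K} {n : 𝓞 K → ℤ}
  (hT : TrD ϖ ℓ T iv n) (hU : MP_1a91b9_ntT.DS.UnrL ℓ F) (hnd : ND N H ϖ J)
include hT hU hnd

theorem TopG.ne_root {e : U H → 𝓞 K} (he : BI N ϖ J e) {x y t : Nˣ}
    (hx : algebraMap N L (x : N) = XX T iv n (up L P) J e) {m : ℕ} (hm : m ≠ 0)
    (ht : t ^ m = 1) (hxy : x = y ^ ℓ * t) (u : U H) : ϖ ∣ e u := by
  obtain ⟨σ, hσ⟩ := isou_neg hG.pd hG.full
  obtain ⟨z1, h1⟩ := Iso.neg_one hG.pd hG.full (hG.XN_iso hT he hx) hσ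
  obtain ⟨z2, h2⟩ := root_evenG hG.pd hG.full hU hm ht hσ
  obtain ⟨s, hs⟩ := isou_pow2 (N := N) hG.pd (a := t) (y := z1 / (sg σ y * z2 * y)) (by
    rw [div_pow, eq_div_iff_mul_eq', ← h1, hxy, sg_mul, sg_pow, h2, mul_pow, mul_pow, sq]
    ac_rfl)
  refine hG.ne_pow hT hnd he ⟨algebraMap N L ((y * s : Nˣ) : N), ?_⟩ u
  rw [← hx, ← map_pow, ← Units.val_pow_eq_pow_val, mul_pow, ← hs, hxy]

private theorem isou_diff {c c' : U H → 𝓞 K} (hc : BI N ϖ J c) (hc' : BI N ϖ J c') {x x' z t : Nˣ}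
    (hx : algebraMap N L (x : N) = XX T iv n (up L P) J c)
    (hx' : algebraMap N L (x' : N) = XX T iv n (up L P) J c') {m : ℕ} (hm : m ≠ 0)
    (ht : t ^ m = 1) (he : x / x' = z ^ ℓ * t) (u : U H) : ϖ ∣ c u - c' u := by
  have hbi : BI N ϖ J (fun u => c u + -c' u) := by
    intro b u hb
    have h1 := dvd_sub (hc b u hb) (hc' b u hb)
    have h2 : c (u * b) + -c' (u * b) - (c u + -c' u) =
        c (u * b) - c u - (c' (u * b) - c' u) := by ring
    rw [h2]
    exact h1
  obtain ⟨x2, -, hx2⟩ := isou_unit hG hT hbi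
  obtain ⟨z1, hz1, -, hz⟩ := XX_add hG.pd hT hG.ordP hG.copw hG.nlam hG.ord c (fun u => -c' u)
  rw [XX_neg hG.pd hT hG.ordP hG.copw hG.nlam hG.ord, ← hx, ← hx', ← hx2] at hz
  have h3 : ∃ z : L, algebraMap N L ((x2 * x' / x : Nˣ) : N) = z ^ ℓ := by
    refine ⟨z1, ?_⟩
    have hx0 : algebraMap N L (x : N) ≠ 0 := (map_ne_zero _).2 x.ne_zero
    have hx0' : algebraMap N L (x' : N) ≠ 0 := (map_ne_zero _).2 x'.ne_zero
    rw [Units.val_div_eq_div_val, Units.val_mul, map_div₀, map_mul, hz, div_eq_iff hx0]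
    field_simp
  obtain ⟨s, hs⟩ := hG.desc_pow (Units.ne_zero _) h3
  have hs0 : s ≠ 0 := by
    rintro rfl
    rw [zero_pow hG.pd.hl.ne_zero] at hs
    exact (Units.ne_zero _) hs
  have h4 : x2 * x' / x = (Units.mk0 s hs0) ^ ℓ := Units.ext hs
  have h5 : x2 = (Units.mk0 s hs0 * z) ^ ℓ * t := by
    rw [mul_pow, mul_assoc, ← he, ← h4]
    simp
  have h6 := hG.ne_root hT hU hnd hbi hx2 hm ht h5 u
  rwa [← sub_eq_add_neg] at h6

set_option maxHeartbeats 4000000 in
theorem TopG.iso_unitG {ε : Nˣ} (hε : ∀ w : HeightOneSpectrum (𝓞 N), od w (ε : N) = 0)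
    (hiso : Iso F ℓ P ε) : ∃ (c : U H → 𝓞 K) (x z : Nˣ), BI N ϖ J c ∧
      algebraMap N L (x : N) = XX T iv n (up L P) J c ∧ ε = x * z ^ ℓ := by
  classical
  have h := hG.pd
  have hF := hG.full
  have hgal : IsGalois K N := hG.galN
  obtain ⟨g, hg1, hg2, hg3⟩ := MP_1a91b9_ntT.DG.exists_primgenG h.toPD
  obtain ⟨τF, hτ⟩ := hF.all g hg2
  have hcard := Full.card h hF
  have hq5 := PD.q_five h
  have hfin : Module.finrank F N = q - 1 := by omega
  have hfr : Module.finrank K F * Module.finrank F N = Module.finrank K N :=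
    Module.finrank_mul_finrank K F N
  have hF0 : 0 < Module.finrank K F := Module.finrank_pos
  have hG1 : Fintype.card Gal(N/K) = Module.finrank K N := by
    rw [← Nat.card_eq_fintype_card]
    exact IsGalois.card_aut_eq_finrank K N
  have hord : orderOf (isou_res τF) = q - 1 := by
    rw [orderOf_injective isou_res isou_res_inj τF,
      orderOf_eq_card_of_forall_mem_zpowers (isou_gen h hF hg1 hτ),
      IsGalois.card_aut_eq_finrank, hfin]
  have hrank : Module.finrank ℤ (CF.SU (∅ : Set (HeightOneSpectrum (𝓞 N)))) + 1 =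
      Fintype.card Gal(N/K) := by
    rw [hG1]
    exact unit_rank (k := K) (N := N) Function.bijective_id rfl
  have hMfin : Module.Finite ℤ (CF.SU (∅ : Set (HeightOneSpectrum (𝓞 N)))) :=
    CF.su_finite ∅ Set.finite_empty
  obtain ⟨u, hu1, hu2⟩ := MP_1a91b9_ntT.DG.minkowskiG (N := N) (by rw [← hfr, hfin]; nlinarith [Nat.sub_add_cancel (by omega : 1 ≤ q)])
  have hqr : ∃ r : ℕ, q = ℓ ^ r := by
    rcases h.alt with h1 | h1
    · exact ⟨1, by rw [pow_one]; exact h1⟩
    · exact ⟨2, h1⟩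
  obtain ⟨r, hr⟩ := hqr
  obtain ⟨C, hC1, hC2, hC3⟩ := hG.exists_C
  -- the elements
  have hex : ∀ c : U H → 𝓞 K, ∃ x : Nˣ, (∀ w : HeightOneSpectrum (𝓞 N), od w (x : N) = 0) ∧
      (BI N ϖ J c → algebraMap N L (x : N) = XX T iv n (up L P) J c) := by
    intro c
    by_cases hc : BI N ϖ J c
    · obtain ⟨x, h1, h2⟩ := isou_unit hG hT hc
      exact ⟨x, h1, fun _ => h2⟩
    · refine ⟨1, fun w => ?_, fun h1 => absurd h1 hc⟩
      exact (val_eq_one_iff w (Units.ne_zero _)).1 (by rw [Units.val_one, map_one])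
  choose X hX1 hX2 using hex
  let f : (U H → 𝓞 K) → CF.SU (∅ : Set (HeightOneSpectrum (𝓞 N))) := fun c => isou_mk (X c) (hX1 c)
  have hff : ∀ c ∈ C, ∀ d ∈ C, c ≠ d →
      ¬ ∃ (z t : CF.SU (∅ : Set (HeightOneSpectrum (𝓞 N)))) (m : ℤ), m ≠ 0 ∧ m • t = 0 ∧
        f c - f d = (ℓ : ℤ) • z + t := by
    rintro c hc d hd hcd ⟨z, t, m, hm, ht, he⟩
    apply hcd
    apply hC3 c hc d hd
    have h1 : (isou_val t) ^ m = 1 := by rw [← isou_val_zsmul, ht, isou_val_zero]
    obtain ⟨m', hm', ht'⟩ := isou_nat hm h1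
    refine isou_diff hG hT hU hnd (hC2 c hc) (hC2 d hd) (hX2 c (hC2 c hc)) (hX2 d (hC2 d hd))
      (z := isou_val z) hm' ht' ?_
    have h2 := congrArg isou_val he
    rw [isou_val_sub, isou_val_add, isou_val_zsmul, zpow_natCast, isou_val_mk, isou_val_mk] at h2
    exact h2
  by_cases hε' : ∃ c ∈ C, ∃ (z t : CF.SU (∅ : Set (HeightOneSpectrum (𝓞 N)))) (m : ℤ),
      m ≠ 0 ∧ m • t = 0 ∧ isou_mk ε hε - f c = (ℓ : ℤ) • z + t
  · obtain ⟨c, hcC, z, t, m, hm, ht, he⟩ := hε'
    have h1 : (isou_val t) ^ m = 1 := by rw [← isou_val_zsmul, ht, isou_val_zero]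
    obtain ⟨m', hm', ht'⟩ := isou_nat hm h1
    have h2 := congrArg isou_val he
    rw [isou_val_sub, isou_val_add, isou_val_zsmul, zpow_natCast, isou_val_mk, isou_val_mk] at h2
    have h3 : ε = X c * (isou_val z) ^ ℓ * isou_val t := by
      rw [div_eq_iff_eq_mul'] at h2
      rw [h2, mul_assoc]
    have h4 : isou_val t = ε * (X c)⁻¹ * ((isou_val z) ^ ℓ)⁻¹ := by
      rw [eq_mul_inv_iff_mul_eq, eq_mul_inv_iff_mul_eq, h3]
      ac_rfl
    have h5 : Iso F ℓ P (isou_val t) := by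
      rw [h4]
      exact Iso.mul h hF (Iso.mul h hF hiso (Iso.inv h hF (hG.XN_iso hT (hC2 c hcC)
        (hX2 c (hC2 c hcC))))) (Iso.inv h hF (Iso.pow_ell h hF _))
    obtain ⟨z', hz'⟩ := isou_root h hF hU hm' ht' h5
    refine ⟨c, X c, isou_val z * z', hC2 c hcC, hX2 c (hC2 c hcC), ?_⟩
    rw [h3, hz', mul_pow, mul_assoc]
  · exfalso
    push Not at hε'
    have hYcard : (insert (isou_mk ε hε) (C.image f)).card ≤ q ^ Module.finrank K F := by
      refine MP_1a91b9_ntT.DG.count_absG (isou_rho (k := K)) hrank (u := isou_mk u hu1) ?_ (isou_res τF)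
        (n := q - 1) (n0 := Module.finrank K F) hord ?_ h.hl hr (g := g) hg3 _ ?_ ?_
      · rintro c ⟨m, hm, hc⟩
        refine hu2 c ⟨m, hm, ?_⟩
        have h2 := congrArg isou_val hc
        rw [isou_val_zsmul, isou_val_sum, isou_val_zero] at h2
        exact h2
      · rw [hG1, ← hfr, hfin]
      · intro y hy
        have hyiso : Iso F ℓ P (isou_val y) := by
          rw [Finset.mem_insert, Finset.mem_image] at hy
          rcases hy with hy | ⟨c, hc, hy⟩
          · rw [hy]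
            exact hiso
          · rw [← hy]
            exact hG.XN_iso hT (hC2 c hc) (hX2 c (hC2 c hc))
        obtain ⟨z, hz⟩ := isou_quad h hF hτ hyiso
        have hz2 : isou_val (isou_rho (isou_res τF ^ 2) y +
            (-Algebra.trace ℤ (𝓞 K) g) • isou_rho (isou_res τF) y +
              Algebra.norm ℤ g • y) = z ^ ℓ := by
          rw [isou_val_add, isou_val_add, isou_val_zsmul, isou_val_zsmul, isou_val_rho,
            isou_val_rho, ← map_pow, isou_sg_res, isou_sg_res]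
          exact hz
        have hzod : ∀ w : HeightOneSpectrum (𝓞 N), od w (z : N) = 0 := by
          intro w
          have h2 := isou_od (isou_rho (isou_res τF ^ 2) y +
            (-Algebra.trace ℤ (𝓞 K) g) • isou_rho (isou_res τF) y + Algebra.norm ℤ g • y) w
          rw [hz2, Units.val_pow_eq_pow_val, od_pow] at h2
          rcases mul_eq_zero.1 h2 with h3 | h3
          · exact absurd (Nat.cast_eq_zero.1 h3) h.hl.ne_zero
          · exact h3
        refine ⟨isou_mk z hzod, 0, 1, one_ne_zero, smul_zero _, ?_⟩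
        apply isou_val_inj
        rw [sub_eq_add_neg, ← neg_smul, hz2, isou_val_add, isou_val_zsmul, isou_val_zero, mul_one,
          isou_val_mk, zpow_natCast]
      · intro y hy y' hy' hne
        rw [Finset.mem_insert, Finset.mem_image] at hy hy'
        rcases hy with hy | ⟨c, hc, hy⟩
        · rcases hy' with hy' | ⟨d, hd, hy'⟩
          · exact absurd (hy.trans hy'.symm) hne
          · rintro ⟨z, t, m, hm, ht, he⟩
            rw [hy, ← hy'] at he
            exact hε' d hd z t m hm ht he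
        · rcases hy' with hy' | ⟨d, hd, hy'⟩
          · rintro ⟨z, t, m, hm, ht, he⟩
            rw [← hy, hy'] at he
            refine hε' c hc (-z) (-t) m hm (by rw [zsmul_neg, ht, neg_zero]) ?_
            rw [← neg_sub, he, neg_add, zsmul_neg]
          · rw [← hy, ← hy']
            refine hff c hc d hd ?_
            intro hcd
            apply hne
            rw [← hy, ← hy', hcd]
    have hinj : Set.InjOn f (C : Set (U H → 𝓞 K)) := by
      intro c hc d hd hcd
      by_contra hne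
      refine hff c hc d hd hne ⟨0, 0, 1, one_ne_zero, smul_zero _, ?_⟩
      rw [hcd, sub_self, smul_zero, add_zero]
    have hnot : isou_mk ε hε ∉ C.image f := by
      intro hmem
      obtain ⟨c, hc, hce⟩ := Finset.mem_image.1 hmem
      refine hε' c hc 0 0 1 one_ne_zero (smul_zero _) ?_
      rw [hce, sub_self, smul_zero, add_zero]
    rw [Finset.card_insert_of_notMem hnot, Finset.card_image_of_injOn hinj, hC1] at hYcard
    omega

end

end

end Pool.Agent.Lib.MP_1a91b9_ntX.DG
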