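import Pool.Agent.Lib.MP_1a91b9_ntX.DG.Defs

/-!
# The Hecke character is ramified at the prime above three

JOB LAMR. PROOF (complete; helper30). `ps = HC.ps`, `HC.hd : HDat D f ps` (HD.lean).
(1) For a place `P` of `K` not dividing `6 D` let `N = absNorm P`; `6 ∣ N - 1` (copy the private lemma `frobU_card` of DB/FrobU.lean). `HC.hd.sym P`: a unit `u` with `u - (4 D)^((N-1)/6) ∈ P`, `3 ∣ u ps(P) - 1`. `u^6 = 1` (private
lemma `frobU_six` there), so `u^3 = ±1` and `u^3 = (4 D)^((N-1)/2) = 2^(N-1) D^((N-1)/2) = D^((N-1)/2)` modulo `P` (`2^(N-1) = 1` modulo `P`: the residue field has `N` elements, `2 ∉ P`). And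
`D^((N-1)/2) = jacobiSym D N` modulo `P`: `N = p` or `N = p^2` with `p` a rational prime in `P` (the degree is `≤ 2`; e.g. `p` below `P`, `P ∣ (p)` of norm `p^2`, `N ≠ 1`), `p` odd. If `N = p`: `legendreSym.eq_pow` (`legendreSym p D = D^((p-1)/2)` in
`ZMod p`, i.e. the difference is divisible by `p ∈ P`), `jacobiSym.legendreSym.to_jacobiSym`. If `N = p^2`: `jacobiSym D (p^2) = (jacobiSym D p)^2 = 1` (`jacobiSym.pow_right`; `p ∤ D`), `D^((p^2-1)/2) = (D^(p-1))^((p+1)/2) = 1` modulo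
`p` (Fermat). Both `u^3` and the symbol are `±1` and `2 ∉ P`, so `u^3 = jacobiSym D N`. With `β = u ps(P)`, `3 ∣ β - 1`, `(β) = P` (`ps_span`): `ps(P)^3 = u^-3 β^3 = jacobiSym D N * β^3`.
(2) By induction on the factorization (`UniqueFactorizationMonoid.induction_on_coprime`/`induction_on_prime`, or `Ideal` version; every ideal `I ≠ 0` prime to `(6 D)` is a product of such `P`): there is `β` with `(β) = I`, `3 ∣ β - 1`,
`ps(I)^3 = jacobiSym D (absNorm I) * β^3` (`HC.hd.mul`, `HC.hd.one`, `jacobiSym.mul_right`, `Ideal.absNorm` multiplicative).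
(3) Write `D = 3^b D'` with `3 ∤ D'` (`Int` version: `D ≠ 0`; `multiplicity`, `exists_eq_pow_mul_and_not_dvd`). Since `M * (4 D')` is coprime to `pi3` (`pi3 ∤ M`; `pi3 ∣ n ↔ 3 ∣ n` for integers), so to `3^(b+1)`, there is `α` with `M * (4 D') ∣ α - 1` and
`3^(b+1) ∣ α + 1`. `α` is coprime to `6 D` (modulo `2`, `D'`: it is `1`; modulo `3`: `-1`), so to `f`: every prime ideal containing `f` contains `6 D` (`HC.hd.good`), hence coprime. `n = absNorm (α) = α * cj α` (`mul_cj`, MP_1a91b9_ntT.DX) is `1` modulo the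
integer `4 D'` and `1` modulo `3^(b+1)` (if `m ∣ α - e`, `e = ±1`, `m` an integer, then `m ∣ cj α - e`, `m ∣ α cj α - 1` in `𝓞 K`, so in `ℤ`), so `4 |D| ∣ n - 1` and `jacobiSym D n = jacobiSym D (n % (4 |D|)) = jacobiSym D 1 = 1` (`jacobiSym.mod_right`, `n` is odd).
By (2) `ps((α))^3 = β^3`, `(β) = (α)`, `β = η α`, `η` a unit; `3 ∣ β - 1`, `3 ∣ α + 1`: `3 ∣ η + 1`, so `η = -1` (the units are `± om^i`, different modulo `3`; e.g. `unit_inj`-like, or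
`S4` lemmas: a unit `= 1` modulo `3` is `1`). So `ps((α))^3 = -α^3 ≠ α^3` (`α ≠ 0`), and `ps((α)) ≠ α`.
-/

set_option autoImplicit false

namespace Pool.Agent.Lib.MP_1a91b9_ntX.DG

open NumberField IsDedekindDomain WeierstrassCurve Pool.Agent.Lib.MP_1a91b9_ntT
open Pool.Agent.Lib.MP_1a91b9_ntX.DB

noncomputable section

private theorem lamR_six (u : (𝓞 K)ˣ) : u ^ 6 = 1 := by
  have h := IsCyclotomicExtension.Rat.Three.Units.mem om_spec u
  obtain ⟨η, hη⟩ : ∃ η : (𝓞 K)ˣ, η =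
    (IsPrimitiveRoot.isUnit (om_spec.toInteger_isPrimitiveRoot) (by decide)).unit := ⟨_, rfl⟩
  rw [← hη] at h
  have h3 : η ^ 3 = 1 := by
    ext
    rw [Units.val_pow_eq_pow_val, hη, IsUnit.unit_spec, om_spec.toInteger_cube_eq_one,
      Units.val_one]
  have h6 : η ^ 6 = 1 := by
    rw [show 6 = 3 * 2 by rfl, pow_mul, h3, one_pow]
  simp only [List.mem_cons, List.not_mem_nil, or_false] at h
  rcases h with h | h | h | h | h | h
  · rw [h, one_pow]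
  · rw [h, Even.neg_pow (by decide), one_pow]
  · rw [h, h6]
  · rw [h, Even.neg_pow (by decide), h6]
  · rw [h, ← pow_mul, mul_comm, pow_mul, h6, one_pow]
  · rw [h, Even.neg_pow (by decide), ← pow_mul, mul_comm, pow_mul, h6, one_pow]

private theorem lamR_card (p : HeightOneSpectrum (𝓞 K)) (h2 : (2 : 𝓞 K) ∉ p.asIdeal)
    (h3 : (3 : 𝓞 K) ∉ p.asIdeal) : ∃ e, Ideal.absNorm p.asIdeal = 1 + 6 * e := by
  classical
  have i1 : p.asIdeal.IsMaximal := p.isMaximal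
  let _ : Field (𝓞 K ⧸ p.asIdeal) := Ideal.Quotient.field _
  have i2 : Finite (𝓞 K ⧸ p.asIdeal) := Ideal.finiteQuotientOfFreeOfNeBot _ p.ne_bot
  obtain ⟨η, hη⟩ : ∃ η : 𝓞 K, η = om_spec.toInteger := ⟨_, rfl⟩
  have hη2 : η ^ 2 + η + 1 = 0 := by rw [hη]; exact S4.omO_eq
  have hη3 : η ^ 3 = 1 := by linear_combination (η - 1) * hη2
  obtain ⟨x, hx⟩ : ∃ x : 𝓞 K ⧸ p.asIdeal, x = Ideal.Quotient.mk p.asIdeal (-η) := ⟨_, rfl⟩
  have hx6 : x ^ 6 = 1 := by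
    rw [hx, ← map_pow, show (-η) ^ 6 = 1 by linear_combination (η ^ 3 + 1) * hη3, map_one]
  have hx2 : x ^ 2 ≠ 1 := by
    intro h
    have h5 : η ^ 2 - 1 ∈ p.asIdeal := by
      rw [← Ideal.Quotient.eq_zero_iff_mem, map_sub, map_one, sub_eq_zero,
        show η ^ 2 = (-η) ^ 2 by ring, map_pow, ← hx]
      exact h
    apply h3
    have e1 : (3 : 𝓞 K) = (η - 1) * (η ^ 2 - 1) := by linear_combination -hη3 + hη2
    rw [e1]
    exact Ideal.mul_mem_left _ _ h5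
  have hx3 : x ^ 3 ≠ 1 := by
    intro h
    have h5 : (-η) ^ 3 - 1 ∈ p.asIdeal := by
      rw [← Ideal.Quotient.eq_zero_iff_mem, map_sub, map_one, sub_eq_zero, map_pow, ← hx]
      exact h
    apply h2
    have e1 : (2 : 𝓞 K) = -((-η) ^ 3 - 1) := by linear_combination -hη3
    rw [e1]
    exact (Ideal.neg_mem_iff _).2 h5
  have hx0 : x ≠ 0 := by
    rintro h
    rw [h] at hx6
    simp at hx6
  have hord : orderOf (Units.mk0 x hx0) = 6 := by
    refine orderOf_eq_of_pow_and_pow_div_prime (by norm_num) ?_ ?_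
    · exact Units.ext (by rw [Units.val_pow_eq_pow_val, Units.val_mk0, Units.val_one]; exact hx6)
    · intro r hr hr6 hcon
      have h7 := congrArg Units.val hcon
      rw [Units.val_pow_eq_pow_val, Units.val_mk0, Units.val_one] at h7
      have h8 : r ∣ 2 * 3 := hr6
      rcases (Nat.Prime.dvd_mul hr).1 h8 with h9 | h9
      · rw [(Nat.prime_dvd_prime_iff_eq hr Nat.prime_two).1 h9] at h7
        exact hx3 h7
      · rw [(Nat.prime_dvd_prime_iff_eq hr Nat.prime_three).1 h9] at h7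
        exact hx2 h7
  have hdvd : 6 ∣ Nat.card (𝓞 K ⧸ p.asIdeal)ˣ := by
    rw [← hord]
    exact orderOf_dvd_natCard _
  rw [Nat.card_units] at hdvd
  have hcard : Nat.card (𝓞 K ⧸ p.asIdeal) = Ideal.absNorm p.asIdeal := rfl
  rw [hcard] at hdvd
  have hpos : 0 < Ideal.absNorm p.asIdeal := by
    rw [Nat.pos_iff_ne_zero, Ne, Ideal.absNorm_eq_zero_iff]
    exact p.ne_bot
  obtain ⟨e, he⟩ := hdvd
  exact ⟨e, by omega⟩

private theorem lamR_mem {P : Ideal (𝓞 K)} {p : ℕ} (hp : ((p : ℕ) : 𝓞 K) ∈ P) {z : ℤ}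
    (h : (p : ℤ) ∣ z) : ((z : ℤ) : 𝓞 K) ∈ P := by
  obtain ⟨c, hc⟩ := h
  rw [hc, Int.cast_mul, Int.cast_natCast]
  exact P.mul_mem_right _ hp

private theorem lamR_exists (P : HeightOneSpectrum (𝓞 K)) :
    ∃ p : ℕ, p.Prime ∧ ((p : ℕ) : 𝓞 K) ∈ P.asIdeal := by
  classical
  have i1 : P.asIdeal.IsMaximal := P.isMaximal
  let _ : Field (𝓞 K ⧸ P.asIdeal) := Ideal.Quotient.field _
  have i2 : Finite (𝓞 K ⧸ P.asIdeal) := Ideal.finiteQuotientOfFreeOfNeBot _ P.ne_bot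
  obtain ⟨p, hp⟩ := CharP.exists (𝓞 K ⧸ P.asIdeal)
  refine ⟨p, (CharP.char_is_prime_or_zero (𝓞 K ⧸ P.asIdeal) p).resolve_right
    (CharP.char_ne_zero_of_finite (𝓞 K ⧸ P.asIdeal) p), ?_⟩
  rw [← Ideal.Quotient.eq_zero_iff_mem, map_natCast]
  exact CharP.cast_eq_zero (𝓞 K ⧸ P.asIdeal) p

/-- Euler's criterion for the norm of a place -/
private theorem lamR_jac (a : ℤ) (P : HeightOneSpectrum (𝓞 K)) (ha : ((a : ℤ) : 𝓞 K) ∉ P.asIdeal)
    (e : ℕ) (he : Ideal.absNorm P.asIdeal = 1 + 6 * e) :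
    ((a : ℤ) : 𝓞 K) ^ (3 * e) - ((jacobiSym a (Ideal.absNorm P.asIdeal) : ℤ) : 𝓞 K) ∈
      P.asIdeal ∧ (jacobiSym a (Ideal.absNorm P.asIdeal) = 1 ∨
        jacobiSym a (Ideal.absNorm P.asIdeal) = -1) := by
  obtain ⟨p, hp, hpP⟩ := lamR_exists P
  have hpf : Fact p.Prime := ⟨hp⟩
  have ha0 : ((a : ℤ) : ZMod p) ≠ 0 := by
    intro h
    exact ha (lamR_mem hpP ((ZMod.intCast_zmod_eq_zero_iff_dvd a p).1 h))
  have hleg := legendreSym.eq_one_or_neg_one p ha0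
  have hJ : jacobiSym a p = legendreSym p a := (jacobiSym.legendreSym.to_jacobiSym p a).symm
  have hdvd : (p : ℤ) ∣ a ^ (p / 2) - legendreSym p a := by
    rw [← ZMod.intCast_zmod_eq_zero_iff_dvd, Int.cast_sub, Int.cast_pow, legendreSym.eq_pow,
      sub_self]
  have h1 : Ideal.absNorm P.asIdeal ∣ p ^ 2 := by
    rw [← S4.u4_absNorm_p (K := K) p]
    exact Ideal.absNorm_dvd_absNorm_of_le
      ((Ideal.span_singleton_le_iff_mem _).2 hpP)
  obtain ⟨k, hk, hk'⟩ := (Nat.dvd_prime_pow hp).1 h1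
  have hN1 : Ideal.absNorm P.asIdeal ≠ 1 := by
    rw [Ne, Ideal.absNorm_eq_one_iff]
    exact P.isPrime.ne_top
  have hk3 : k = 1 ∨ k = 2 := by
    rcases Nat.eq_zero_or_pos k with h0 | h0
    · rw [h0, pow_zero] at hk'
      exact absurd hk' hN1
    · omega
  rcases hk3 with h | h
  · rw [h, pow_one] at hk'
    rw [hk', hJ]
    have h2 : 3 * e = p / 2 := by omega
    rw [h2, ← Int.cast_pow, ← Int.cast_sub]
    exact ⟨lamR_mem hpP hdvd, hleg⟩
  · rw [h] at hk'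
    rw [hk', jacobiSym.pow_right, hJ]
    have hsq : legendreSym p a ^ 2 = 1 := by
      rcases hleg with h3 | h3 <;> rw [h3] <;> norm_num
    rw [hsq, Int.cast_one]
    refine ⟨?_, Or.inl rfl⟩
    have hodd : p % 2 = 1 := by
      rcases hp.eq_two_or_odd with h4 | h4
      · rw [h4] at hk'
        omega
      · exact h4
    obtain ⟨r, hr⟩ : ∃ r, p = 2 * r + 1 := ⟨p / 2, by omega⟩
    have hr2 : p / 2 = r := by omega
    have h5 : 3 * e = r * (2 * (r + 1)) := by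
      have h6 : 6 * e = 2 * (r * (2 * (r + 1))) := by
        have h7 : 1 + 6 * e = (2 * r + 1) ^ 2 := by rw [← he, hk', hr]
        nlinarith
      omega
    have h8 : (p : ℤ) ∣ a ^ (3 * e) - 1 := by
      have h9 : (p : ℤ) ∣ (a ^ (p / 2)) ^ (2 * (r + 1)) - (legendreSym p a) ^ (2 * (r + 1)) :=
        hdvd.trans (sub_dvd_pow_sub_pow _ _ _)
      rw [pow_mul (legendreSym p a), hsq, one_pow, hr2, ← pow_mul, ← h5] at h9
      exact h9
    have h10 := lamR_mem hpP h8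
    rwa [Int.cast_sub, Int.cast_pow, Int.cast_one] at h10

private theorem lamR_int_dvd {m z : ℤ} (h : ((m : ℤ) : 𝓞 K) ∣ ((z : ℤ) : 𝓞 K)) : m ∣ z := by
  have h1 : ((m.natAbs : ℕ) : 𝓞 K) ∣ ((z.natAbs : ℕ) : 𝓞 K) := by
    have e1 : ∀ x : ℤ, ((x.natAbs : ℕ) : 𝓞 K) = (x : 𝓞 K) ∨ ((x.natAbs : ℕ) : 𝓞 K) = -(x : 𝓞 K) := by
      intro x
      rcases Int.natAbs_eq x with h2 | h2
      · left
        conv_rhs => rw [h2]
        rw [Int.cast_natCast]
      · right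
        conv_rhs => rw [h2]
        rw [Int.cast_neg, Int.cast_natCast, neg_neg]
    rcases e1 m with h2 | h2 <;> rcases e1 z with h3 | h3 <;> rw [h2, h3]
    · exact h
    · rwa [dvd_neg]
    · rwa [neg_dvd]
    · rwa [dvd_neg, neg_dvd]
  have h4 := Ideal.absNorm_dvd_absNorm_of_le ((Ideal.span_singleton_le_span_singleton).mpr h1)
  rw [S4.u4_absNorm_p (K := K), S4.u4_absNorm_p (K := K)] at h4
  exact Int.natAbs_dvd_natAbs.1 ((Nat.pow_dvd_pow_iff two_ne_zero).1 h4)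

private theorem lamR_pi3_int {m : ℤ} (h : ¬ (3 : ℤ) ∣ m) : ¬ pi3 ∣ ((m : ℤ) : 𝓞 K) := by
  intro h1
  have h2 : IsCoprime (3 : ℤ) m := (Int.prime_three.irreducible.coprime_iff_not_dvd).2 h
  have h3 : IsCoprime (3 : 𝓞 K) ((m : ℤ) : 𝓞 K) := by
    have h4 := h2.map (Int.castRingHom (𝓞 K))
    rw [eq_intCast, eq_intCast] at h4
    have h5 : (((3 : ℤ)) : 𝓞 K) = 3 := by norm_num
    rw [h5] at h4
    exact h4
  obtain ⟨u, v, huv⟩ := h3
  refine prime_pi3.not_isUnit (isUnit_of_dvd_one ?_)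
  rw [← huv]
  exact dvd_add (Dvd.dvd.mul_left pi3_dvd_three _) (Dvd.dvd.mul_left h1 _)

variable [DD] [HC]

private theorem lamR_prime (P : HeightOneSpectrum (𝓞 K))
    (h : ((6 * DD.D : ℤ) : 𝓞 K) ∉ P.asIdeal) : ∃ β : 𝓞 K, Ideal.span {β} = P.asIdeal ∧
      (3 : 𝓞 K) ∣ β - 1 ∧ ps P.asIdeal ^ 3 =
        ((jacobiSym (4 * DD.D) (Ideal.absNorm P.asIdeal) : ℤ) : 𝓞 K) * β ^ 3 := by
  have h2 : (2 : 𝓞 K) ∉ P.asIdeal := by
    intro h1
    apply h
    have e1 : ((6 * DD.D : ℤ) : 𝓞 K) = 2 * ((3 * DD.D : ℤ) : 𝓞 K) := by push_cast; ring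
    rw [e1]
    exact P.asIdeal.mul_mem_right _ h1
  have h3 : (3 : 𝓞 K) ∉ P.asIdeal := by
    intro h1
    apply h
    have e1 : ((6 * DD.D : ℤ) : 𝓞 K) = 3 * ((2 * DD.D : ℤ) : 𝓞 K) := by push_cast; ring
    rw [e1]
    exact P.asIdeal.mul_mem_right _ h1
  have h4 : ((4 * DD.D : ℤ) : 𝓞 K) ∉ P.asIdeal := by
    intro h1
    have e1 : ((4 * DD.D : ℤ) : 𝓞 K) = 2 * (2 * ((DD.D : ℤ) : 𝓞 K)) := by push_cast; ring
    rw [e1] at h1
    rcases P.isPrime.mem_or_mem h1 with h5 | h5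
    · exact h2 h5
    · rcases P.isPrime.mem_or_mem h5 with h6 | h6
      · exact h2 h6
      · apply h
        have e2 : ((6 * DD.D : ℤ) : 𝓞 K) = 6 * ((DD.D : ℤ) : 𝓞 K) := by push_cast; ring
        rw [e2]
        exact P.asIdeal.mul_mem_left _ h6
  obtain ⟨e, he⟩ := lamR_card P h2 h3
  obtain ⟨hj, hj1⟩ := lamR_jac (4 * DD.D) P h4 e he
  obtain ⟨u, hu, hu3⟩ := HC.hd.sym P h
  have he' : (Ideal.absNorm P.asIdeal - 1) / 6 = e := by omega
  rw [he'] at hu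
  generalize jacobiSym (4 * DD.D) (Ideal.absNorm P.asIdeal) = s at hj hj1 ⊢
  have hu6 : ((u : 𝓞 K) ^ 3 - 1) * ((u : 𝓞 K) ^ 3 + 1) = 0 := by
    have h5 := congrArg Units.val (lamR_six u)
    rw [Units.val_pow_eq_pow_val, Units.val_one] at h5
    linear_combination h5
  have hmem : (u : 𝓞 K) ^ 3 - ((s : ℤ) : 𝓞 K) ∈ P.asIdeal := by
    have h5 : (u : 𝓞 K) ^ 3 - (((4 * DD.D : ℤ) : 𝓞 K) ^ e) ^ 3 ∈ P.asIdeal :=
      P.asIdeal.mem_of_dvd (sub_dvd_pow_sub_pow _ _ 3) hu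
    have h6 : (u : 𝓞 K) ^ 3 - ((s : ℤ) : 𝓞 K) =
        ((u : 𝓞 K) ^ 3 - (((4 * DD.D : ℤ) : 𝓞 K) ^ e) ^ 3) +
          ((((4 * DD.D : ℤ) : 𝓞 K)) ^ (3 * e) - ((s : ℤ) : 𝓞 K)) := by
      rw [mul_comm 3 e, pow_mul]
      ring
    rw [h6]
    exact P.asIdeal.add_mem h5 hj
  have hus : (u : 𝓞 K) ^ 3 = ((s : ℤ) : 𝓞 K) := by
    rcases mul_eq_zero.1 hu6 with h5 | h5
    · have h6 : (u : 𝓞 K) ^ 3 = 1 := by linear_combination h5
      rcases hj1 with h7 | h7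
      · rw [h6, h7, Int.cast_one]
      · exfalso
        rw [h6, h7] at hmem
        apply h2
        have e1 : (2 : 𝓞 K) = 1 - ((-1 : ℤ) : 𝓞 K) := by push_cast; ring
        rw [e1]
        exact hmem
    · have h6 : (u : 𝓞 K) ^ 3 = -1 := by linear_combination h5
      rcases hj1 with h7 | h7
      · exfalso
        rw [h6, h7] at hmem
        apply h2
        have e1 : (2 : 𝓞 K) = -(-1 - ((1 : ℤ) : 𝓞 K)) := by push_cast; ring
        rw [e1]
        exact P.asIdeal.neg_mem hmem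
      · rw [h6, h7]
        push_cast
        ring
  have hs2 : ((s : ℤ) : 𝓞 K) ^ 2 = 1 := by
    rcases hj1 with h7 | h7 <;> rw [h7] <;> push_cast <;> ring
  refine ⟨(u : 𝓞 K) * ps P.asIdeal, ?_, hu3, ?_⟩
  · rw [Ideal.span_singleton_mul_left_unit u.isUnit, ps_span P h]
  · rw [mul_pow, hus]
    linear_combination (-(ps P.asIdeal) ^ 3) * hs2

private theorem lamR_ideal (I : Ideal (𝓞 K)) : I ≠ 0 →
    IsCoprime I (Ideal.span {((6 * DD.D : ℤ) : 𝓞 K)}) → ∃ β : 𝓞 K, Ideal.span {β} = I ∧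
      (3 : 𝓞 K) ∣ β - 1 ∧ ps I ^ 3 =
        ((jacobiSym (4 * DD.D) (Ideal.absNorm I) : ℤ) : 𝓞 K) * β ^ 3 := by
  refine UniqueFactorizationMonoid.induction_on_prime
    (P := fun I : Ideal (𝓞 K) => I ≠ 0 →
    IsCoprime I (Ideal.span {((6 * DD.D : ℤ) : 𝓞 K)}) → ∃ β : 𝓞 K, Ideal.span {β} = I ∧
      (3 : 𝓞 K) ∣ β - 1 ∧ ps I ^ 3 =
        ((jacobiSym (4 * DD.D) (Ideal.absNorm I) : ℤ) : 𝓞 K) * β ^ 3) I ?_ ?_ ?_
  · intro h
    exact absurd rfl h
  · intro J hJ _ _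
    have h1 : J = 1 := isUnit_iff_eq_one.1 hJ
    refine ⟨1, ?_, ?_, ?_⟩
    · rw [h1, Ideal.span_singleton_one, Ideal.one_eq_top]
    · rw [sub_self]
      exact dvd_zero _
    · rw [h1]
      have h2 : ps (1 : Ideal (𝓞 K)) = 1 := HC.hd.one
      rw [h2, map_one, jacobiSym.one_right]
      push_cast
      ring
  · intro J p hJ0 hp ih _ hc
    obtain ⟨P, hP⟩ : ∃ P : HeightOneSpectrum (𝓞 K), P.asIdeal = p :=
      ⟨⟨p, Ideal.isPrime_of_prime hp, hp.ne_zero⟩, rfl⟩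
    have hcp : IsCoprime p (Ideal.span {((6 * DD.D : ℤ) : 𝓞 K)}) := hc.of_mul_left_left
    have hcJ : IsCoprime J (Ideal.span {((6 * DD.D : ℤ) : 𝓞 K)}) := hc.of_mul_left_right
    have hPn : ((6 * DD.D : ℤ) : 𝓞 K) ∉ P.asIdeal := by
      intro h1
      rw [← hP, Ideal.isCoprime_iff_sup_eq, sup_eq_left.2
        ((Ideal.span_singleton_le_iff_mem _).2 h1)] at hcp
      exact P.isPrime.ne_top hcp
    obtain ⟨β, hβ, hβ3, hβps⟩ := lamR_prime P hPn
    obtain ⟨γ, hγ, hγ3, hγps⟩ := ih hJ0 hcJ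
    rw [hP] at hβ hβps
    refine ⟨β * γ, ?_, ?_, ?_⟩
    · rw [← Ideal.span_singleton_mul_span_singleton, hβ, hγ]
    · have e1 : β * γ - 1 = (β - 1) * γ + (γ - 1) := by ring
      rw [e1]
      exact dvd_add (Dvd.dvd.mul_right hβ3 _) hγ3
    · have h2 : ps (p * J) = ps p * ps J := HC.hd.mul p J
      have hp0 : Ideal.absNorm p ≠ 0 := by
        rw [Ne, Ideal.absNorm_eq_zero_iff]
        exact hp.ne_zero
      have hJ1 : Ideal.absNorm J ≠ 0 := by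
        rw [Ne, Ideal.absNorm_eq_zero_iff]
        exact hJ0
      rw [h2, mul_pow, hβps, hγps, map_mul, jacobiSym.mul_right' _ hp0 hJ1]
      push_cast
      ring

theorem lam_ram (M : 𝓞 K) (hM : ¬ pi3 ∣ M) : ∃ α : 𝓞 K, M ∣ α - 1 ∧ ¬ pi3 ∣ α ∧
    IsCoprime α HC.f ∧ IsCoprime α bO ∧ ps (Ideal.span {α}) ≠ α := by
  have hir : Irreducible (3 : ℤ) := Int.prime_three.irreducible
  obtain ⟨b, D', hD', hDD⟩ := WfDvdMonoid.max_power_factor DD.ne hir
  have h16 : ¬ (3 : ℤ) ∣ 16 * D' := by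
    intro h
    rcases Int.prime_three.dvd_or_dvd h with h1 | h1
    · omega
    · exact hD' h1
  have hpi : ¬ pi3 ∣ M * ((16 * D' : ℤ) : 𝓞 K) := by
    intro h
    rcases prime_pi3.dvd_or_dvd h with h1 | h1
    · exact hM h1
    · exact lamR_pi3_int h16 h1
  have hcop : IsCoprime (M * ((16 * D' : ℤ) : 𝓞 K)) ((3 : 𝓞 K) ^ (b + 1)) :=
    (coprime_three hpi).pow_right
  obtain ⟨u, v, huv⟩ := hcop
  obtain ⟨α, hα⟩ : ∃ α : 𝓞 K, α = 1 - 2 * (u * (M * ((16 * D' : ℤ) : 𝓞 K))) := ⟨_, rfl⟩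
  have h1 : M * ((16 * D' : ℤ) : 𝓞 K) ∣ α - 1 := ⟨-2 * u, by rw [hα]; ring⟩
  have h2 : (3 : 𝓞 K) ^ (b + 1) ∣ α + 1 := ⟨2 * v, by rw [hα]; linear_combination (-2 : 𝓞 K) * huv⟩
  have h3 : (3 : 𝓞 K) ∣ α + 1 := (dvd_pow_self 3 (Nat.succ_ne_zero b)).trans h2
  have hpiα : ¬ pi3 ∣ α := by
    intro h
    refine prime_pi3.not_isUnit (isUnit_of_dvd_one ?_)
    have e1 : (1 : 𝓞 K) = (α + 1) - α := by ring
    rw [e1]
    exact dvd_sub (pi3_dvd_three.trans h3) h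
  have hα0 : α ≠ 0 := by
    intro h
    exact hpiα (by rw [h]; exact dvd_zero _)
  have hb : IsCoprime α ((6 * DD.D : ℤ) : 𝓞 K) := by
    have c1 : IsCoprime α ((16 * D' : ℤ) : 𝓞 K) := by
      obtain ⟨c, hc⟩ := (dvd_mul_left ((16 * D' : ℤ) : 𝓞 K) M).trans h1
      exact ⟨1, -c, by linear_combination hc⟩
    have c2 : IsCoprime α ((3 : 𝓞 K) ^ (b + 1)) := by
      obtain ⟨c, hc⟩ := h2
      exact ⟨-1, c, by linear_combination -hc⟩
    refine (c1.mul_right c2).of_isCoprime_of_dvd_right ⟨8, ?_⟩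
    rw [hDD]
    push_cast
    ring
  refine ⟨α, (dvd_mul_right M _).trans h1, hpiα, ?_, hb, ?_⟩
  · rw [← Ideal.isCoprime_span_singleton_iff, Ideal.isCoprime_iff_sup_eq]
    by_contra hne
    obtain ⟨P, hP, hle⟩ := Ideal.exists_le_maximal _ hne
    have hαP : α ∈ P := hle (Ideal.mem_sup_left (Ideal.mem_span_singleton_self _))
    have hfP : HC.f ∈ P := hle (Ideal.mem_sup_right (Ideal.mem_span_singleton_self _))
    have hPb : P ≠ ⊥ := by
      intro h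
      rw [h] at hfP
      exact HC.hd.ne ((Submodule.mem_bot _).1 hfP)
    have h6 : ((6 * DD.D : ℤ) : 𝓞 K) ∈ P := HC.hd.good ⟨P, hP.isPrime, hPb⟩ hfP
    obtain ⟨x, z, hxz⟩ := hb
    apply hP.ne_top
    rw [Ideal.eq_top_iff_one, ← hxz]
    exact P.add_mem (P.mul_mem_left _ hαP) (P.mul_mem_left _ h6)
  · intro hps
    have hI0 : (Ideal.span {α} : Ideal (𝓞 K)) ≠ 0 := by
      rw [Ne, Ideal.zero_eq_bot, Ideal.span_singleton_eq_bot]
      exact hα0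
    obtain ⟨β, hβ, hβ3, hβps⟩ := lamR_ideal (Ideal.span {α}) hI0
      ((Ideal.isCoprime_span_singleton_iff _ _).2 hb)
    have hβα : β = -α := by
      refine S4.psiK_unique β (-α) hβ3 ?_ ?_
      · have e1 : -α - 1 = -(α + 1) := by ring
        rw [e1, dvd_neg]
        exact h3
      · rw [hβ, Ideal.span_singleton_neg]
    obtain ⟨n, hn⟩ : ∃ n, n = Ideal.absNorm (Ideal.span {α}) := ⟨_, rfl⟩
    have hcj : α * MP_1a91b9_ntT.DX.cj α = ((n : ℕ) : 𝓞 K) := by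
      rw [hn]
      exact MP_1a91b9_ntT.DX.mul_cj α
    have hn0 : n ≠ 0 := by
      rw [hn, Ne, Ideal.absNorm_eq_zero_iff]
      exact hI0
    have hd1 : (16 * D' : ℤ) ∣ (n : ℤ) - 1 := by
      apply lamR_int_dvd
      have g1 : ((16 * D' : ℤ) : 𝓞 K) ∣ α - 1 := (dvd_mul_left _ M).trans h1
      have g2 : ((16 * D' : ℤ) : 𝓞 K) ∣ MP_1a91b9_ntT.DX.cj α - 1 := by
        have g3 := map_dvd MP_1a91b9_ntT.DX.cj g1
        rwa [map_intCast, map_sub, map_one] at g3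
      have e1 : (((n : ℤ) - 1 : ℤ) : 𝓞 K) =
          (α - 1) * MP_1a91b9_ntT.DX.cj α + (MP_1a91b9_ntT.DX.cj α - 1) := by
        rw [Int.cast_sub, Int.cast_natCast, Int.cast_one, ← hcj]
        ring
      rw [e1]
      exact dvd_add (Dvd.dvd.mul_right g1 _) g2
    have hd2 : (3 ^ (b + 1) : ℤ) ∣ (n : ℤ) - 1 := by
      apply lamR_int_dvd
      have e0 : ((3 ^ (b + 1) : ℤ) : 𝓞 K) = (3 : 𝓞 K) ^ (b + 1) := by push_cast; ring
      rw [e0]
      have g2 : (3 : 𝓞 K) ^ (b + 1) ∣ MP_1a91b9_ntT.DX.cj α + 1 := by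
        have g3 := map_dvd MP_1a91b9_ntT.DX.cj h2
        rwa [map_pow, map_ofNat, map_add, map_one] at g3
      have e1 : (((n : ℤ) - 1 : ℤ) : 𝓞 K) =
          (α + 1) * MP_1a91b9_ntT.DX.cj α - (MP_1a91b9_ntT.DX.cj α + 1) := by
        rw [Int.cast_sub, Int.cast_natCast, Int.cast_one, ← hcj]
        ring
      rw [e1]
      exact dvd_sub (Dvd.dvd.mul_right h2 _) g2
    have hcopZ : IsCoprime (16 * D' : ℤ) (3 ^ (b + 1)) :=
      ((hir.coprime_iff_not_dvd).2 h16).symm.pow_right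
    have hd3 := hcopZ.mul_dvd hd1 hd2
    have hd4 : (4 * (4 * DD.D) : ℤ) ∣ (n : ℤ) - 1 := by
      refine Dvd.dvd.trans ⟨3, ?_⟩ hd3
      rw [hDD]
      ring
    have hodd : Odd n := by
      obtain ⟨c, hc⟩ := hd1
      have e1 : (n : ℤ) = 2 * (8 * D' * c) + 1 := by linear_combination hc
      exact (Int.odd_coe_nat n).1 ⟨_, e1⟩
    have hmod : n % (4 * (4 * DD.D).natAbs) = 1 := by
      have hpos : 0 < (4 * DD.D).natAbs := by
        rw [Int.natAbs_pos]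
        exact mul_ne_zero (by norm_num) DD.ne
      have g1 : 4 * (4 * DD.D).natAbs ∣ n - 1 := by
        have g2 : ((4 * (4 * DD.D)).natAbs : ℕ) ∣ ((n : ℤ) - 1).natAbs := Int.natAbs_dvd_natAbs.2 hd4
        have g3 : (4 * (4 * DD.D)).natAbs = 4 * (4 * DD.D).natAbs := Int.natAbs_mul _ _
        have g4 : ((n : ℤ) - 1).natAbs = n - 1 := by omega
        rw [g3, g4] at g2
        exact g2
      have g5 : 1 ≡ n [MOD 4 * (4 * DD.D).natAbs] := (Nat.modEq_iff_dvd' (by omega)).2 g1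
      have g6 : 1 % (4 * (4 * DD.D).natAbs) = n % (4 * (4 * DD.D).natAbs) := g5
      rw [← g6]
      exact Nat.mod_eq_of_lt (by omega)
    have hJ : jacobiSym (4 * DD.D) n = 1 := by
      rw [jacobiSym.mod_right _ hodd, hmod, jacobiSym.one_right]
    rw [← hn, hJ, hβα, hps, Int.cast_one] at hβps
    have h7 : (2 : 𝓞 K) * α ^ 3 = 0 := by linear_combination hβps
    rcases mul_eq_zero.1 h7 with h8 | h8
    · exact two_ne_zero h8
    · exact hα0 (pow_eq_zero_iff (by norm_num) |>.1 h8)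

end

end Pool.Agent.Lib.MP_1a91b9_ntX.DG
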