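import Pool.Agent.Lib.MP_1a91b9_ntX.DG.Zp
import Pool.Agent.Lib.MP_1a91b9_ntX.DB.Uni
import Pool.Agent.Lib.MP_1a91b9_ntT.DG.ZC

/-!
# The values `lamQ (a J)` in terms of `E1`

JOB LAMV. PROOF (complete; helper30). `lam_E1x`: `lam_E1` (MP_1a91b9_ntT/DG/ZB.lean) at `z` and at `-z`: `Y (-z) = -Y z` (`zb_Y_neg`), `X (-z) = X z`, `E1 (-z) = -E1 z`, `E1 (-z - s0) = -E1 (z + s0)`. With `Y^2 = 4 X^3 + 1` (S3; see the proof of `lam_E1`) and `X z ≠ 0`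
(else `Y z = ± 1`; if `X z = 0` the left side is `0`; avoid the case: `Y z - 1 ≠ 0` and `Y z + 1 ≠ 0` because `z - s0`, `z + s0` are not in the lattice; see how `lam_E1` is proved: `Y z = 1` would give `X z = 0`, and by `Inj` `z = ± s0`, ..): subtracting the two identities:
`Om * 6 X^2 (1 / (Y - 1) + 1 / (Y + 1)) = 3 (E1 (z - s0) + E1 (z + s0) - 2 E1 z)` and the left side is `Om * 12 X^2 Y / (4 X^3) = 3 Om Y / X`.
`s0`: in ZC.lean (`zc_S`) or S3 there is a point `s0` with `s0 ∉ lattice`, `Y s0 = 1`; e.g. from `MP_1a91b9_ntT.DB.exists_uni`: the point `(0, 0)` of `y² + y = x³` is `u s0` for some `s0`, `Y s0 = 2 * 0 + 1 = 1` (`(Y z - 1)/2 = 0`).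
`sum_s0`: `pi3 s0` is in the lattice (`zb_fix`: `zt s0 - s0 ∈ lattice`, `embK pi3 = 1 - zt`), the lattice is the set of the `embK a`, `a ∈ 𝓞 K` (S3, `mem_lattice..`; see ZC.lean), so `s0 = embK t / embK pi3`, `pi3 ∤ t` (`s0 ∉ lattice`), and `t = 1` or `t = 2` modulo `pi3` (see `E1_pi3` in Zp.lean), `2 = -1` modulo `pi3`. So the numbers
`z, z + s0, z - s0` are congruent modulo the lattice to `z, z + 1/pi3, z + 2/pi3` in some order (`S3.E1_congr`). With `z = embK x / embK μ`, `μ = pi3 μ'`: `z + j / pi3 = embK (x + j μ') / embK μ`, so `E1 z + E1 (z + s0) + E1 (z - s0) = embK pi3 * E1 (embK x / embK μ')` by `E1_pi3`.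
`lam_val`: `δ` from `exists_delta` (MP_1a91b9_ntX/DB/Phi.lean; `δ ≠ 0`: `DD.ne`), `un` from `exists_uni_delta δ` (DB/Uni.lean), `J1 = pm φ J`, `Ord μ J1` (`Ord.map`). `J1 = un z1`; `un (embK μ * z1) = sm μ J1 = 0`, so `embK μ * z1` is in the lattice: `= embK y0`, `y0 ∈ 𝓞 K`, `z1 = embK y0 / embK μ`. For `a ∈ 𝓞 K`: `sm a J1 = un (embK (a y0) / embK μ)`;
it is `0` iff `μ ∣ a` (`Ord`) iff `μ ∣ a y0`, so `IsCoprime y0 μ` (`MP_1a91b9_ntT.DG.zc_cop_of`). For `a` coprime to `μ`, `z = embK (a y0) / embK μ`: `z ∉ lattice`, and `z - s0`, `z + s0 ∉ lattice`: otherwise `pi3 z ∈ lattice`, `μ ∣ pi3 a y0`, `μ ∣ pi3`, contradiction with `hl`.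
`φ (lamQ (sm L a J)) = lamQ`-formula at `sm a J1` (`xc_pm`, `yc_pm`, `pm_sm`) `= 2 * 4 δ^3 Y z / (4 δ^2 X z) = 2 δ Y z / X z`. Conclude with `lam_E1x` and `sum_s0`.
-/

set_option autoImplicit false

namespace Pool.Agent.Lib.MP_1a91b9_ntX.DG

open NumberField IsDedekindDomain WeierstrassCurve Pool.Agent.Lib.MP_1a91b9_ntT
open Pool.Agent.Lib.MP_1a91b9_ntX.DB
open Pool.Agent.Lib.MP_1a91b9_ntT.DG (zb_fix zb_int zb_P zb_two zb_chord zc_mul zc_add zc_three)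

noncomputable section

theorem lam_E1x {s0 : ℂ} (h0 : s0 ∉ PP.lattice) (hY : S3.Y s0 = 1) {z : ℂ}
    (hz : z ∉ PP.lattice) (hz0 : z - s0 ∉ PP.lattice) (hz1 : z + s0 ∉ PP.lattice) :
    S3.X z ≠ 0 ∧ Om * (S3.Y z / S3.X z) =
      E1 (z - s0) + E1 (z + s0) - 2 * E1 z := by
  have hOm : Om ≠ 0 := Om_ne_zero
  have hfix := zb_fix h0 hY
  have hE0 : E1 s0 = 0 := zb_int hfix
  have hP := zb_P h0 hY
  have hQ : PP.derivWeierstrassP s0 = Om ^ 3 := by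
    rw [S3.Y, div_eq_one_iff_eq (pow_ne_zero _ hOm)] at hY
    exact hY
  have hzn : -z ∉ PP.lattice := fun h => hz (by
    have h' := neg_mem h
    rwa [neg_neg] at h')
  have hzn0 : -z - s0 ∉ PP.lattice := fun h => hz1 (by
    have h' := neg_mem h
    have e : -(-z - s0) = z + s0 := by ring
    rwa [e] at h')
  have hzn1 : -z + s0 ∉ PP.lattice := fun h => hz0 (by
    have h' := neg_mem h
    have e : -(-z + s0) = z - s0 := by ring
    rwa [e] at h')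
  have a := zb_chord hz (zb_two hY) hz0 hz1
  have b := zb_chord hzn (zb_two hY) hzn0 hzn1
  rw [hP, hQ, hE0, sub_zero, add_zero] at a b
  rw [PP.weierstrassP_neg, PP.derivWeierstrassP_neg, S3.E1_neg] at b
  have e1 : E1 (-z - s0) = -E1 (z + s0) := by
    have e : -z - s0 = -(z + s0) := by ring
    rw [e, S3.E1_neg]
  rw [e1] at b
  have hPz : PP.weierstrassP z ≠ 0 := by
    intro h
    have hQ0 : PP.derivWeierstrassP s0 ≠ 0 := by
      rw [hQ]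
      exact pow_ne_zero _ hOm
    rcases S3.P_inj (zb_two hY) hQ0 hz (by rw [h, hP]) with h4 | h4
    · exact hz0 h4
    · exact hz1 h4
  have hXz : S3.X z ≠ 0 := div_ne_zero hPz (pow_ne_zero _ hOm)
  refine ⟨hXz, ?_⟩
  have eP : PP.weierstrassP z = S3.X z * Om ^ 2 := by
    rw [S3.X]
    field_simp
  have eQ : PP.derivWeierstrassP z = S3.Y z * Om ^ 3 := by
    rw [S3.Y]
    field_simp
  rw [eP, eQ] at a b
  have a' : S3.X z * (E1 (z - s0) + E1 (z + s0) - 2 * E1 z) = Om * S3.Y z := by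
    apply mul_left_cancel₀ (pow_ne_zero 2 hOm)
    linear_combination (1 / 2 : ℂ) * a - (1 / 2 : ℂ) * b
  apply mul_left_cancel₀ hXz
  rw [a']
  field_simp

private theorem lamv_pi : embK ((pi3 : 𝓞 K) : K) = 1 - zt := by
  have e : ((pi3 : 𝓞 K) : K) = 1 - om := rfl
  rw [e, map_sub, map_one, embK_om]

/-- `s0` modulo the lattice -/
private theorem lamv_s0 {s0 : ℂ} (h0 : s0 ∉ PP.lattice) (hY : S3.Y s0 = 1) :
    ∃ ε : ℂ, (ε = 1 ∨ ε = -1) ∧ s0 - ε * (1 / embK ((pi3 : 𝓞 K) : K)) ∈ PP.lattice := by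
  have hpi0 : (pi3 : 𝓞 K) ≠ 0 := prime_pi3.ne_zero
  have hpC := MP_1a91b9_ntT.DG.zc_ne hpi0
  have hfix := neg_mem (zb_fix h0 hY)
  have e : -(zt * s0 - s0) = embK ((pi3 : 𝓞 K) : K) * s0 := by
    rw [lamv_pi]
    ring
  rw [e] at hfix
  obtain ⟨t, ht⟩ := S3.mem_PP_iff.1 hfix
  obtain ⟨p, q, hpq⟩ := kf_repr t
  have hn : ¬ (3 : ℤ) ∣ p + q := by
    rintro ⟨k, hk⟩
    apply h0
    rw [S3.mem_PP_iff]
    obtain ⟨c, hc⟩ := pi3_dvd_three
    refine ⟨c * (k : 𝓞 K) - (q : 𝓞 K), ?_⟩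
    apply mul_left_cancel₀ hpC
    rw [← ht, ← zc_mul]
    have e2 : pi3 * (c * (k : 𝓞 K) - (q : 𝓞 K)) = t := by
      have hk' : (p : 𝓞 K) + (q : 𝓞 K) = 3 * (k : 𝓞 K) := by exact_mod_cast hk
      have e3 : (pi3 : 𝓞 K) = 1 - MP_1a91b9_ntT.omO := rfl
      rw [hpq]
      have e4 : pi3 * (c * (k : 𝓞 K) - (q : 𝓞 K)) = (pi3 * c) * k - pi3 * q := by ring
      rw [e4, ← hc, e3]
      linear_combination -hk'
    rw [e2]
  have hsol : ∀ (ε : ℤ) (k : ℤ), p + q = 3 * k + ε →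
      s0 - (ε : ℂ) * (1 / embK ((pi3 : 𝓞 K) : K)) ∈ PP.lattice := by
    intro ε k hk
    rw [S3.mem_PP_iff]
    obtain ⟨c, hc⟩ := pi3_dvd_three
    refine ⟨c * (k : 𝓞 K) - (q : 𝓞 K), ?_⟩
    apply mul_left_cancel₀ hpC
    have e1 : embK ((pi3 : 𝓞 K) : K) * (s0 - (ε : ℂ) * (1 / embK ((pi3 : 𝓞 K) : K))) =
        embK ((pi3 : 𝓞 K) : K) * s0 - (ε : ℂ) := by
      field_simp
    rw [e1, ← ht, ← zc_mul]
    have e2 : t = pi3 * (c * (k : 𝓞 K) - (q : 𝓞 K)) + (ε : 𝓞 K) := by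
      have hk' : (p : 𝓞 K) + (q : 𝓞 K) = 3 * (k : 𝓞 K) + (ε : 𝓞 K) := by exact_mod_cast hk
      have e3 : (pi3 : 𝓞 K) = 1 - MP_1a91b9_ntT.omO := rfl
      rw [hpq]
      have e4 : pi3 * (c * (k : 𝓞 K) - (q : 𝓞 K)) = (pi3 * c) * k - pi3 * q := by ring
      rw [e4, ← hc, e3]
      linear_combination hk'
    have e5 : embK (((ε : ℤ) : 𝓞 K) : K) = (ε : ℂ) := by
      have e6 : (((ε : ℤ) : 𝓞 K) : K) = (ε : K) := by
        rw [RingOfIntegers.coe_eq_algebraMap, map_intCast]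
      rw [e6, map_intCast]
    rw [eq_sub_iff_add_eq, ← e5, ← zc_add, ← e2]
  have h5 : (p + q) % 3 = 1 ∨ (p + q) % 3 = 2 := by omega
  rcases h5 with h5 | h5
  · refine ⟨1, Or.inl rfl, ?_⟩
    have h6 := hsol 1 ((p + q) / 3) (by omega)
    rwa [Int.cast_one] at h6
  · refine ⟨-1, Or.inr rfl, ?_⟩
    have h6 := hsol (-1) ((p + q) / 3 + 1) (by omega)
    rwa [Int.cast_neg, Int.cast_one] at h6

theorem sum_s0 {s0 : ℂ} (h0 : s0 ∉ PP.lattice) (hY : S3.Y s0 = 1) {μ μ' : 𝓞 K} (hμ0 : μ ≠ 0)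
    (he : μ = pi3 * μ') (x : 𝓞 K) :
    E1 (embK (x : K) / embK (μ : K) - s0) + E1 (embK (x : K) / embK (μ : K) + s0) +
      E1 (embK (x : K) / embK (μ : K)) =
      embK ((pi3 : 𝓞 K) : K) * E1 (embK (x : K) / embK (μ' : K)) := by
  have hμ'0 : μ' ≠ 0 := by
    intro h
    exact hμ0 (by rw [he, h, mul_zero])
  have hpi0 : (pi3 : 𝓞 K) ≠ 0 := prime_pi3.ne_zero
  have hpC := MP_1a91b9_ntT.DG.zc_ne hpi0
  have hmC := MP_1a91b9_ntT.DG.zc_ne hμ'0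
  obtain ⟨ε, hε, hs⟩ := lamv_s0 h0 hY
  obtain ⟨z, hz⟩ : ∃ z : ℂ, z = embK (x : K) / embK (μ : K) := ⟨_, rfl⟩
  have hj : ∀ j : 𝓞 K, embK ((x + j * μ' : 𝓞 K) : K) / embK (μ : K) =
      z + embK (j : K) / embK ((pi3 : 𝓞 K) : K) := by
    intro j
    rw [hz, he, zc_mul pi3 μ', zc_add, zc_mul, add_div, mul_div_mul_right _ _ hmC]
  have key := E1_pi3 hμ'0 he x
  rw [Fin.sum_univ_three, hj, hj, hj] at key
  have k0 : embK ((((0 : Fin 3) : ℕ) : 𝓞 K) : K) = 0 := by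
    have e : ((((0 : Fin 3) : ℕ) : 𝓞 K) : K) = 0 := by
      simp
    rw [e, map_zero]
  have k1 : embK ((((1 : Fin 3) : ℕ) : 𝓞 K) : K) = 1 := by
    have e : ((((1 : Fin 3) : ℕ) : 𝓞 K) : K) = 1 := by
      simp
    rw [e, map_one]
  have k2 : embK ((((2 : Fin 3) : ℕ) : 𝓞 K) : K) = 2 := by
    have e : ((((2 : Fin 3) : ℕ) : 𝓞 K) : K) = ((2 : ℕ) : K) := by
      rw [RingOfIntegers.coe_eq_algebraMap, map_natCast]
      rfl
    rw [e, map_natCast, Nat.cast_ofNat]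
  rw [k0, k1, k2, zero_div, add_zero] at key
  rw [← key, ← hz]
  obtain ⟨w, hw⟩ : ∃ w : ℂ, w = 1 / embK ((pi3 : 𝓞 K) : K) := ⟨_, rfl⟩
  have h3 : 3 * w ∈ PP.lattice := by
    obtain ⟨c, hc⟩ := pi3_dvd_three
    rw [S3.mem_PP_iff]
    refine ⟨c, ?_⟩
    have h4 : (3 : ℂ) = embK ((pi3 : 𝓞 K) : K) * embK (c : K) := by
      rw [← zc_mul, ← hc, zc_three]
    rw [hw, h4]
    field_simp
  have h2 : E1 (z + 2 / embK ((pi3 : 𝓞 K) : K)) = E1 (z - w) := by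
    apply S3.E1_congr
    have e : z + 2 / embK ((pi3 : 𝓞 K) : K) - (z - w) = 3 * w := by
      rw [hw]
      ring
    rw [e]
    exact h3
  rw [h2, ← hw]
  rw [← hw] at hs
  rcases hε with rfl | rfl
  · have h5 : E1 (z - s0) = E1 (z - w) := by
      apply S3.E1_congr
      have e : z - s0 - (z - w) = -(s0 - 1 * w) := by ring
      rw [e]
      exact neg_mem hs
    have h6 : E1 (z + s0) = E1 (z + w) := by
      apply S3.E1_congr
      have e : z + s0 - (z + w) = s0 - 1 * w := by ring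
      rw [e]
      exact hs
    rw [h5, h6]
    ring
  · have h5 : E1 (z - s0) = E1 (z + w) := by
      apply S3.E1_congr
      have e : z - s0 - (z + w) = -(s0 - (-1) * w) := by ring
      rw [e]
      exact neg_mem hs
    have h6 : E1 (z + s0) = E1 (z - w) := by
      apply S3.E1_congr
      have e : z + s0 - (z - w) = s0 - (-1) * w := by ring
      rw [e]
      exact hs
    rw [h5, h6]
    ring

theorem lam_val [DD] {μ μ' : 𝓞 K} (hμ0 : μ ≠ 0) (he : μ = pi3 * μ') (hl : ¬ μ ∣ pi3) {L : Type}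
    [Field L] [NumberField L] [Algebra K L] [DecidableEq L] (φ : L →ₐ[K] ℂ) {J : Pt L}
    (hJ : Ord μ J) : ∃ (δ : ℂ) (y0 : 𝓞 K), δ ≠ 0 ∧ IsCoprime y0 μ ∧ ∀ a : 𝓞 K, IsCoprime a μ →
      Om * φ (lamQ (sm L a J)) = 2 * δ *
        (embK ((pi3 : 𝓞 K) : K) * E1 (embK ((a * y0 : 𝓞 K) : K) / embK (μ' : K)) -
          3 * E1 (embK ((a * y0 : 𝓞 K) : K) / embK (μ : K))) := by
  classical
  obtain ⟨δ, hδ⟩ := exists_delta
  obtain ⟨un, hsurj, h0, hc, hzt, hsm⟩ := exists_uni_delta δ hδ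
  have hδ0 : δ ≠ 0 := delta_ne ℂ hδ
  have hμC := MP_1a91b9_ntT.DG.zc_ne hμ0
  have hpi0 : (pi3 : 𝓞 K) ≠ 0 := prime_pi3.ne_zero
  have hpC := MP_1a91b9_ntT.DG.zc_ne hpi0
  -- the point of order three
  obtain ⟨s0, hs0⟩ := hsurj (mkPt 0 (4 * δ ^ 3) (by linear_combination hδ))
  have hs0n : s0 ∉ PP.lattice := by
    rw [← h0, hs0]
    exact mk_ne_zero _ _ _
  have hY0 : S3.Y s0 = 1 := by
    have h1 := (hc s0 hs0n).2
    rw [hs0] at h1
    have h2 : 4 * δ ^ 3 = 4 * δ ^ 3 * S3.Y s0 := h1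
    have h3 : (4 * δ ^ 3 : ℂ) ≠ 0 := mul_ne_zero (by norm_num) (pow_ne_zero _ hδ0)
    apply mul_left_cancel₀ h3
    rw [← h2, mul_one]
  have hpis : embK ((pi3 : 𝓞 K) : K) * s0 ∈ PP.lattice := by
    have hfix := neg_mem (zb_fix hs0n hY0)
    have e : -(zt * s0 - s0) = embK ((pi3 : 𝓞 K) : K) * s0 := by
      rw [lamv_pi]
      ring
    rwa [e] at hfix
  -- the point `J`
  obtain ⟨zJ, hzJ⟩ := hsurj (pm φ J)
  have hJm : embK (μ : K) * zJ ∈ PP.lattice := by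
    rw [← h0, hsm, hzJ, ← pm_sm, (hJ μ).2 dvd_rfl, map_zero]
  obtain ⟨y0, hy0⟩ := S3.mem_PP_iff.1 hJm
  have hzt' : embK (y0 : K) / embK (μ : K) = zJ := by
    rw [hy0]
    field_simp
  have hycop : IsCoprime y0 μ := by
    refine MP_1a91b9_ntT.DG.zc_cop_of hμ0 fun a ha => ?_
    rw [← hJ a]
    apply pm_inj φ
    rw [pm_sm, map_zero, ← hzJ, ← hsm, h0, S3.mem_PP_iff]
    obtain ⟨e, he⟩ := ha
    refine ⟨e, ?_⟩
    rw [← hzt', eq_comm, mul_div_assoc', div_eq_iff hμC, ← zc_mul, ← zc_mul, he, mul_comm]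
  refine ⟨δ, y0, hδ0, hycop, fun a ha => ?_⟩
  obtain ⟨z, hz⟩ : ∃ z : ℂ, z = embK ((a * y0 : 𝓞 K) : K) / embK (μ : K) := ⟨_, rfl⟩
  have hunz : un z = pm φ (sm L a J) := by
    have e : z = embK (a : K) * zJ := by
      rw [hz, ← hzt', zc_mul, mul_div_assoc]
    rw [e, hsm, hzJ, pm_sm]
  have hpz : embK ((pi3 : 𝓞 K) : K) * z ∉ PP.lattice := by
    intro h
    obtain ⟨e, he⟩ := S3.mem_PP_iff.1 h
    rw [hz, mul_div_assoc', eq_div_iff hμC, ← zc_mul, ← zc_mul] at he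
    have h1 := MP_1a91b9_ntT.DG.zc_inj he
    have h2 : μ ∣ pi3 * (a * y0) := ⟨e, by rw [← h1, mul_comm]⟩
    exact hl ((ha.mul_left hycop).symm.dvd_of_dvd_mul_right h2)
  have hz1 : z ∉ PP.lattice := fun h => hpz (S3.mul_mem (S3.embK_mem _) h)
  have hz2 : z - s0 ∉ PP.lattice := by
    intro h
    apply hpz
    have h1 := add_mem (S3.mul_mem (S3.embK_mem pi3) h) hpis
    have e : embK ((pi3 : 𝓞 K) : K) * (z - s0) + embK ((pi3 : 𝓞 K) : K) * s0 =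
        embK ((pi3 : 𝓞 K) : K) * z := by ring
    rwa [e] at h1
  have hz3 : z + s0 ∉ PP.lattice := by
    intro h
    apply hpz
    have h1 := sub_mem (S3.mul_mem (S3.embK_mem pi3) h) hpis
    have e : embK ((pi3 : 𝓞 K) : K) * (z + s0) - embK ((pi3 : 𝓞 K) : K) * s0 =
        embK ((pi3 : 𝓞 K) : K) * z := by ring
    rwa [e] at h1
  obtain ⟨hX, hlam⟩ := lam_E1x hs0n hY0 hz1 hz2 hz3
  have hφ : φ (lamQ (sm L a J)) = 2 * δ * (S3.Y z / S3.X z) := by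
    have h1 := (hc z hz1).1
    have h2 := (hc z hz1).2
    rw [hunz, xc_pm] at h1
    rw [hunz, yc_pm] at h2
    rw [lamQ, map_div₀, map_mul, map_ofNat, h1, h2]
    field_simp
  have hsum := sum_s0 hs0n hY0 hμ0 he (a * y0)
  rw [← hz] at hsum
  rw [← hsum, ← hz, hφ]
  linear_combination 2 * δ * hlam

end

end Pool.Agent.Lib.MP_1a91b9_ntX.DG
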