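import Pool.Agent.Lib.MP_1a91b9_ntX.DG.XXa
import Pool.Agent.Lib.MP_1a91b9_ntX.DG.AddK

/-!
# local expansion of the units `XX`

Port of MP_1a91b9_ntT/DG/XXb.lean to the curves `y² = x³ + D`.
-/

set_option autoImplicit false

namespace Pool.Agent.Lib.MP_1a91b9_ntX.DG

open NumberField IsDedekindDomain WeierstrassCurve Pool.Agent.Lib.MP_1a91b9_ntT
open Pool.Agent.Lib.MP_1a91b9_ntX.DB

noncomputable section

variable [DD]

private theorem XXB_mul {N : Type} [Field N] {Γ : Type*} [LinearOrderedCommGroupWithZero Γ]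
    (v : Valuation N Γ) {g : Γ} (hg : g ≤ 1) {x x' α α' : N} (h1 : v α ≤ g)
    (h2 : v (x - 1 - α) ≤ g ^ 2) (h1' : v α' ≤ g) (h2' : v (x' - 1 - α') ≤ g ^ 2) :
    v (α + α') ≤ g ∧ v (x * x' - 1 - (α + α')) ≤ g ^ 2 := by
  refine ⟨Valuation.map_add_le v h1 h1', ?_⟩
  have hx' : v x' ≤ 1 := by
    have e1 : x' = (x' - 1 - α') + (1 + α') := by ring
    rw [e1]
    refine Valuation.map_add_le v (h2'.trans (pow_le_one' hg 2)) ?_
    exact Valuation.map_add_le v (by rw [map_one]) (h1'.trans hg)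
  have e2 : x * x' - 1 - (α + α') = (x - 1 - α) * x' + ((1 + α) * (x' - 1 - α') + α * α') := by
    ring
  rw [e2]
  refine Valuation.map_add_le v ?_ (Valuation.map_add_le v ?_ ?_)
  · rw [map_mul]
    exact (mul_le_mul' h2 hx').trans (by rw [mul_one])
  · rw [map_mul]
    have h3 : v (1 + α) ≤ 1 := Valuation.map_add_le v (by rw [map_one]) (h1.trans hg)
    exact (mul_le_mul' h3 h2').trans (by rw [one_mul])
  · rw [map_mul, sq]
    exact mul_le_mul' h1 h1'

private theorem XXB_prod {N : Type} [Field N] {Γ : Type*} [LinearOrderedCommGroupWithZero Γ]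
    (v : Valuation N Γ) {g : Γ} (hg : g ≤ 1) {ι : Type*} (s : Finset ι) (x α : ι → N)
    (h1 : ∀ i ∈ s, v (α i) ≤ g ∧ v (x i - 1 - α i) ≤ g ^ 2) :
    v (∑ i ∈ s, α i) ≤ g ∧ v (∏ i ∈ s, x i - 1 - ∑ i ∈ s, α i) ≤ g ^ 2 := by
  classical
  induction s using Finset.induction_on with
  | empty => simp
  | insert a s ha ih =>
    have h2 := ih fun i hi => h1 i (Finset.mem_insert_of_mem hi)
    have h3 := h1 a (Finset.mem_insert_self a s)
    rw [Finset.sum_insert ha, Finset.prod_insert ha]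
    exact XXB_mul v hg h3.1 h3.2 h2.1 h2.2

section
variable {N : Type} [Field N] [NumberField N] [Algebra K N] [DecidableEq N]
  {ϖ : 𝓞 K} {ℓ q : ℕ} (h : PD ϖ ℓ q) {T : Finset (𝓞 K)} {iv : 𝓞 K → 𝓞 K} {n : 𝓞 K → ℤ}
  (hT : TrD ϖ ℓ T iv n) {P : Pt N} (hP : Ord ϖ P) {μ : 𝓞 K} {H : Subgroup (CU μ)} [Fintype (U H)]
  (hμϖ : ¬ ϖ ∣ μ) (hl : ¬ μ ∣ pi3) {J : Pt N} (hJ : Ord μ J)
include h hT hP hμϖ hl hJ

private theorem XXB_val {Γ : Type*} [LinearOrderedCommGroupWithZero Γ] (v : Valuation N Γ)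
    (hv : v (algebraMap K N (ϖ : K)) < 1)
    (c : U H → 𝓞 K) (u : U H) :
    v (-(algebraMap K N (c u : K) * lamQ (smU J u) * tc P)) ≤ v (tc P) := by
  rw [Valuation.map_neg, map_mul, map_mul]
  have h1 := v_alg_le v (c u)
  have h2 : v (lamQ (smU J u)) ≤ 1 := lamQ_val h hP hμϖ (smU_kill hJ u) (smU_lam hJ hl u) v hv
  exact (mul_le_mul' (mul_le_mul' h1 h2) le_rfl).trans (by rw [one_mul, one_mul])

private theorem XXB_both {Γ : Type*} [LinearOrderedCommGroupWithZero Γ] (v : Valuation N Γ)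
    (hv : v (algebraMap K N (ϖ : K)) < 1) (c : U H → 𝓞 K) :
    v ((∑ u : U H, algebraMap K N (c u : K) * lamQ (smU J u)) * tc P) ≤ v (tc P) ∧
    v (XX T iv n P J c - 1 + (∑ u : U H, algebraMap K N (c u : K) * lamQ (smU J u)) * tc P) ≤
      v (tc P) ^ 2 := by
  have hK : Ker v P := ker_of_val v h.prime h.one hP hv (bad_of_pi h v hv)
  have ht := (ker_tc_lt v hK).le
  have hprod := XXB_prod v ht (Finset.univ : Finset (U H))
    (fun u => xQ T iv n P (smU J u) (c u))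
    (fun u => -(algebraMap K N (c u : K) * lamQ (smU J u) * tc P))
    (fun u _ => ⟨XXB_val h hT hP hμϖ hl hJ v hv c u, by
      have h1 := xQ_loc h hT hP hμϖ (smU_kill hJ u) (smU_lam hJ hl u) v hv (c u)
      rw [sub_neg_eq_add]
      exact h1⟩)
  have e1 : (∑ u : U H, -(algebraMap K N (c u : K) * lamQ (smU J u) * tc P)) =
      -((∑ u : U H, algebraMap K N (c u : K) * lamQ (smU J u)) * tc P) := by
    rw [Finset.sum_neg_distrib, Finset.sum_mul]
  rw [e1, Valuation.map_neg, sub_neg_eq_add] at hprod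
  exact hprod

theorem XX_loc {Γ : Type*} [LinearOrderedCommGroupWithZero Γ] (v : Valuation N Γ)
    (hv : v (algebraMap K N (ϖ : K)) < 1) (c : U H → 𝓞 K) :
    v (XX T iv n P J c - 1 + (∑ u : U H, algebraMap K N (c u : K) * lamQ (smU J u)) * tc P) ≤
      v (tc P) ^ 2 := (XXB_both h hT hP hμϖ hl hJ v hv c).2

theorem XX_pow (w : HeightOneSpectrum (𝓞 N)) (hw : w.valuation N (algebraMap K N (ϖ : K)) < 1)
    (ht : od w (tc P) = 1) {c : U H → 𝓞 K} {z : N}
    (hz : w.valuation N (XX T iv n P J c - z ^ ℓ) ≤ WithZero.exp (-2 : ℤ)) :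
    w.valuation N (∑ u : U H, algebraMap K N (c u : K) * lamQ (smU J u)) < 1 := by
  have ht0 : tc P ≠ 0 := by
    intro h0
    rw [h0] at ht
    simp [od] at ht
  have hvt : w.valuation N (tc P) = WithZero.exp (-1 : ℤ) := by rw [val_eq w ht0, ht]
  obtain ⟨hle, hloc⟩ := XXB_both h hT hP hμϖ hl hJ (w.valuation N) hw c
  have hsq : (WithZero.exp (-1 : ℤ)) ^ 2 = WithZero.exp (-2 : ℤ) := by
    rw [← WithZero.exp_nsmul]
    norm_num
  rw [hvt, hsq] at hloc
  rw [hvt] at hle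
  have hlt : WithZero.exp (-2 : ℤ) < 1 := by
    rw [← WithZero.exp_zero, WithZero.exp_lt_exp]
    norm_num
  have hlt1 : WithZero.exp (-1 : ℤ) < 1 := by
    rw [← WithZero.exp_zero, WithZero.exp_lt_exp]
    norm_num
  set S : N := ∑ u : U H, algebraMap K N (c u : K) * lamQ (smU J u) with hS
  have hz1 : w.valuation N (z ^ ℓ - 1) < 1 := by
    have e1 : z ^ ℓ - 1 = (XX T iv n P J c - 1 + S * tc P) - S * tc P -
        (XX T iv n P J c - z ^ ℓ) := by ring
    rw [e1]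
    exact Valuation.map_sub_lt _ (Valuation.map_sub_lt _ (lt_of_le_of_lt hloc hlt)
      (lt_of_le_of_lt hle hlt1)) (lt_of_le_of_lt hz hlt)
  have hz2 := pow_loc h hw hz1
  have h4 : w.valuation N (S * tc P) ≤ WithZero.exp (-2 : ℤ) := by
    have e1 : S * tc P = (XX T iv n P J c - 1 + S * tc P) - (XX T iv n P J c - z ^ ℓ) -
        (z ^ ℓ - 1) := by ring
    rw [e1]
    exact Valuation.map_sub_le _ (Valuation.map_sub_le _ hloc hz) hz2
  rw [map_mul, hvt] at h4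
  by_contra hcon
  have h5 : 1 ≤ w.valuation N S := not_lt.1 hcon
  have h6 : WithZero.exp (-1 : ℤ) ≤ WithZero.exp (-2 : ℤ) := by
    calc WithZero.exp (-1 : ℤ) = 1 * WithZero.exp (-1 : ℤ) := (one_mul _).symm
      _ ≤ w.valuation N S * WithZero.exp (-1 : ℤ) := mul_le_mul' h5 le_rfl
      _ ≤ _ := h4
  rw [WithZero.exp_le_exp] at h6
  norm_num at h6

end

end

end Pool.Agent.Lib.MP_1a91b9_ntX.DG
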