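import Pool.Agent.Lib.MP_1a91b9_ntX.DG.Grp
import Pool.Agent.Lib.MP_1a91b9_ntX.DG.XXb
import Pool.Agent.Lib.MP_1a91b9_ntX.DG.Dual

/-!
# restriction to `N` and the classes `inB`

Port of MP_1a91b9_ntT/DG/Res.lean to the curves `y² = x³ + D`.
-/

set_option autoImplicit false

namespace Pool.Agent.Lib.MP_1a91b9_ntX.DG

open NumberField IsDedekindDomain WeierstrassCurve Pool.Agent.Lib.MP_1a91b9_ntT
open Pool.Agent.Lib.MP_1a91b9_ntX.DB

noncomputable section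

variable [DD]

section
variable {μ : 𝓞 K} {H : Subgroup (CU μ)} {ϖ : 𝓞 K} {ℓ q : ℕ} {F N L : Type} [Field F] [NumberField F] [Algebra K F]
  [Field N] [NumberField N] [Algebra K N] [Algebra F N] [IsScalarTower K F N] [IsGalois F N]
  [DecidableEq N] [Field L] [NumberField L] [Algebra K L] [Algebra F L] [Algebra N L]
  [IsScalarTower K F L] [IsScalarTower K N L] [IsScalarTower F N L] [DecidableEq L]
  {P : Pt N} {J : Pt L} (hG : TopG H ϖ ℓ q F N L P J)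

theorem resK_ga (σ : Gal(L/N)) (Q : Pt L) :
    ga (AlgEquiv.restrictScalars K σ : Gal(L/K)) Q = ga σ Q := by
  rcases cases_pt Q with rfl | ⟨x, y, h, rfl⟩
  · rw [map_zero, map_zero]
  · rfl

private theorem res_up {τ : Gal(N/F)} {σ : Gal(L/K)}
    (h : ∀ x : N, algebraMap N L (τ x) = σ (algebraMap N L x)) (Q : Pt N) :
    up L (ga τ Q) = ga σ (up L Q) := by
  rcases cases_pt Q with rfl | ⟨x, y, hxy, rfl⟩
  · unfold up
    rw [map_zero, map_zero, map_zero]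
  · obtain ⟨h1, e1⟩ := pm_mk ((τ : N →ₐ[F] N).restrictScalars K) x y hxy
    obtain ⟨h2, e2⟩ := pm_mk (IsScalarTower.toAlgHom K N L) _ _ h1
    obtain ⟨h3, e3⟩ := pm_mk (IsScalarTower.toAlgHom K N L) _ _ hxy
    obtain ⟨h4, e4⟩ := pm_mk ((σ : L →ₐ[K] L).restrictScalars K) _ _ h3
    have e5 : up L (ga τ (mkPt x y hxy)) = _ := (congrArg (up L) e1).trans e2
    have e6 : ga σ (up L (mkPt x y hxy)) = _ := (congrArg (ga σ) e3).trans e4
    rw [e5, e6, mk_inj]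
    exact ⟨h x, h y⟩

include hG

theorem TopG.restr {σ : Gal(L/K)} (h1 : ∀ x : F, σ (algebraMap F L x) = algebraMap F L x) :
    ∃ τ : Gal(N/F), (∀ x : N, algebraMap N L (τ x) = σ (algebraMap N L x)) ∧
      up L (ga τ P) = ga σ (up L P) := by
  have _ := hG.ne
  have e1 : ∃ ρ : Gal(L/F), ∀ x : L, ρ x = σ x :=
    ⟨AlgEquiv.ofRingEquiv (f := σ.toRingEquiv) h1, fun _ => rfl⟩
  obtain ⟨ρ, hρ⟩ := e1
  have e2 : ∀ x : N, algebraMap N L (ρ.restrictNormal N x) = σ (algebraMap N L x) := by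
    intro x
    rw [AlgEquiv.restrictNormal_commutes, hρ]
  exact ⟨ρ.restrictNormal N, e2, res_up e2 P⟩

theorem TopG.fixN {σ : Gal(L/K)} (h1 : ∀ x : F, σ (algebraMap F L x) = algebraMap F L x)
    (h2 : ga σ (up L P) = up L P) (x : N) : σ (algebraMap N L x) = algebraMap N L x := by
  obtain ⟨τ, h3, h4⟩ := hG.restr h1
  have h5 : ga τ P = P := pm_inj (IsScalarTower.toAlgHom K N L) (h4.trans h2)
  have h6 := hG.full.gen τ h5
  rw [← h3, h6]
  rfl

theorem TopG.inB_fix {b : U H} (hb : inB N J b) {σ : Gal(L/K)} (hσ : ga σ J = smU J b) (x : F) :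
    σ (algebraMap F L x) = algebraMap F L x := by
  obtain ⟨σ0, h0⟩ := hb
  have h1 : ga (AlgEquiv.restrictScalars K σ0 : Gal(L/K)) J = ga σ J := by
    rw [resK_ga, h0, hσ]
  have h2 : ga ((AlgEquiv.restrictScalars K σ0 : Gal(L/K))⁻¹ * σ) J = J := by
    rw [ga_mul, ← h1, ← ga_mul, inv_mul_cancel, ga_one]
  have h3 := hG.fixF _ h2 x
  have h4 : σ (algebraMap F L x) = (AlgEquiv.restrictScalars K σ0 : Gal(L/K))
      (((AlgEquiv.restrictScalars K σ0 : Gal(L/K))⁻¹ * σ) (algebraMap F L x)) := by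
    rw [← AlgEquiv.mul_apply, mul_inv_cancel_left]
  rw [h4, h3, AlgEquiv.restrictScalars_apply, IsScalarTower.algebraMap_apply F N L, σ0.commutes]

theorem TopG.inB_of_fix {b : U H} {σ : Gal(L/K)} (hσ : ga σ J = smU J b)
    (h1 : ∀ x : F, σ (algebraMap F L x) = algebraMap F L x) : inB N J b := by
  obtain ⟨-, d, hd, -, h2⟩ := hG.act σ
  obtain ⟨τ, h3, h4⟩ := hG.surj2 (1 : U H) hd
  rw [smU_one hG.ord] at h3
  have h5 : ga (τ⁻¹ * σ) (up L P) = up L P := by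
    rw [ga_mul, h2, ← h4, ← ga_mul, inv_mul_cancel, ga_one]
  have h6 : ga τ⁻¹ J = J := by
    have h : ga τ⁻¹ (ga τ J) = J := by rw [← ga_mul, inv_mul_cancel, ga_one]
    rwa [h3] at h
  have h7 : ga (τ⁻¹ * σ) J = smU J b := by
    rw [ga_mul, hσ]
    unfold smU
    rw [ga_sm, h6]
  have h8 : ∀ x : F, (τ⁻¹ * σ) (algebraMap F L x) = algebraMap F L x := by
    intro x
    rw [AlgEquiv.mul_apply, h1]
    exact hG.fixF τ⁻¹ h6 x
  have h9 := hG.fixN h8 h5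
  have h10 : ∃ ρ : Gal(L/N), ∀ x : L, ρ x = (τ⁻¹ * σ) x :=
    ⟨AlgEquiv.ofRingEquiv (f := (τ⁻¹ * σ : Gal(L/K)).toRingEquiv) h9, fun _ => rfl⟩
  obtain ⟨ρ, hρ⟩ := h10
  have h11 : (AlgEquiv.restrictScalars K ρ : Gal(L/K)) = τ⁻¹ * σ := AlgEquiv.ext hρ
  refine ⟨ρ, ?_⟩
  rw [← resK_ga, h11, h7]

theorem TopG.inB_one : inB N J (1 : U H) := by
  refine ⟨1, ?_⟩
  rw [ga_one, smU_one hG.ord]

theorem TopG.inB_mul {a b : U H} (ha : inB N J a) (hb : inB N J b) : inB N J (a * b) := by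
  obtain ⟨σ, hσ⟩ := ha
  obtain ⟨τ, hτ⟩ := hb
  refine ⟨σ * τ, ?_⟩
  rw [ga_mul, hτ, mul_comm a b, ← smU_mul hG.ord, ← hσ]
  unfold smU
  rw [ga_sm]

theorem TopG.inB_inv {a : U H} (ha : inB N J a) : inB N J a⁻¹ := by
  obtain ⟨σ, hσ⟩ := ha
  refine ⟨σ⁻¹, ?_⟩
  have h1 : ga σ (smU J a⁻¹) = J := by
    have h2 : ga σ (smU J a⁻¹) = sm L (rp a⁻¹) (smU J a) := by
      rw [← hσ]
      unfold smU
      rw [ga_sm]
    rw [h2, smU_mul hG.ord, inv_mul_cancel, smU_one hG.ord]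
  have h3 : ga σ⁻¹ (ga σ (smU J a⁻¹)) = smU J a⁻¹ := by
    rw [← ga_mul, inv_mul_cancel, ga_one]
  rw [h1] at h3
  exact h3

theorem TopG.galN : IsGalois K N := by
  have := hG.gal
  have : IsGalois N L := IsGalois.tower_top_of_isGalois K N L
  have h1 : Normal K (IsScalarTower.toAlgHom K N L).fieldRange := by
    rw [IntermediateField.normal_iff_forall_map_le']
    rintro σ _ ⟨_, ⟨y, rfl⟩, rfl⟩
    have h2 : ∀ ρ : Gal(L/N), ρ (σ (algebraMap N L y)) = σ (algebraMap N L y) := by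
      intro ρ
      have h3 := congrArg (fun τ : Gal(L/K) => τ (algebraMap N L y))
        (hG.comm' (AlgEquiv.restrictScalars K ρ) σ)
      have h4 : ρ (σ (algebraMap N L y)) = σ (ρ (algebraMap N L y)) := h3
      rw [h4, ρ.commutes]
    obtain ⟨z, hz⟩ := (IsGalois.mem_range_algebraMap_iff_fixed _).2 h2
    exact ⟨z, hz⟩
  have h5 : IsGalois K (IsScalarTower.toAlgHom K N L).fieldRange := { to_normal := h1 }
  have e : (IsScalarTower.toAlgHom K N L).fieldRange ≃ₐ[K] N :=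
    (AlgEquiv.ofInjectiveField (IsScalarTower.toAlgHom K N L)).symm
  exact IsGalois.of_algEquiv e

theorem TopG.XX_desc [Fintype (U H)] {T : Finset (𝓞 K)} {iv : 𝓞 K → 𝓞 K} {n : 𝓞 K → ℤ}
    (hT : TrD ϖ ℓ T iv n) {c : U H → 𝓞 K} (hc : BI N ϖ J c) :
    ∃ x : N, algebraMap N L x = XX T iv n (up L P) J c := by
  have := hG.gal
  have : IsGalois N L := IsGalois.tower_top_of_isGalois K N L
  have key : ∀ ρ : Gal(L/N), ρ (XX T iv n (up L P) J c) = XX T iv n (up L P) J c := by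
    intro ρ
    obtain ⟨b, -, -, hb, -⟩ := hG.act (AlgEquiv.restrictScalars K ρ)
    have h1 : inB N J b := ⟨ρ, by rw [← resK_ga, hb]⟩
    have h2 : ga (AlgEquiv.restrictScalars K ρ : Gal(L/K)) (up L P) = sm L 1 (up L P) := by
      rw [resK_ga, yyb_fix, map_one]
      rfl
    have h3 : ¬ ϖ ∣ 1 := fun h => hG.pd.prime.not_isUnit (isUnit_of_dvd_one h)
    have h4 := XX_ga hG.pd hT hG.ordP hG.copw hG.nlam hG.ord h3 hb h2 c
    have h5 : ρ (XX T iv n (up L P) J c) =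
        (AlgEquiv.restrictScalars K ρ : Gal(L/K)) (XX T iv n (up L P) J c) := rfl
    rw [h5, h4]
    refine XX_cong hG.pd hT hG.ordP hG.copw hG.nlam hG.ord fun u => ?_
    have h6 := hc b (b⁻¹ * u) h1
    have h7 : b⁻¹ * u * b = u := by
      rw [mul_comm, mul_inv_cancel_left]
    rw [h7, ← dvd_neg, neg_sub] at h6
    rwa [mul_one]
  obtain ⟨z, hz⟩ := (IsGalois.mem_range_algebraMap_iff_fixed _).2 key
  exact ⟨z, hz⟩

end

end

end Pool.Agent.Lib.MP_1a91b9_ntX.DG
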