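import Pool.Agent.Lib.MP_1a91b9_ntX.DG.LamV
import Pool.Agent.Lib.MP_1a91b9_ntX.DG.GalU
import Pool.Agent.Lib.MP_1a91b9_ntX.DG.Hps

/-!
# The sums of the values `lamQ (u J)` over the fibres

JOB SUMV. PROOF (complete; helper30). `hM : Md μ := Md.of_nu hN`.
`AB.h0`: `hN.ex` gives `κ` coprime to `μ`, `μ' ∣ κ - 1`, `ps (span {κ}) ≠ κ`. `hM.cop_I` for `I = span {κ}`: `span {ps I} = span {κ}`, so `ps I = η κ` with a unit `η ≠ 1`. `hAB.ps_mem hM` gives `h : U H` with `μ ∣ η κ - rp h`. So `μ' ∣ rp h - η`. `h ^ 6 = 1`: the class of `(η κ)^6 = η^6 κ^6`, `η^6 = 1`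
(units of `𝓞 K`: `S4` or `frobU_six` in MP_1a91b9_ntX/DB/FrobU.lean), and `μ ∣ κ^6 - 1`: `κ = 1 + μ' t`. If `pi3 ∣ μ'`: `κ^3 - 1 = 3 μ' t + 3 μ'^2 t^2 + μ'^3 t^3` is divisible by `pi3 μ' = μ` (`pi3_dvd_three`). If `pi3 ∤ μ'`: `pi3 ∣ κ^2 - 1` (`κ` coprime to `pi3`, and `κ = ± 1` modulo `pi3`: every element is `0, 1, 2` modulo `pi3`),
`μ' ∣ κ^2 - 1`, coprime, so `μ ∣ κ^2 - 1`. [`rp` of a power: `rp_mul`, induction: `μ ∣ rp (h^n) - (rp h)^n`; `rp_inj`, `rp_one`.] Hence `res h ^ 6 = 1` and `res h ^ card G = 1` with `card G` prime to `6`, so `res h = 1` (`pow_gcd_eq_one`).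
`AB.sum_zero`: let `f a = E1 (embK a / embK μ')`. `f a = f b` if `μ' ∣ a - b` (`S3.E1_congr`; the lattice contains `embK d`, see ZC.lean), `embK η * f (η a) = f a` (`zc_unit` of MP_1a91b9_ntT.DG). With `h`, `η` of `AB.h0`: `S = Σ_{res u = g} f (rp u y0)`. Replace `u` by `h u` (`Finset.sum_equiv (Equiv.mulLeft h)`, `res (h u) = res u`):
`S = Σ_{res u = g} f (rp (h u) y0) = Σ f (η rp u y0) = (embK η)⁻¹ S` (`rp (h u) = rp h rp u` modulo `μ`, hence modulo `μ'`, `= η rp u`). `embK η ≠ 1`, so `S = 0`.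
`AB.trace_val`: `lam_val φ hAB.ord` (LamV.lean; `he := hN.eq`, `hl := hN.nlam`) gives `δ`, `y0`. `hAB.unit_mul hM` for `y0`: `μ ∣ y0 - η rp u0`. `hAB.trace_res hres g`, `smU J' u = sm (rp u) J'`, `rp_cop`: `Om φ(..) = Σ_{res u = g} 2 δ (pi3 f (rp u y0) - 3 E1 (rp u y0 / μ)) = -6 δ Σ_{res u = g} E1 (rp u y0 / μ)` by `AB.sum_zero`.
`E1 (rp u y0 / μ) = E1 (η rp (u u0) / μ) = (embK η)⁻¹ E1 (rp (u u0) / μ)` (`rp u y0 = η rp u rp u0 = η rp (u u0)` modulo `μ`). Replace `u` by `u u0⁻¹`: `res u = g res u0`. So `κ = -6 δ (embK η)⁻¹ embK μ ≠ 0`.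
-/

set_option autoImplicit false

namespace Pool.Agent.Lib.MP_1a91b9_ntX.DG

open NumberField IsDedekindDomain WeierstrassCurve Pool.Agent.Lib.MP_1a91b9_ntT
open Pool.Agent.Lib.MP_1a91b9_ntX.DB

noncomputable section

variable [DD] [HC]

omit [DD] [HC] in
private theorem sumv_six (u : (𝓞 K)ˣ) : u ^ 6 = 1 := by
  have h := IsCyclotomicExtension.Rat.Three.Units.mem om_spec u
  obtain ⟨η, hη⟩ : ∃ η : (𝓞 K)ˣ, η =
    (IsPrimitiveRoot.isUnit (om_spec.toInteger_isPrimitiveRoot) (by decide)).unit := ⟨_, rfl⟩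
  rw [← hη] at h
  have h3 : η ^ 3 = 1 := by
    ext
    rw [Units.val_pow_eq_pow_val, hη, IsUnit.unit_spec, om_spec.toInteger_cube_eq_one,
      Units.val_one]
  have h6 : η ^ 6 = 1 := by
    rw [show 6 = 3 * 2 by rfl, pow_mul, h3, one_pow]
  simp only [List.mem_cons, List.not_mem_nil, or_false] at h
  rcases h with h | h | h | h | h | h
  · rw [h, one_pow]
  · rw [h, Even.neg_pow (by decide), one_pow]
  · rw [h, h6]
  · rw [h, Even.neg_pow (by decide), h6]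
  · rw [h, ← pow_mul, mul_comm, pow_mul, h6, one_pow]
  · rw [h, Even.neg_pow (by decide), ← pow_mul, mul_comm, pow_mul, h6, one_pow]

omit [DD] [HC] in
private theorem sumv_six' (u : (𝓞 K)ˣ) : (u : 𝓞 K) ^ 6 = 1 := by
  have h1 := congrArg (Units.val) (sumv_six u)
  rwa [Units.val_pow_eq_pow_val, Units.val_one] at h1

omit [DD] [HC] in
private theorem sumv_kap {μ' κ : 𝓞 K} (hc : IsCoprime κ pi3) (h : μ' ∣ κ - 1) :
    pi3 * μ' ∣ κ ^ 6 - 1 := by
  have e6 : κ ^ 6 - 1 = (κ - 1) * (κ ^ 5 + κ ^ 4 + κ ^ 3 + κ ^ 2 + κ + 1) := by ring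
  by_cases hp : pi3 ∣ μ'
  · obtain ⟨t, ht⟩ := h
    obtain ⟨w, hw⟩ := hp
    obtain ⟨v, hv⟩ := pi3_dvd_three
    have hk : κ = 1 + μ' * t := by linear_combination ht
    have e3 : κ ^ 6 - 1 = (κ ^ 3 - 1) * (κ ^ 3 + 1) := by ring
    rw [e3]
    refine Dvd.dvd.mul_right ?_ _
    have e4 : κ ^ 3 - 1 = 3 * (μ' * t) + 3 * (μ' * t) ^ 2 + (μ' * t) * (μ' * t) ^ 2 := by
      rw [hk]; ring
    rw [e4]
    refine ⟨v * t + v * t * (μ' * t) + w * t * (t * (μ' * t)), ?_⟩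
    rw [hv]
    have e5 : μ' * t * (μ' * t) ^ 2 = pi3 * μ' * (w * t * (t * (μ' * t))) := by
      calc μ' * t * (μ' * t) ^ 2 = μ' * (t * (t * (μ' * t))) * μ' := by ring
        _ = μ' * (t * (t * (μ' * t))) * (pi3 * w) := by rw [← hw]
        _ = pi3 * μ' * (w * t * (t * (μ' * t))) := by ring
    rw [e5]
    ring
  · have h1 : IsCoprime pi3 μ' := prime_pi3.irreducible.coprime_iff_not_dvd.2 hp
    refine h1.mul_dvd ?_ ?_
    · have h2 : ¬ pi3 ∣ κ := by
        rw [← prime_pi3.irreducible.coprime_iff_not_dvd]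
        exact hc.symm
      obtain ⟨u, hu⟩ := MP_1a91b9_ntT.DG.zc_unit_cong (coprime_three h2)
      have h3 : κ - u ∣ κ ^ 6 - (u : 𝓞 K) ^ 6 := sub_dvd_pow_sub_pow _ _ 6
      rw [sumv_six'] at h3
      exact pi3_dvd_three.trans (hu.trans h3)
    · rw [e6]
      exact Dvd.dvd.mul_right h _

omit [DD] [HC] in
private theorem sumv_pow {μ : 𝓞 K} {H : Subgroup (CU μ)} (h : U H) (n : ℕ) :
    μ ∣ rp (h ^ n) - rp h ^ n := by
  induction n with
  | zero =>
    rw [pow_zero, pow_zero]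
    exact rp_one
  | succ n ih =>
    rw [pow_succ, pow_succ]
    have h1 := rp_mul (h ^ n) h
    have e : rp (h ^ n * h) - rp h ^ n * rp h =
        (rp (h ^ n * h) - rp (h ^ n) * rp h) + (rp (h ^ n) - rp h ^ n) * rp h := by ring
    rw [e]
    exact dvd_add h1 (Dvd.dvd.mul_right ih _)

omit [DD] [HC] in
private theorem sumv_congr {ν a b : 𝓞 K} (hν : ν ≠ 0) (h : ν ∣ a - b) :
    E1 (embK (a : K) / embK (ν : K)) = E1 (embK (b : K) / embK (ν : K)) := by
  obtain ⟨e, he⟩ := h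
  have h1 : a = b + ν * e := by linear_combination he
  have h2 : embK (a : K) / embK (ν : K) = embK (b : K) / embK (ν : K) + embK (e : K) := by
    rw [h1, MP_1a91b9_ntT.DG.zc_add, MP_1a91b9_ntT.DG.zc_mul, add_div,
      mul_div_cancel_left₀ _ (MP_1a91b9_ntT.DG.zc_ne hν)]
  rw [h2, E1_period]

omit [DD] [HC] in
private theorem sumv_unit {ν : 𝓞 K} (η : (𝓞 K)ˣ) (a : 𝓞 K) :
    embK ((η : 𝓞 K) : K) * E1 (embK (((η : 𝓞 K) * a : 𝓞 K) : K) / embK (ν : K)) =
      E1 (embK (a : K) / embK (ν : K)) := by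
  rw [MP_1a91b9_ntT.DG.zc_mul, mul_div_assoc, MP_1a91b9_ntT.DG.zc_unit]

section
variable {μ : 𝓞 K} {H : Subgroup (CU μ)} {F L' : Type} [Field F] [NumberField F] [Algebra K F]
  [Field L'] [NumberField L'] [Algebra K L'] [Algebra F L'] [IsScalarTower K F L']
  [DecidableEq L'] {J' : Pt L'} (hAB : AB H F L' J')
include hAB

theorem AB.h0 {μ' : 𝓞 K} (hN : Nu μ μ') {G : Type} [Group G] (res : U H →* G)
    (h6 : Nat.Coprime (Nat.card G) 6) : ∃ (η : (𝓞 K)ˣ) (h : U H), η ≠ 1 ∧ res h = 1 ∧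
      μ' ∣ rp h - η := by
  have hM := Md.of_nu hN
  obtain ⟨κ, hκμ, hκ, hκps⟩ := hN.ex
  have hI : IsCoprime (Ideal.span {κ}) (Ideal.span {μ}) :=
    (Ideal.isCoprime_span_singleton_iff _ _).2 hκμ
  obtain ⟨-, h2, -, -⟩ := hM.cop_I hI
  obtain ⟨η, hη⟩ := Ideal.span_singleton_eq_span_singleton.1 h2.symm
  obtain ⟨h, hh⟩ := hAB.ps_mem hM hI
  rw [← hη] at hh
  have hμ' : μ' ∣ μ := by
    rw [hN.eq]
    exact dvd_mul_left _ _
  have hpμ : pi3 ∣ μ := by
    rw [hN.eq]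
    exact dvd_mul_right _ _
  have h6' : μ ∣ κ ^ 6 - 1 := by
    rw [hN.eq]
    exact sumv_kap (hκμ.of_isCoprime_of_dvd_right hpμ) hκ
  have hpow : h ^ 6 = 1 := by
    apply rp_inj
    have e1 := sumv_pow h 6
    have e2 : μ ∣ (κ * η) ^ 6 - rp h ^ 6 := hh.trans (sub_dvd_pow_sub_pow _ _ 6)
    have e3 : (κ * η) ^ 6 = κ ^ 6 := by rw [mul_pow, sumv_six', mul_one]
    rw [e3] at e2
    have e4 := rp_one (μ := μ) (H := H)
    have e5 : rp (h ^ 6) - rp (1 : U H) = (rp (h ^ 6) - rp h ^ 6) - (κ ^ 6 - rp h ^ 6) +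
        (κ ^ 6 - 1) - (rp (1 : U H) - 1) := by ring
    rw [e5]
    exact dvd_sub (dvd_add (dvd_sub e1 e2) h6') e4
  refine ⟨η, h, ?_, ?_, ?_⟩
  · intro h1
    rw [h1, Units.val_one, mul_one] at hη
    exact hκps hη.symm
  · have e1 : res h ^ 6 = 1 := by rw [← map_pow, hpow, map_one]
    have e2 : res h ^ Nat.card G = 1 := pow_card_eq_one'
    have e3 := pow_gcd_eq_one.2 ⟨e2, e1⟩
    rwa [Nat.Coprime.gcd_eq_one h6, pow_one] at e3
  · have e1 : rp h - η = (κ - 1) * η - (κ * η - rp h) := by ring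
    rw [e1]
    exact dvd_sub (Dvd.dvd.mul_right hκ _) (hμ'.trans hh)

theorem AB.sum_zero {μ' : 𝓞 K} (hN : Nu μ μ') [Fintype (U H)] {G : Type} [Group G]
    (res : U H →* G) (h6 : Nat.Coprime (Nat.card G) 6) (y0 : 𝓞 K) (g : G) :
    ∑ u : U H, (haveI := Classical.dec (res u = g); if res u = g then
      E1 (embK ((rp u * y0 : 𝓞 K) : K) / embK (μ' : K)) else 0) = 0 := by
  obtain ⟨η, h, hη, hres, hh⟩ := hAB.h0 hN res h6
  have hμ0 : μ' ≠ 0 := by
    rintro rfl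
    exact hN.ne (by rw [hN.eq, mul_zero])
  have hμ' : μ' ∣ μ := by
    rw [hN.eq]
    exact dvd_mul_left _ _
  obtain ⟨f, hf⟩ : ∃ f : U H → ℂ, f = fun u => (haveI := Classical.dec (res u = g);
      if res u = g then E1 (embK ((rp u * y0 : 𝓞 K) : K) / embK (μ' : K)) else 0) := ⟨_, rfl⟩
  have hfu : ∀ u, embK ((η : 𝓞 K) : K) * f (h * u) = f u := by
    intro u
    rw [hf]
    show embK ((η : 𝓞 K) : K) * (haveI := Classical.dec (res (h * u) = g);
      if res (h * u) = g then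
      E1 (embK ((rp (h * u) * y0 : 𝓞 K) : K) / embK (μ' : K)) else 0) =
      (haveI := Classical.dec (res u = g);
      if res u = g then E1 (embK ((rp u * y0 : 𝓞 K) : K) / embK (μ' : K)) else 0)
    have e1 : res (h * u) = res u := by rw [map_mul, hres, one_mul]
    by_cases hu : res u = g
    · rw [if_pos (e1.trans hu), if_pos hu]
      have e2 : μ' ∣ rp (h * u) * y0 - (η : 𝓞 K) * (rp u * y0) := by
        have e3 : rp (h * u) * y0 - (η : 𝓞 K) * (rp u * y0) =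
            (rp (h * u) - rp h * rp u) * y0 + (rp h - η) * (rp u * y0) := by ring
        rw [e3]
        exact dvd_add (Dvd.dvd.mul_right (hμ'.trans (rp_mul h u)) _) (Dvd.dvd.mul_right hh _)
      rw [sumv_congr hμ0 e2, sumv_unit]
    · rw [if_neg (fun h3 => hu (e1.symm.trans h3)), if_neg hu, mul_zero]
  have hS : embK ((η : 𝓞 K) : K) * ∑ u, f u = ∑ u, f u := by
    have e1 : ∑ u, f u = ∑ u, f (h * u) := (Equiv.sum_comp (Equiv.mulLeft h) f).symm
    calc embK ((η : 𝓞 K) : K) * ∑ u, f u = embK ((η : 𝓞 K) : K) * ∑ u, f (h * u) := by rw [← e1]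
      _ = ∑ u, embK ((η : 𝓞 K) : K) * f (h * u) := Finset.mul_sum _ _ _
      _ = ∑ u, f u := Finset.sum_congr rfl fun u _ => hfu u
  have hη1 : embK ((η : 𝓞 K) : K) ≠ 1 := by
    intro h1
    apply hη
    apply Units.ext
    rw [Units.val_one]
    apply MP_1a91b9_ntT.DG.zc_inj
    rw [h1, MP_1a91b9_ntT.DG.zc_one]
  have h3 : (embK ((η : 𝓞 K) : K) - 1) * ∑ u, f u = 0 := by
    rw [sub_mul, hS, one_mul, sub_self]
  have h4 := (mul_eq_zero.1 h3).resolve_left (sub_ne_zero.2 hη1)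
  rw [hf] at h4
  exact h4

theorem AB.trace_val {μ' : 𝓞 K} (hN : Nu μ μ') [Fintype (U H)] {res : U H →* Gal(F/K)}
    (hres : ∀ (σ : Gal(L'/K)) (u : U H), ga σ J' = smU J' u →
      ∀ x : F, algebraMap F L' (res u x) = σ (algebraMap F L' x))
    (h6 : Nat.Coprime (Nat.card Gal(F/K)) 6) (φ : L' →ₐ[K] ℂ) :
    ∃ (κ : ℂ) (u0 : U H), κ ≠ 0 ∧ ∀ g : Gal(F/K),
      Om * φ (algebraMap F L' (g (Algebra.trace F L' (lamQ J')))) =
        κ * ∑ u : U H, (haveI := Classical.dec (res u = g * res u0); if res u = g * res u0 then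
          (embK (μ : K))⁻¹ * E1 (embK ((rp u : 𝓞 K) : K) / embK (μ : K)) else 0) := by
  have hM := Md.of_nu hN
  obtain ⟨δ, y0, hδ, hy0, hval⟩ := lam_val hN.ne hN.eq hN.nlam φ hAB.ord
  obtain ⟨η, u0, hη⟩ := hAB.unit_mul hM hy0
  have hη0 : embK ((η : 𝓞 K) : K) ≠ 0 := MP_1a91b9_ntT.DG.zc_ne η.ne_zero
  have hμ0 : embK (μ : K) ≠ 0 := MP_1a91b9_ntT.DG.zc_ne hN.ne
  refine ⟨-(6 * δ) * (embK ((η : 𝓞 K) : K))⁻¹ * embK (μ : K), u0, ?_, fun g => ?_⟩
  · exact mul_ne_zero (mul_ne_zero (neg_ne_zero.2 (mul_ne_zero (by norm_num) hδ))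
      (inv_ne_zero hη0)) hμ0
  · have hz := hAB.sum_zero hN res h6 y0 g
    rw [hAB.trace_res hres g, map_sum, Finset.mul_sum, Finset.mul_sum]
    have e1 : ∀ u : U H, Om * φ (haveI := Classical.dec (res u = g);
        if res u = g then lamQ (smU J' u) else 0) =
        2 * δ * embK ((pi3 : 𝓞 K) : K) * (haveI := Classical.dec (res u = g);
          if res u = g then E1 (embK ((rp u * y0 : 𝓞 K) : K) / embK (μ' : K)) else 0) +
        (-(6 * δ) * (embK ((η : 𝓞 K) : K))⁻¹) * (haveI := Classical.dec (res u = g);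
          if res u = g then E1 (embK ((rp (u * u0) : 𝓞 K) : K) / embK (μ : K)) else 0) := by
      intro u
      by_cases hu : res u = g
      · rw [if_pos hu, if_pos hu, if_pos hu]
        have e2 := hval (rp u) (rp_cop u)
        have e3 : μ ∣ rp u * y0 - (η : 𝓞 K) * rp (u * u0) := by
          have e4 : rp u * y0 - (η : 𝓞 K) * rp (u * u0) =
              rp u * (y0 - η * rp u0) - η * (rp (u * u0) - rp u * rp u0) := by ring
          rw [e4]
          exact dvd_sub (Dvd.dvd.mul_left hη _) (Dvd.dvd.mul_left (rp_mul u u0) _)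
        have e5 : E1 (embK ((rp u * y0 : 𝓞 K) : K) / embK (μ : K)) =
            (embK ((η : 𝓞 K) : K))⁻¹ * E1 (embK ((rp (u * u0) : 𝓞 K) : K) / embK (μ : K)) := by
          rw [sumv_congr hN.ne e3, ← sumv_unit η (rp (u * u0)), inv_mul_cancel_left₀ hη0]
        show Om * φ (lamQ (sm L' (rp u) J')) = _
        rw [e2, e5]
        ring
      · rw [if_neg hu, if_neg hu, if_neg hu, map_zero]
        ring
    rw [Finset.sum_congr rfl fun u _ => e1 u, Finset.sum_add_distrib, ← Finset.mul_sum, hz, mul_zero,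
      zero_add]
    obtain ⟨f, hf⟩ : ∃ f : U H → ℂ, f = fun v =>
        -(6 * δ) * (embK ((η : 𝓞 K) : K))⁻¹ * embK (μ : K) *
          (haveI := Classical.dec (res v = g * res u0); if res v = g * res u0 then
          (embK (μ : K))⁻¹ * E1 (embK ((rp v : 𝓞 K) : K) / embK (μ : K)) else 0) := ⟨_, rfl⟩
    have e6 : ∀ u : U H, (-(6 * δ) * (embK ((η : 𝓞 K) : K))⁻¹) *
        (haveI := Classical.dec (res u = g);
          if res u = g then E1 (embK ((rp (u * u0) : 𝓞 K) : K) / embK (μ : K)) else 0) =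
        f (u * u0) := by
      intro u
      rw [hf]
      show _ = -(6 * δ) * (embK ((η : 𝓞 K) : K))⁻¹ * embK (μ : K) *
          (haveI := Classical.dec (res (u * u0) = g * res u0); if res (u * u0) = g * res u0 then
          (embK (μ : K))⁻¹ * E1 (embK ((rp (u * u0) : 𝓞 K) : K) / embK (μ : K)) else 0)
      by_cases hu : res u = g
      · have hu' : res (u * u0) = g * res u0 := by rw [map_mul, hu]
        rw [if_pos hu, if_pos hu']
        rw [mul_assoc _ (embK (μ : K)), mul_inv_cancel_left₀ hμ0]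
      · have hu' : ¬ res (u * u0) = g * res u0 := by
          intro h7
          rw [map_mul] at h7
          exact hu (mul_right_cancel h7)
        rw [if_neg hu, if_neg hu', mul_zero, mul_zero]
    rw [Finset.sum_congr rfl fun u _ => e6 u]
    have e7 : ∑ u : U H, f (u * u0) = ∑ u : U H, f u := Equiv.sum_comp (Equiv.mulRight u0) f
    rw [e7, hf]

end

end

end Pool.Agent.Lib.MP_1a91b9_ntX.DG
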