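import Pool.Agent.Lib.MP_1a91b9_ntX.DG.XE
import Pool.Agent.Lib.MP_1a91b9_ntX.DB.Phi

/-!
# The valuation of the abscissa of a mixed torsion point

JOB XD. PROOF (complete; helper30). `xD_val`: let `F' = AlgebraicClosure F` (classical `DecidableEq`), a `K`-algebra through `F`
(`IsScalarTower`), `f : F →ₐ[K] F'`; `δ : F'` a root of `16 δ^6 = D` (`F'` is algebraically closed: `IsAlgClosed.exists_pow_nat_eq`, `16 ≠ 0`).
`exists_val_ext v` (DB/VExt.lean) gives a valuation subring `B` of `F'` extending `v`; `V = B.valuation`. Let `Q'`, `P'` be the preimages of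
`pm f Q`, `pm f P` under the isomorphism `phi F' δ hδ` (DB/PhiA.lean, DB/Phi.lean) from the points of `y^2 + y = x^3`. By `phi_sm` and injectivity they
satisfy the hypotheses of `xe_unit V`: `V (xc (Q' + P')) = 1`. By `xc_phi`: `f (xc (Q + P)) = xc (phi (Q' + P')) = 4 δ^2 xc (Q' + P')`, so
`f (xc (Q + P))^3 = 4 * (16 δ^6) * xc(Q' + P')^3 = 4 D xc(Q' + P')^3` and `V (f (xc (Q + P)^3 / (4 D))) = 1`. By `val_ext_eq`: `v (xc (Q + P)^3 / (4 D)) = 1`.
`xD_eq`: the cubes of the values are equal, and `a ↦ a^3` is injective (`pow_left_injective` for linearly ordered commutative groups with zero: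
`pow_left_injective₀` or from `lt_trichotomy` and `pow_lt_pow_left₀`; all values are `≥ 0`).
`xD_ne`: if `xc (Q + P) = 0` then `v (4 D) = 0` for the trivial valuation (`(1 : Valuation F (WithZero (Multiplicative ℤ)))`), but `4 D ≠ 0`.
-/

set_option autoImplicit false

namespace Pool.Agent.Lib.MP_1a91b9_ntX.DG

open NumberField IsDedekindDomain WeierstrassCurve Pool.Agent.Lib.MP_1a91b9_ntT
open Pool.Agent.Lib.MP_1a91b9_ntX.DB

noncomputable section

variable [DD]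

section
variable {F : Type*} [Field F] [Algebra K F] [DecidableEq F]
  {a b : 𝓞 K} (hab : IsCoprime a b) (h3b : IsCoprime pi3 b) {Q P : Pt F}
  (hQ : sm F a Q = 0) (hQ0 : sm F pi3 Q ≠ 0) (hP : sm F b P = 0) (hP0 : P ≠ 0)
include hab h3b hQ hQ0 hP hP0

/-- the valuation of the abscissa of a mixed torsion point -/
theorem xD_val {Γ : Type*} [LinearOrderedCommGroupWithZero Γ] (v : Valuation F Γ) :
    v (xc (Q + P)) ^ 3 = v (4 * dD F) := by
  classical
  have hc : CharZero (AlgebraicClosure F) :=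
    charZero_of_injective_algebraMap (algebraMap K (AlgebraicClosure F)).injective
  have h16 : (16 : AlgebraicClosure F) ≠ 0 := by norm_num
  obtain ⟨δ, hδ'⟩ := IsAlgClosed.exists_pow_nat_eq (dD (AlgebraicClosure F) / 16) (n := 6)
    (by norm_num)
  have hδ : 16 * δ ^ 6 = dD (AlgebraicClosure F) := by
    rw [hδ', mul_div_cancel₀ _ h16]
  obtain ⟨B, hB⟩ := exists_val_ext (F' := AlgebraicClosure F) v
  let f : F →ₐ[K] AlgebraicClosure F := IsScalarTower.toAlgHom K F (AlgebraicClosure F)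
  have hQ1 : phi _ δ hδ ((phi _ δ hδ).symm (pm f Q)) = pm f Q := AddEquiv.apply_symm_apply _ _
  have hP1 : phi _ δ hδ ((phi _ δ hδ).symm (pm f P)) = pm f P := AddEquiv.apply_symm_apply _ _
  obtain ⟨Q1, eQ1⟩ : ∃ Q1, Q1 = (phi _ δ hδ).symm (pm f Q) := ⟨_, rfl⟩
  obtain ⟨P1, eP1⟩ : ∃ P1, P1 = (phi _ δ hδ).symm (pm f P) := ⟨_, rfl⟩
  rw [← eQ1] at hQ1
  rw [← eP1] at hP1
  have hz : ∀ R : MP_1a91b9_ntT.DB.Pt (AlgebraicClosure F), phi _ δ hδ R = 0 ↔ R = 0 :=
    fun R => (phi _ δ hδ).map_eq_zero_iff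
  have k1 : MP_1a91b9_ntT.DB.sm (AlgebraicClosure F) a Q1 = 0 := by
    rw [← hz, phi_sm, hQ1, ← pm_sm, hQ, map_zero]
  have k2 : MP_1a91b9_ntT.DB.sm (AlgebraicClosure F) pi3 Q1 ≠ 0 := by
    intro h
    rw [← hz, phi_sm, hQ1, ← pm_sm] at h
    exact hQ0 (pm_inj f (h.trans (map_zero _).symm))
  have k3 : MP_1a91b9_ntT.DB.sm (AlgebraicClosure F) b P1 = 0 := by
    rw [← hz, phi_sm, hP1, ← pm_sm, hP, map_zero]
  have k4 : P1 ≠ 0 := by
    intro h
    rw [← hz, hP1] at h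
    exact hP0 (pm_inj f (h.trans (map_zero _).symm))
  have hu := xe_unit B.valuation hab h3b k1 k2 k3 k4
  have hx : f (xc (Q + P)) = 4 * δ ^ 2 * MP_1a91b9_ntT.DB.xc (Q1 + P1) := by
    rw [← xc_pm, map_add, ← hQ1, ← hP1, ← map_add, xc_phi]
  have h4D : (4 * dD F : F) ≠ 0 := by
    have h2 : (2 : F) ≠ 0 := two_ne
    have h4 : (4 : F) = 2 * 2 := by norm_num
    rw [h4]
    exact mul_ne_zero (mul_ne_zero h2 h2) dD_ne
  have h4D' : (4 * dD (AlgebraicClosure F) : AlgebraicClosure F) ≠ 0 :=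
    mul_ne_zero (by norm_num) dD_ne
  have hf : f (xc (Q + P) ^ 3 / (4 * dD F)) = MP_1a91b9_ntT.DB.xc (Q1 + P1) ^ 3 := by
    rw [map_div₀, map_pow, map_mul, map_ofNat, map_intCast, hx, div_eq_iff h4D']
    rw [← hδ]
    ring
  have hv : v (xc (Q + P) ^ 3 / (4 * dD F)) = 1 := by
    rw [← val_ext_eq v B.valuation hB]
    have he : algebraMap F (AlgebraicClosure F) (xc (Q + P) ^ 3 / (4 * dD F)) =
        MP_1a91b9_ntT.DB.xc (Q1 + P1) ^ 3 := hf
    rw [he, map_pow, hu, one_pow]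
  rw [map_div₀, map_pow] at hv
  have hv4 : v (4 * dD F) ≠ 0 := (Valuation.ne_zero_iff v).2 h4D
  exact (div_eq_one_iff_eq hv4).1 hv

theorem xD_ne : xc (Q + P) ≠ 0 := by
  intro h
  have h1 := xD_val hab h3b hQ hQ0 hP hP0 (1 : Valuation F (WithZero (Multiplicative ℤ)))
  rw [h, map_zero, zero_pow three_ne_zero] at h1
  have h4D : (4 * dD F : F) ≠ 0 := by
    have h2 : (2 : F) ≠ 0 := two_ne
    have h4 : (4 : F) = 2 * 2 := by norm_num
    rw [h4]
    exact mul_ne_zero (mul_ne_zero h2 h2) dD_ne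
  exact h4D ((Valuation.zero_iff _).1 h1.symm)

/-- it does not depend on the point -/
theorem xD_eq {Γ : Type*} [LinearOrderedCommGroupWithZero Γ] (v : Valuation F Γ)
    {a' b' : 𝓞 K} (hab' : IsCoprime a' b') (h3b' : IsCoprime pi3 b') {Q' P' : Pt F}
    (hQ' : sm F a' Q' = 0) (hQ0' : sm F pi3 Q' ≠ 0) (hP' : sm F b' P' = 0) (hP0' : P' ≠ 0) :
    v (xc (Q + P)) = v (xc (Q' + P')) := by
  have h1 := xD_val hab h3b hQ hQ0 hP hP0 v
  have h2 := xD_val hab' h3b' hQ' hQ0' hP' hP0' v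
  rw [← h2] at h1
  exact (pow_left_inj₀ zero_le' zero_le' three_ne_zero).1 h1

end

end

end Pool.Agent.Lib.MP_1a91b9_ntX.DG
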