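import Pool.Agent.Lib.MP_1a91b9_ntX.DG.Defs
import Pool.Agent.Lib.MP_1a91b9_ntT.DB.FrobG

/-!
# The abscissa of a mixed torsion point is a unit (the curve `y² + y = x³`)

JOB XE. PROOF (complete; helper30). Here `E : y^2 + y = x^3` is the OLD curve (MP_1a91b9_ntT/DB). `A = Q + P`, `pi3 = 1 - om`.

(1) `nk_e`: if both are killed by coprime `a`, `b` and are not zero, then `Q + P` is not in the kernel of any valuation: from `x a + y b = 1`
one of `v a`, `v b` is `1` (all values of elements of `𝓞 K` are `≤ 1`, `v_alg_le`). If `v b = 1`: suppose `Ker v (Q + P)`. Then `sm a (Q + P) = sm a P` is in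
the kernel (`ker_sm`, or `ker_sm_t`, `ker_sm_le`; `Ker` is closed under `sm`), it is killed by `b`, so it is `0` by `ker_sm_tors` (DB/FrobG.lean), and
`P = sm (x a + y b) P = 0`, contradiction. The other case is symmetric.
(2) `xe_unit`. Let `T0 = mkPt 0 0 _`, `-T0 = (0, -1)`; `sm pi3 T0 = T0 - omH T0 = 0` (`sm_om`, `pi3 = 1 - S3.omO`, `omH (0,0) = (0,0)`). Let `A = Q + P`, `x = xc A`, `y = yc A`.
`A` is not in the kernel (1) (`Q ≠ 0` because `sm pi3 Q ≠ 0`), so `v x ≤ 1`, `v y ≤ 1` (`not_ker`), `y^2 + y = x^3`. Suppose `v x < 1`.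
 Case `v 3 = 1`: `y (y + 1) = x^3` has value `< 1`, so `v y < 1` or `v (y + 1) < 1`. In the first case `red_inj` (DB/ValC.lean) with the point `T0` (not in the kernel)
 gives `Ker v (A - T0)`, and `A - T0 = (Q - T0) + P`, where `Q - T0 ≠ 0` (else `sm pi3 Q = 0`) is killed by `a * pi3`, coprime to `b`: contradiction with (1). In the second
 case the same with `-T0`.
 Case `v 3 < 1`: `x ≠ 0` (if `x = 0` then `y = 0` or `y = -1`, `A = T0` or `-T0`, `sm pi3 A = 0`, `sm pi3 Q = - sm pi3 P` is killed by `a` and by `b`, so it is `0`: contradiction).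
 `A - omH A` has abscissa `x'` with `x' * (3 * x^2) = -(om^2 * (x^3 + 1))` (copy the private lemma `dtv_sub` of TG/Dt.lean). The right side has value `1` (`v x < 1`), so
 `v x' > 1`, `Ker v (A - omH A)`, `A - omH A = sm pi3 A = sm pi3 Q + sm pi3 P`, both not zero (`sm pi3 P = 0` and `sm b P = 0`, coprime, would give `P = 0`), killed by
 `a` and `b`: contradiction with (1).
-/

set_option autoImplicit false

namespace Pool.Agent.Lib.MP_1a91b9_ntX.DG

namespace XEx

open NumberField IsDedekindDomain WeierstrassCurve Pool.Agent.Lib.MP_1a91b9_ntT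
open Pool.Agent.Lib.MP_1a91b9_ntT.DB

section
variable {F : Type*} [Field F] [Algebra K F] [DecidableEq F]

theorem xe_comm (a b : 𝓞 K) (X : Pt F) : sm F a (sm F b X) = sm F b (sm F a X) := by
  have h1 : sm F (a * b) X = sm F (b * a) X := by rw [mul_comm]
  rw [map_mul, map_mul] at h1
  exact h1

theorem xe_kill {a b : 𝓞 K} (hab : IsCoprime a b) {X : Pt F} (h1 : sm F a X = 0)
    (h2 : sm F b X = 0) : X = 0 := by
  obtain ⟨x, y, hxy⟩ := hab
  have e1 : sm F (x * a + y * b) X = X := by rw [hxy, map_one]; rfl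
  rw [map_add, map_mul, map_mul] at e1
  have e2 : sm F x (sm F a X) + sm F y (sm F b X) = X := e1
  rw [h1, h2, map_zero, map_zero, add_zero] at e2
  exact e2.symm

theorem xe_pi (X : Pt F) : sm F pi3 X = X - omH F X := by
  have h : sm F (1 - S3.omO) X = X - omH F X := by
    rw [map_sub, map_one]
    exact congrArg (fun z => X - z) (sm_om X)
  exact h

theorem xe_zero {A : Pt F} (hA : A ≠ 0) (hx : xc A = 0) : sm F pi3 A = 0 := by
  rw [xe_pi, sub_eq_zero]
  refine pt_ext hA ?_ ?_ (yc_omH A).symm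
  · intro h0
    have h5 := omH_quad A
    rw [h0, map_zero, zero_add, zero_add] at h5
    exact hA h5
  · rw [xc_omH, hx, mul_zero]

theorem xe_sub {P : Pt F} (hP : P ≠ 0) (hx : xc P ≠ 0) :
    P - omH F P ≠ 0 ∧ xc (P - omH F P) * (3 * xc P ^ 2) = -(omF F ^ 2 * (xc P ^ 3 + 1)) := by
  obtain ⟨x, y, h, rfl⟩ := (cases_pt P).resolve_left hP
  rw [xc_mk] at hx
  have hh : y ^ 2 + y = (omF F * x) ^ 3 := by linear_combination h - x ^ 3 * omF_cube F
  have e1 : omH F (mkPt x y h) = mkPt (omF F * x) y hh := rfl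
  have hne : x ≠ omF F * x := by
    intro e
    have h0 : (1 - omF F) * x = 0 := by linear_combination e
    rcases mul_eq_zero.mp h0 with h1 | h1
    · exact omF_ne_one F (by linear_combination -h1)
    · exact hx h1
  rw [e1, sub_eq_add_neg, neg_mk]
  obtain ⟨h', e2⟩ := mk_add x y (omF F * x) (-y - 1) h (by linear_combination hh) hne
  rw [e2, xc_mk, xc_mk]
  refine ⟨mk_ne_zero _ _ _, ?_⟩
  have hD : x - omF F * x ≠ 0 := sub_ne_zero.mpr hne
  obtain ⟨A, hA⟩ : ∃ A : F, A = ((y - (-y - 1)) / (x - omF F * x)) ^ 2 - x - omF F * x := ⟨_, rfl⟩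
  rw [← hA]
  have hAD : A * (x - omF F * x) ^ 2 =
      (2 * y + 1) ^ 2 - (x + omF F * x) * (x - omF F * x) ^ 2 := by
    rw [hA]
    generalize x - omF F * x = D at hD
    field_simp
    ring
  have hD2 : (x - omF F * x) ^ 2 = -3 * omF F * x ^ 2 := by
    linear_combination x ^ 2 * omF_quad F
  rw [hD2] at hAD
  have hy : (2 * y + 1) ^ 2 = 4 * x ^ 3 + 1 := by linear_combination 4 * h
  linear_combination (-omF F ^ 2) * hAD - omF F ^ 2 * hy - 3 * A * x ^ 2 * omF_cube F -
    3 * x ^ 3 * omF F ^ 2 * omF_quad F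

end

section
variable {F : Type*} [Field F] [Algebra K F] [DecidableEq F] {Γ : Type*}
  [LinearOrderedCommGroupWithZero Γ] (v : Valuation F Γ)

theorem xe_val {a b : 𝓞 K} (hab : IsCoprime a b) :
    v (algebraMap K F (a : K)) = 1 ∨ v (algebraMap K F (b : K)) = 1 := by
  by_contra hc
  push Not at hc
  obtain ⟨h1, h2⟩ := hc
  have h1' := lt_of_le_of_ne (v_alg_le v a) h1
  have h2' := lt_of_le_of_ne (v_alg_le v b) h2
  obtain ⟨x, y, hxy⟩ := hab
  have e : algebraMap K F (x : K) * algebraMap K F (a : K) +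
      algebraMap K F (y : K) * algebraMap K F (b : K) = 1 := by
    have e2 := congrArg (fun z : 𝓞 K => algebraMap K F (z : K)) hxy
    simpa using e2
  have h3 : v (1 : F) < 1 := by
    rw [← e]
    refine v.map_add_lt ?_ ?_
    · rw [map_mul]
      exact (mul_le_of_le_one_left' (v_alg_le v x)).trans_lt h1'
    · rw [map_mul]
      exact (mul_le_of_le_one_left' (v_alg_le v y)).trans_lt h2'
  rw [map_one] at h3
  exact lt_irrefl _ h3

theorem xe_half {a b : 𝓞 K} (hab : IsCoprime a b) {Q P : Pt F} (hQ : sm F a Q = 0)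
    (hP : sm F b P = 0) (hP0 : P ≠ 0) (hb : v (algebraMap K F (b : K)) = 1) :
    ¬ Ker v (Q + P) := by
  intro hk
  have h1 := ker_sm v hk a
  rw [map_add, hQ, zero_add] at h1
  have h2 : sm F a P = 0 := ker_sm_tors v h1 hb (by rw [xe_comm, hP, map_zero])
  exact hP0 (xe_kill hab h2 hP)

theorem xe_nk {a b : 𝓞 K} (hab : IsCoprime a b) {Q P : Pt F}
    (hQ : sm F a Q = 0) (hQ0 : Q ≠ 0) (hP : sm F b P = 0)
    (hP0 : P ≠ 0) : ¬ Ker v (Q + P) := by
  rcases xe_val v hab with h | h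
  · rw [add_comm]
    exact xe_half v hab.symm hP hQ hQ0 h
  · exact xe_half v hab hQ hP hP0 h

theorem xe_case (h3 : v (3 : F) = 1) {a b : 𝓞 K} (hab : IsCoprime a b) (h3b : IsCoprime pi3 b)
    {Q P : Pt F} (hQ : sm F a Q = 0) (hQ0 : sm F pi3 Q ≠ 0) (hP : sm F b P = 0) (hP0 : P ≠ 0)
    (hA : ¬ Ker v (Q + P)) (hx : v (xc (Q + P)) < 1) {T : Pt F} (hT : T ≠ 0) (hTx : xc T = 0)
    (hy : v (yc (Q + P) - yc T) < 1) : False := by
  have hTk : ¬ Ker v T := by
    rintro (h0 | h0)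
    · exact hT h0
    · rw [hTx, map_zero] at h0
      exact absurd h0 (not_lt.2 zero_le_one)
  have hx' : v (xc (Q + P) - xc T) < 1 := by
    rw [hTx, sub_zero]
    exact hx
  have hk := red_inj v h3 hA hTk hx' hy
  have e : Q + P - T = (Q - T) + P := by abel
  rw [e] at hk
  have hpT := xe_zero hT hTx
  have hk1 : sm F (a * pi3) (Q - T) = 0 := by
    have e1 : sm F (a * pi3) (Q - T) = sm F a (sm F pi3 (Q - T)) := by
      rw [map_mul]
      rfl
    rw [e1, map_sub, hpT, sub_zero, xe_comm, hQ, map_zero]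
  have hk2 : Q - T ≠ 0 := by
    intro e2
    rw [sub_eq_zero.1 e2] at hQ0
    exact hQ0 hpT
  exact xe_nk v (hab.mul_left h3b) hk1 hk2 hP hP0 hk

theorem xe_main {a b : 𝓞 K} (hab : IsCoprime a b) (h3b : IsCoprime pi3 b)
    {Q P : Pt F} (hQ : sm F a Q = 0) (hQ0 : sm F pi3 Q ≠ 0) (hP : sm F b P = 0) (hP0 : P ≠ 0) :
    v (xc (Q + P)) = 1 := by
  have hQ00 : Q ≠ 0 := by
    intro h0
    rw [h0, map_zero] at hQ0
    exact hQ0 rfl
  have hA := xe_nk v hab hQ hQ00 hP hP0
  obtain ⟨hA0, hxle, hyle⟩ := not_ker v hA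
  refine le_antisymm hxle (not_lt.1 fun hx => ?_)
  obtain ⟨heq, -⟩ := exists_mk hA0
  have h3le : v (3 : F) ≤ 1 := by exact_mod_cast v_nat_le v 3
  rcases lt_or_eq_of_le h3le with h3 | h3
  · -- the places above three
    have hQk : sm F a (sm F pi3 Q) = 0 := by rw [xe_comm, hQ, map_zero]
    have hPk : sm F b (sm F pi3 P) = 0 := by rw [xe_comm, hP, map_zero]
    have hx0 : xc (Q + P) ≠ 0 := by
      intro h0
      have h1 := xe_zero hA0 h0
      rw [map_add] at h1
      have h2 := eq_neg_of_add_eq_zero_left h1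
      have h4 : sm F b (sm F pi3 Q) = 0 := by rw [h2, map_neg, hPk, neg_zero]
      exact hQ0 (xe_kill hab hQk h4)
    obtain ⟨hs0, hs⟩ := xe_sub hA0 hx0
    have hP1 : sm F pi3 P ≠ 0 := fun h0 => hP0 (xe_kill h3b h0 hP)
    have hx3 : v (xc (Q + P) ^ 3) < 1 := by
      rw [map_pow]
      exact pow_lt_one₀ zero_le hx (by norm_num)
    have h5 : v (xc (Q + P) ^ 3 + 1) = 1 := by
      rw [Valuation.map_add_eq_of_lt_right v (by rw [map_one]; exact hx3), map_one]
    have h6 : v (xc (Q + P - omH F (Q + P)) * (3 * xc (Q + P) ^ 2)) = 1 := by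
      rw [hs, Valuation.map_neg, map_mul, h5, map_pow, v_om v, one_pow, one_mul]
    have h7 : v (3 * xc (Q + P) ^ 2) < 1 := by
      rw [map_mul, map_pow]
      exact (mul_le_of_le_one_right' (pow_le_one₀ zero_le hxle)).trans_lt h3
    have h8 : 1 < v (xc (Q + P - omH F (Q + P))) := by
      by_contra hc
      rw [not_lt] at hc
      rw [map_mul] at h6
      have h9 := (mul_le_of_le_one_left' hc : v (xc (Q + P - omH F (Q + P))) *
        v (3 * xc (Q + P) ^ 2) ≤ v (3 * xc (Q + P) ^ 2)).trans_lt h7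
      rw [h6] at h9
      exact lt_irrefl _ h9
    have hk : Ker v (sm F pi3 (Q + P)) := by
      rw [xe_pi]
      exact Or.inr h8
    rw [map_add] at hk
    exact xe_nk v hab hQk hQ0 hPk hP1 hk
  · -- the places prime to three
    have hx3 : v (yc (Q + P)) * v (yc (Q + P) + 1) < 1 := by
      rw [← map_mul]
      have e : yc (Q + P) * (yc (Q + P) + 1) = xc (Q + P) ^ 3 := by
        linear_combination heq
      rw [e, map_pow]
      exact pow_lt_one₀ zero_le hx (by norm_num)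
    rcases lt_or_eq_of_le hyle with hy | hy
    · refine xe_case v h3 hab h3b hQ hQ0 hP hP0 hA hx (T := mkPt 0 0 (by ring))
        (mk_ne_zero _ _ _) (xc_mk _ _ _) ?_
      rw [yc_mk, sub_zero]
      exact hy
    · rw [hy, one_mul] at hx3
      refine xe_case v h3 hab h3b hQ hQ0 hP hP0 hA hx (T := mkPt 0 (-1) (by ring))
        (mk_ne_zero _ _ _) (xc_mk _ _ _) ?_
      rw [yc_mk, sub_neg_eq_add]
      exact hx3

end

end XEx

open NumberField IsDedekindDomain WeierstrassCurve Pool.Agent.Lib.MP_1a91b9_ntT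
open Pool.Agent.Lib.MP_1a91b9_ntX.DB

noncomputable section

section
variable {F : Type*} [Field F] [Algebra K F] [DecidableEq F] {Γ : Type*}
  [LinearOrderedCommGroupWithZero Γ] (v : Valuation F Γ)

/-- a sum of two non-zero points of coprime annihilators is not in the kernel of reduction -/
theorem nk_e {a b : 𝓞 K} (hab : IsCoprime a b) {Q P : MP_1a91b9_ntT.DB.Pt F}
    (hQ : MP_1a91b9_ntT.DB.sm F a Q = 0) (hQ0 : Q ≠ 0) (hP : MP_1a91b9_ntT.DB.sm F b P = 0)
    (hP0 : P ≠ 0) : ¬ MP_1a91b9_ntT.DB.Ker v (Q + P) := by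
  exact XEx.xe_nk v hab hQ hQ0 hP hP0

/-- the abscissa of a mixed torsion point is a unit -/
theorem xe_unit {a b : 𝓞 K} (hab : IsCoprime a b) (h3b : IsCoprime pi3 b)
    {Q P : MP_1a91b9_ntT.DB.Pt F} (hQ : MP_1a91b9_ntT.DB.sm F a Q = 0)
    (hQ0 : MP_1a91b9_ntT.DB.sm F pi3 Q ≠ 0) (hP : MP_1a91b9_ntT.DB.sm F b P = 0) (hP0 : P ≠ 0) :
    v (MP_1a91b9_ntT.DB.xc (Q + P)) = 1 := by
  exact XEx.xe_main v hab h3b hQ hQ0 hP hP0

end

end

end Pool.Agent.Lib.MP_1a91b9_ntX.DG
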