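import Pool.Agent.Lib.MP_1a91b9_ntX.DG.XD
import Pool.Agent.Lib.MP_1a91b9_ntT.DG.XQa

/-!
# The units `xQ` (algebraic properties)

`xQ T iv n P Q c` is the product of the `x(Q + a P)^(n (c / a))`. All the abscissae have the same valuation
(XD.lean) and the sum of the exponents is zero, so `xQ` is a unit everywhere.
-/

set_option autoImplicit false

namespace Pool.Agent.Lib.MP_1a91b9_ntX.DG

open NumberField IsDedekindDomain WeierstrassCurve Pool.Agent.Lib.MP_1a91b9_ntT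
open Pool.Agent.Lib.MP_1a91b9_ntX.DB

noncomputable section

variable [DD]

theorem pi3_cop {ϖ : 𝓞 K} (h : (3 : 𝓞 K) ∣ ϖ - 1) : IsCoprime pi3 ϖ := by
  obtain ⟨e, he⟩ := pi3_dvd_three.trans h
  exact ⟨-e, 1, by linear_combination he⟩

theorem w_cop {μ ϖ : 𝓞 K} (h : Prime ϖ) (h1 : ¬ ϖ ∣ μ) : IsCoprime μ ϖ := by
  have hpid : IsPrincipalIdealRing (𝓞 K) := IsCyclotomicExtension.Rat.three_pid K
  exact ((h.irreducible.coprime_iff_not_dvd).2 h1).symm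

section
variable {N : Type} [Field N] [NumberField N] [Algebra K N] [DecidableEq N]
  {ϖ : 𝓞 K} {ℓ q : ℕ} (h : PD ϖ ℓ q) {T : Finset (𝓞 K)} {iv : 𝓞 K → 𝓞 K} {n : 𝓞 K → ℤ}
  (hT : TrD ϖ ℓ T iv n) {P : Pt N} (hP : Ord ϖ P) {μ : 𝓞 K}
  (hμϖ : ¬ ϖ ∣ μ) {Q : Pt N} (hQ : sm N μ Q = 0) (hQ0 : sm N pi3 Q ≠ 0)

include h hP in
theorem sm_kill (c : 𝓞 K) : sm N ϖ (sm N c P) = 0 := by
  rw [sm_sm]
  exact (hP _).2 (dvd_mul_right _ _)

include h hP in
theorem sm_ne {c : 𝓞 K} (hc : ¬ ϖ ∣ c) : sm N c P ≠ 0 := fun e => hc ((hP _).1 e)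

include h hP hμϖ hQ hQ0 in
theorem xpt_ne {c : 𝓞 K} (hc : ¬ ϖ ∣ c) : xc (Q + sm N c P) ≠ 0 :=
  xD_ne (w_cop h.prime hμϖ) (pi3_cop h.one) hQ hQ0 (sm_kill h hP c) (sm_ne h hP hc)

include h hP hμϖ hQ hQ0 in
theorem xpt_eq {Γ : Type*} [LinearOrderedCommGroupWithZero Γ] (v : Valuation N Γ) {c d : 𝓞 K}
    (hc : ¬ ϖ ∣ c) (hd : ¬ ϖ ∣ d) : v (xc (Q + sm N c P)) = v (xc (Q + sm N d P)) :=
  xD_eq (w_cop h.prime hμϖ) (pi3_cop h.one) hQ hQ0 (sm_kill h hP c) (sm_ne h hP hc) v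
    (w_cop h.prime hμϖ) (pi3_cop h.one) hQ hQ0 (sm_kill h hP d) (sm_ne h hP hd)

include h in
private theorem xqa_one : ¬ ϖ ∣ (1 : 𝓞 K) := fun e => h.prime.not_isUnit (isUnit_of_dvd_one e)

omit [DD] [Algebra K N] [DecidableEq N] [NumberField N] in
private theorem xqa_zpow {κ : N} (hκ : κ ≠ 0) (s : Finset (𝓞 K)) (g : 𝓞 K → ℤ) :
    ∏ a ∈ s, κ ^ g a = κ ^ (∑ a ∈ s, g a) := by
  classical
  induction s using Finset.induction_on with
  | empty => simp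
  | insert a s ha ih =>
    rw [Finset.prod_insert ha, Finset.sum_insert ha, ih, zpow_add₀ hκ]

include h hT hP hμϖ hQ hQ0

/-- a product of powers of the abscissae with exponents of sum zero is a unit -/
theorem xprod_val {Γ : Type*} [LinearOrderedCommGroupWithZero Γ] (v : Valuation N Γ)
    {g : 𝓞 K → ℤ} (hg : ∑ a ∈ T, g a = 0) : v (∏ a ∈ T, xc (Q + sm N a P) ^ g a) = 1 := by
  have h1 := xpt_ne h hP hμϖ hQ hQ0 (xqa_one h)
  have h2 : v (∏ a ∈ T, xc (Q + sm N a P) ^ g a) =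
      v (∏ a ∈ T, xc (Q + sm N 1 P) ^ g a) := by
    rw [map_prod, map_prod]
    refine Finset.prod_congr rfl fun a ha => ?_
    rw [map_zpow₀, map_zpow₀, xpt_eq h hP hμϖ hQ hQ0 v (hT.res.nz a ha) (xqa_one h)]
  rw [h2, xqa_zpow h1, hg, zpow_zero, map_one]

theorem xQ_val {Γ : Type*} [LinearOrderedCommGroupWithZero Γ] (v : Valuation N Γ) (c : 𝓞 K) :
    v (xQ T iv n P Q c) = 1 :=
  xprod_val h hT hP hμϖ hQ hQ0 v (hT.sum_zero h.toPD c)

theorem xQ_ne_zero (c : 𝓞 K) : xQ T iv n P Q c ≠ 0 :=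
  Finset.prod_ne_zero_iff.2 fun a ha =>
    zpow_ne_zero _ (xpt_ne h hP hμϖ hQ hQ0 (hT.res.nz a ha))

theorem xQ_zero {c : 𝓞 K} (hc : ϖ ∣ c) : xQ T iv n P Q c = 1 := by
  rw [xQ]
  refine Finset.prod_eq_one fun a _ => ?_
  rw [TrD.zero h.toPD hT (hc.mul_right _), zpow_zero]

theorem xQ_cong {c d : 𝓞 K} (hc : ϖ ∣ c - d) : xQ T iv n P Q c = xQ T iv n P Q d := by
  rw [xQ, xQ]
  refine Finset.prod_congr rfl fun a _ => ?_
  rw [hT.cong (c * iv a) (d * iv a) (by rw [← sub_mul]; exact hc.mul_right _)]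

theorem xQ_neg (c : 𝓞 K) : xQ T iv n P Q (-c) = (xQ T iv n P Q c)⁻¹ := by
  rw [xQ, xQ, ← Finset.prod_inv_distrib]
  refine Finset.prod_congr rfl fun a _ => ?_
  rw [neg_mul, hT.odd, zpow_neg]

theorem xQ_add (c d : 𝓞 K) : ∃ z : N, z ≠ 0 ∧ (∀ w : HeightOneSpectrum (𝓞 N), od w z = 0) ∧
    xQ T iv n P Q (c + d) = xQ T iv n P Q c * xQ T iv n P Q d * z ^ ℓ := by
  have hm : ∀ a : 𝓞 K, ∃ m : ℤ, n ((c + d) * iv a) - n (c * iv a) - n (d * iv a) = ℓ * m := by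
    intro a
    have h1 := hT.add (c * iv a) (d * iv a)
    rw [← add_mul] at h1
    exact h1
  choose m hm using hm
  have hz0 : ∏ a ∈ T, xc (Q + sm N a P) ^ m a ≠ 0 :=
    Finset.prod_ne_zero_iff.2 fun a ha =>
      zpow_ne_zero _ (xpt_ne h hP hμϖ hQ hQ0 (hT.res.nz a ha))
  have hs : ∑ a ∈ T, m a = 0 := by
    have h1 : (ℓ : ℤ) * ∑ a ∈ T, m a = 0 := by
      rw [Finset.mul_sum, ← Finset.sum_congr rfl fun a _ => hm a, Finset.sum_sub_distrib,
        Finset.sum_sub_distrib, hT.sum_zero h.toPD, hT.sum_zero h.toPD, hT.sum_zero h.toPD]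
      ring
    refine (mul_eq_zero.1 h1).resolve_left ?_
    have := h.hl.ne_zero
    exact_mod_cast this
  refine ⟨∏ a ∈ T, xc (Q + sm N a P) ^ m a, hz0, fun w => ?_, ?_⟩
  · rw [← val_eq_one_iff w hz0]
    exact xprod_val h hT hP hμϖ hQ hQ0 _ hs
  · rw [xQ, xQ, xQ, ← Finset.prod_mul_distrib, ← Finset.prod_pow, ← Finset.prod_mul_distrib]
    refine Finset.prod_congr rfl fun a ha => ?_
    have hy := xpt_ne h hP hμϖ hQ hQ0 (hT.res.nz a ha)
    have h1 : n ((c + d) * iv a) = n (c * iv a) + n (d * iv a) + m a * (ℓ : ℤ) := by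
      linear_combination hm a
    rw [h1, zpow_add₀ hy, zpow_add₀ hy, zpow_mul, zpow_natCast]

theorem xQ_ga {k : Type} [Field k] [Algebra K k] [Algebra k N] [IsScalarTower K k N]
    {σ : Gal(N/k)} {d : 𝓞 K} (hd : ¬ ϖ ∣ d) (hσ : ga σ P = sm N d P) (c : 𝓞 K) :
    σ (xQ T iv n P Q c) = xQ T iv n P (ga σ Q) (c * d) := by
  classical
  have key : ∀ a b : 𝓞 K, ¬ ϖ ∣ a → ¬ ϖ ∣ b → ϖ ∣ a - b → ϖ ∣ iv a - iv b := by
    intro a b ha hb hab
    have e1 := hT.inv a ha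
    have e2 := hT.inv b hb
    have e3 : ϖ ∣ a * (iv a - iv b) := by
      have e4 : a * (iv a - iv b) = (a * iv a - 1) - (b * iv b - 1) - (a - b) * iv b := by ring
      rw [e4]
      exact dvd_sub (dvd_sub e1 e2) (hab.mul_right _)
    exact (h.prime.dvd_or_dvd e3).resolve_left ha
  set f : 𝓞 K → N := fun b => if ϖ ∣ b then 1 else
    xc (ga σ Q + sm N b P) ^ n (c * d * iv b) with hf
  have hf1 : ∀ a b : 𝓞 K, ϖ ∣ a - b → f a = f b := by
    intro a b hab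
    have hiff : ϖ ∣ a ↔ ϖ ∣ b := by
      constructor
      · intro ha
        have := dvd_sub ha hab
        rwa [sub_sub_cancel] at this
      · intro hb
        have := dvd_add hab hb
        rwa [sub_add_cancel] at this
    simp only [hf]
    by_cases ha : ϖ ∣ a
    · rw [if_pos ha, if_pos (hiff.1 ha)]
    · have hb : ¬ ϖ ∣ b := fun hb => ha (hiff.2 hb)
      rw [if_neg ha, if_neg hb, (hP.sm_eq_iff a b).2 hab,
        hT.cong (c * d * iv a) (c * d * iv b)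
          (by rw [← mul_sub]; exact (key a b ha hb hab).mul_left _)]
  have hre := TrD.reindex h.toPD hT f hf1 hd
  have h2 : xQ T iv n P (ga σ Q) (c * d) = ∏ a ∈ T, f a := by
    rw [xQ]
    refine Finset.prod_congr rfl fun a ha => ?_
    simp only [hf]
    rw [if_neg (hT.res.nz a ha)]
  rw [h2, ← hre, xQ, map_prod]
  refine Finset.prod_congr rfl fun a ha => ?_
  have hna := hT.res.nz a ha
  have hnad : ¬ ϖ ∣ a * d := fun h3 => (h.prime.dvd_or_dvd h3).elim hna hd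
  simp only [hf]
  rw [if_neg hnad, map_zpow₀, ← xc_ga σ, map_add, ga_sm, hσ]
  have h4 : sm N a (sm N d P) = sm N (a * d) P := by
    rw [map_mul]
    rfl
  rw [h4]
  congr 1
  refine hT.cong _ _ ?_
  have e1 := hT.inv a hna
  have e2 := hT.inv (a * d) hnad
  have e3 : ϖ ∣ a * (iv a - d * iv (a * d)) := by
    have e4 : a * (iv a - d * iv (a * d)) = (a * iv a - 1) - (a * d * iv (a * d) - 1) := by ring
    rw [e4]
    exact dvd_sub e1 e2
  have e5 := (h.prime.dvd_or_dvd e3).resolve_left hna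
  have e6 : c * iv a - c * d * iv (a * d) = c * (iv a - d * iv (a * d)) := by ring
  rw [e6]
  exact e5.mul_left _

end

end

end Pool.Agent.Lib.MP_1a91b9_ntX.DG
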