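import Pool.Agent.Lib.MP_1a91b9_ntX.DG.Defs
import Pool.Agent.Lib.MP_1a91b9_ntT.DG.ZA

/-!
# The values of the residual series for any modulus, distribution relation of `E1`

JOB ZP. PROOF (complete; helper30). `aX C x = x.1 + x.2 om` for `x : Fin C × Fin C` (`aX_inj`, `aX_surj`, MP_1a91b9_ntT/DG/ZA1.lean), `fin_sum` (ibid.): for `d ∣ C`: `Σ_{x : d ∣ aX C x - r} C⁻¹ E1 (aX C x / C) = d⁻¹ E1 (r / d)`.
`exists_Zp`: for `j : Fin 3 × Fin 3` let `x_j = x + c * aX 3 j`. `c ∣ a - x` iff there is a unique `j` with `3 c ∣ a - x_j` (`a = x + c b`, `aX_surj 3`: `3 ∣ b - aX 3 j`, `aX_inj`). So `ZS c x s = Σ_j ZS (3 c) x_j s` for `2 < s.re` (`summable_Z`, `Summable.tsum_finsetSum`; the summands agree pointwise).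
`3 c ∤ x_j` (otherwise `c ∣ x`), `3 ∣ 3 c`: `exists_Z` gives `A_j`; let `A = Σ_j A_j`. Value: `A 1 = Σ_j (3 c)⁻¹ E1 (x_j / (3 c))`. Let `C` be a natural number `≠ 0` divisible by `3 c` (`C = Ideal.absNorm (span {3 c})`, `Ideal.absNorm_mem`, or as in ZA.lean). By `fin_sum` for `d = 3 c`, `r = x_j`:
`Σ_j Σ_{y : 3 c ∣ aX C y - x_j} C⁻¹ E1 (aX C y / C) = Σ_{y : c ∣ aX C y - x} C⁻¹ E1 (aX C y / C)` (`Finset.sum_comm`, unique `j`) `= c⁻¹ E1 (x / c)` by `fin_sum` for `d = c`.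
`E1_pi3`: let `C ≠ 0` be a natural number divisible by `c = pi3 c'`. `fin_sum` for `d = c`, `r = x + j c'`, `j = 0, 1, 2`, and for `d = c'`, `r = x`: `c' ∣ a - x` iff there is a unique `j ∈ {0, 1, 2}` with `pi3 c' ∣ a - x - j c'` (`a = x + c' b`; every `b ∈ 𝓞 K` is congruent to exactly one of `0, 1, 2` modulo `pi3`:
`om = 1` modulo `pi3`, `3 = 0` modulo `pi3`, and `pi3` does not divide `1`, `2`: `coprime_three`, `prime_pi3`, `S3.exists_coords`). So `Σ_j c⁻¹ E1 ((x + j c') / c) = c'⁻¹ E1 (x / c')`; multiply by `c = pi3 c'` (images under `embK` are not `0`).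
-/

set_option autoImplicit false

namespace Pool.Agent.Lib.MP_1a91b9_ntX.DG

open NumberField IsDedekindDomain WeierstrassCurve Pool.Agent.Lib.MP_1a91b9_ntT
open Pool.Agent.Lib.MP_1a91b9_ntX.DB

noncomputable section

export Pool.Agent.Lib.MP_1a91b9_ntT.DG (ZS)

private theorem ZP_ite {ι : Type*} [Fintype ι] {c c' x : 𝓞 K} {r : ι → 𝓞 K}
    (H1 : ∀ a : 𝓞 K, c' ∣ a - x → ∃ j, c ∣ a - r j ∧ ∀ j', c ∣ a - r j' → j' = j)
    (H2 : ∀ (a : 𝓞 K) (j : ι), c ∣ a - r j → c' ∣ a - x) (a : 𝓞 K) (v : ℂ) :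
    (∑ j, haveI := Classical.dec (c ∣ a - r j); if c ∣ a - r j then v else 0) =
      (haveI := Classical.dec (c' ∣ a - x); if c' ∣ a - x then v else 0) := by
  by_cases h : c' ∣ a - x
  · obtain ⟨j, hj, hu⟩ := H1 a h
    rw [if_pos h, Finset.sum_eq_single j]
    · rw [if_pos hj]
    · intro j' _ hne
      exact if_neg (fun h' => hne (hu j' h'))
    · intro h'
      exact absurd (Finset.mem_univ j) h'
  · rw [if_neg h]
    exact Finset.sum_eq_zero fun j _ => if_neg (fun h' => h (H2 a j h'))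

private theorem ZP_dist {ι : Type*} [Fintype ι] {c c' x : 𝓞 K} {r : ι → 𝓞 K} (hc : c ≠ 0)
    (hcc : c' ∣ c)
    (H1 : ∀ a : 𝓞 K, c' ∣ a - x → ∃ j, c ∣ a - r j ∧ ∀ j', c ∣ a - r j' → j' = j)
    (H2 : ∀ (a : 𝓞 K) (j : ι), c ∣ a - r j → c' ∣ a - x) :
    ∑ j, (embK (c : K))⁻¹ * E1 (embK (r j : K) / embK (c : K)) =
      (embK (c' : K))⁻¹ * E1 (embK (x : K) / embK (c' : K)) := by
  obtain ⟨C, hC, hdC⟩ := kf_normInt c
  have hC0 : 0 < C := by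
    rw [Nat.pos_iff_ne_zero]
    intro h0
    rw [h0, Nat.cast_zero] at hC
    exact MP_1a91b9_ntT.DG.za_embK_ne hc (norm_eq_zero.1 (pow_eq_zero_iff two_ne_zero |>.1 hC.symm))
  have e1 : ∀ j : ι, (embK (c : K))⁻¹ * E1 (embK (r j : K) / embK (c : K)) =
      ∑ y : Fin C × Fin C, (haveI := Classical.dec (c ∣ MP_1a91b9_ntT.DG.aX C y - r j);
        if c ∣ MP_1a91b9_ntT.DG.aX C y - r j then
          (C : ℂ)⁻¹ * E1 (embK (MP_1a91b9_ntT.DG.aX C y : K) / C) else 0) := by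
    intro j
    exact (MP_1a91b9_ntT.DG.fin_sum hC0 (r := r j) hdC).symm
  have e2 : (embK (c' : K))⁻¹ * E1 (embK (x : K) / embK (c' : K)) =
      ∑ y : Fin C × Fin C, (haveI := Classical.dec (c' ∣ MP_1a91b9_ntT.DG.aX C y - x);
        if c' ∣ MP_1a91b9_ntT.DG.aX C y - x then
          (C : ℂ)⁻¹ * E1 (embK (MP_1a91b9_ntT.DG.aX C y : K) / C) else 0) :=
    (MP_1a91b9_ntT.DG.fin_sum hC0 (r := x) (dvd_trans hcc hdC)).symm
  rw [Finset.sum_congr rfl fun j _ => e1 j, e2, Finset.sum_comm]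
  exact Finset.sum_congr rfl fun y _ => ZP_ite H1 H2 _ _

private theorem ZP_three {c : 𝓞 K} (hc : c ≠ 0) (x : 𝓞 K) :
    (∀ a : 𝓞 K, c ∣ a - x → ∃ j : Fin 3 × Fin 3, 3 * c ∣ a - (x + c * MP_1a91b9_ntT.DG.aX 3 j) ∧
      ∀ j', 3 * c ∣ a - (x + c * MP_1a91b9_ntT.DG.aX 3 j') → j' = j) ∧
    (∀ (a : 𝓞 K) (j : Fin 3 × Fin 3), 3 * c ∣ a - (x + c * MP_1a91b9_ntT.DG.aX 3 j) →
      c ∣ a - x) := by
  constructor
  · rintro a ⟨b, hb⟩
    obtain ⟨j, e, hj⟩ := MP_1a91b9_ntT.DG.aX_surj 3 (by norm_num) b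
    push_cast at hj
    refine ⟨j, ⟨e, ?_⟩, ?_⟩
    · linear_combination hb + c * hj
    · rintro j' ⟨f, hf⟩
      refine MP_1a91b9_ntT.DG.aX_inj 3 j' j (e - f) ?_
      push_cast
      apply mul_left_cancel₀ hc
      linear_combination hb + c * hj - hf
  · rintro a j ⟨f, hf⟩
    exact ⟨3 * f + MP_1a91b9_ntT.DG.aX 3 j, by linear_combination hf⟩

theorem exists_Zp {c x : 𝓞 K} (hc : c ≠ 0) (hx : ¬ c ∣ x) :
    ∃ A : ℂ → ℂ, Differentiable ℂ A ∧ (∀ s : ℂ, 2 < s.re → A s = ZS c x s) ∧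
    A 1 = (embK (c : K))⁻¹ * E1 (embK (x : K) / embK (c : K)) := by
  have h30 : (3 : 𝓞 K) ≠ 0 := by exact_mod_cast (by norm_num : (3 : ℕ) ≠ 0)
  have h3c : 3 * c ≠ 0 := mul_ne_zero h30 hc
  have hxj : ∀ j : Fin 3 × Fin 3, ¬ 3 * c ∣ x + c * MP_1a91b9_ntT.DG.aX 3 j := by
    rintro j ⟨e, he⟩
    exact hx ⟨3 * e - MP_1a91b9_ntT.DG.aX 3 j, by linear_combination he⟩
  have hex := fun j : Fin 3 × Fin 3 =>
    MP_1a91b9_ntT.DG.exists_Z h3c (hxj j) (dvd_mul_right 3 c)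
  choose A hA hAs hA1 using hex
  obtain ⟨H1, H2⟩ := ZP_three hc x
  refine ⟨fun s => ∑ j, A j s, ?_, ?_, ?_⟩
  · exact Differentiable.fun_sum fun j _ => hA j
  · intro s hs
    have e1 : ∑ j, A j s = ∑ j, ZS (3 * c) (x + c * MP_1a91b9_ntT.DG.aX 3 j) s :=
      Finset.sum_congr rfl fun j _ => hAs j s hs
    change ∑ j, A j s = ZS c x s
    rw [e1]
    unfold MP_1a91b9_ntT.DG.ZS
    rw [← Summable.tsum_finsetSum (fun j _ => MP_1a91b9_ntT.DG.summable_Z (3 * c)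
      (x + c * MP_1a91b9_ntT.DG.aX 3 j) hs)]
    exact tsum_congr fun a => ZP_ite H1 H2 a _
  · change ∑ j, A j 1 = _
    rw [Finset.sum_congr rfl fun j _ => hA1 j]
    exact ZP_dist h3c (dvd_mul_left c 3) H1 H2

private theorem ZP_not_one : ¬ pi3 ∣ (1 : 𝓞 K) := fun h => prime_pi3.not_isUnit (isUnit_of_dvd_one h)

private theorem ZP_not_two : ¬ pi3 ∣ (2 : 𝓞 K) := by
  intro h
  have h3 : pi3 ∣ (3 : 𝓞 K) := pi3_dvd_three
  have h1 : pi3 ∣ (3 : 𝓞 K) - 2 := dvd_sub h3 h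
  have e : (3 : 𝓞 K) - 2 = 1 := by norm_num
  rw [e] at h1
  exact ZP_not_one h1

private theorem ZP_uniq (j j' : Fin 3) (h : pi3 ∣ ((j : ℕ) : 𝓞 K) - ((j' : ℕ) : 𝓞 K)) : j = j' := by
  have h1 := ZP_not_one
  have h2 := ZP_not_two
  have key : ∀ m : ℕ, m < 3 → m ≠ 0 → ¬ pi3 ∣ (m : 𝓞 K) := by
    intro m hm hm0
    interval_cases m
    · exact absurd rfl hm0
    · simpa using h1
    · simpa using h2
  apply Fin.ext
  rcases lt_trichotomy (j : ℕ) (j' : ℕ) with hlt | heq | hgt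
  · exfalso
    have e : ((j' : ℕ) : 𝓞 K) - ((j : ℕ) : 𝓞 K) = (((j' : ℕ) - (j : ℕ) : ℕ) : 𝓞 K) := by
      rw [Nat.cast_sub hlt.le]
    rw [← dvd_neg, neg_sub, e] at h
    have := j'.2
    exact key _ (by omega) (by omega) h
  · exact heq
  · exfalso
    have e : ((j : ℕ) : 𝓞 K) - ((j' : ℕ) : 𝓞 K) = (((j : ℕ) - (j' : ℕ) : ℕ) : 𝓞 K) := by
      rw [Nat.cast_sub hgt.le]
    rw [e] at h
    have := j.2
    exact key _ (by omega) (by omega) h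

private theorem ZP_ex (b : 𝓞 K) : ∃ j : Fin 3, pi3 ∣ b - ((j : ℕ) : 𝓞 K) := by
  obtain ⟨m, n, hmn⟩ := S3.exists_coords b
  have hb : b = (m : 𝓞 K) + (n : 𝓞 K) * S3.omO := by
    apply RingOfIntegers.ext
    rw [hmn]
    push_cast
    rfl
  subst hb
  have hnn := Int.emod_nonneg (m + n) (show (3 : ℤ) ≠ 0 by norm_num)
  have hlt := Int.emod_lt_of_pos (m + n) (show (0 : ℤ) < 3 by norm_num)
  refine ⟨⟨((m + n) % 3).toNat, by omega⟩, ?_⟩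
  obtain ⟨e, he⟩ : pi3 ∣ (3 : 𝓞 K) := pi3_dvd_three
  have h3 := Int.emod_add_mul_ediv (m + n) 3
  have h4 : ((((m + n) % 3).toNat : ℕ) : 𝓞 K) = (((m + n) % 3 : ℤ) : 𝓞 K) := by
    have h5 : ((((m + n) % 3).toNat : ℕ) : ℤ) = (m + n) % 3 := Int.toNat_of_nonneg hnn
    calc ((((m + n) % 3).toNat : ℕ) : 𝓞 K) = (((((m + n) % 3).toNat : ℕ) : ℤ) : 𝓞 K) :=
          (Int.cast_natCast _).symm
      _ = _ := by rw [h5]
  have h6 : (((m + n) % 3 : ℤ) : 𝓞 K) = (m : 𝓞 K) + (n : 𝓞 K) - 3 * (((m + n) / 3 : ℤ) : 𝓞 K) := by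
    have h7 : (m + n) % 3 = m + n - 3 * ((m + n) / 3) := by linarith
    rw [h7]
    push_cast
    ring
  change pi3 ∣ (m : 𝓞 K) + (n : 𝓞 K) * S3.omO - ((((m + n) % 3).toNat : ℕ) : 𝓞 K)
  rw [h4, h6]
  refine ⟨e * (((m + n) / 3 : ℤ) : 𝓞 K) - (n : 𝓞 K), ?_⟩
  have h8 : S3.omO = 1 - pi3 := by
    unfold MP_1a91b9_ntT.TG.pi3
    ring
  rw [h8]
  linear_combination (((m + n) / 3 : ℤ) : 𝓞 K) * he

theorem E1_pi3 {c c' : 𝓞 K} (hc' : c' ≠ 0) (hc : c = pi3 * c') (x : 𝓞 K) :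
    ∑ j : Fin 3, E1 (embK ((x + ((j : ℕ) : 𝓞 K) * c' : 𝓞 K) : K) / embK (c : K)) =
      embK ((pi3 : 𝓞 K) : K) * E1 (embK (x : K) / embK (c' : K)) := by
  have hp0 : (pi3 : 𝓞 K) ≠ 0 := prime_pi3.ne_zero
  have hc0 : c ≠ 0 := by rw [hc]; exact mul_ne_zero hp0 hc'
  have H1 : ∀ a : 𝓞 K, c' ∣ a - x → ∃ j : Fin 3, c ∣ a - (x + ((j : ℕ) : 𝓞 K) * c') ∧
      ∀ j' : Fin 3, c ∣ a - (x + ((j' : ℕ) : 𝓞 K) * c') → j' = j := by
    rintro a ⟨b, hb⟩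
    obtain ⟨j, f, hf⟩ := ZP_ex b
    refine ⟨j, ⟨f, ?_⟩, ?_⟩
    · rw [hc]
      linear_combination hb + c' * hf
    · rintro j' ⟨g, hg⟩
      refine ZP_uniq j' j ⟨f - g, ?_⟩
      rw [hc] at hg
      apply mul_left_cancel₀ hc'
      linear_combination hb + c' * hf - hg
  have H2 : ∀ (a : 𝓞 K) (j : Fin 3), c ∣ a - (x + ((j : ℕ) : 𝓞 K) * c') → c' ∣ a - x := by
    rintro a j ⟨g, hg⟩
    rw [hc] at hg
    exact ⟨pi3 * g + ((j : ℕ) : 𝓞 K), by linear_combination hg⟩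
  have h := ZP_dist hc0 (⟨pi3, by rw [hc]; ring⟩ : c' ∣ c) H1 H2
  rw [← Finset.mul_sum] at h
  have hne : embK (c : K) ≠ 0 := MP_1a91b9_ntT.DG.za_embK_ne hc0
  have hne' : embK (c' : K) ≠ 0 := MP_1a91b9_ntT.DG.za_embK_ne hc'
  have hcc : embK (c : K) = embK ((pi3 : 𝓞 K) : K) * embK (c' : K) := by
    rw [hc]
    have h4 : ((pi3 * c' : 𝓞 K) : K) = ((pi3 : 𝓞 K) : K) * (c' : K) := rfl
    rw [h4, map_mul]
  have h2 : embK (c : K) * ((embK (c : K))⁻¹ *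
      ∑ j : Fin 3, E1 (embK ((x + ((j : ℕ) : 𝓞 K) * c' : 𝓞 K) : K) / embK (c : K))) =
      embK (c : K) * ((embK (c' : K))⁻¹ * E1 (embK (x : K) / embK (c' : K))) := by rw [h]
  rw [mul_inv_cancel_left₀ hne] at h2
  rw [h2, hcc]
  field_simp

end

end Pool.Agent.Lib.MP_1a91b9_ntX.DG
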